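import Mathlib.LinearAlgebra.Matrix.ToLinearEquiv
import Mathlib.LinearAlgebra.Matrix.AbsoluteValue
import Mathlib.LinearAlgebra.FiniteDimensional.Lemmas
import Mathlib.LinearAlgebra.Dimension.Constructions
import Mathlib.Data.Sym.Sym2
import Mathlib.Algebra.Field.ZMod
import Mathlib.Data.Nat.PrimeFin
import Mathlib.Data.Nat.Prime.Int
import Mathlib.LinearAlgebra.Matrix.DotProduct
import Mathlib.LinearAlgebra.FreeModule.StrongRankCondition
import Mathlib.Tactic.Linarith
import Mathlib.Tactic.Positivity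
import Mathlib.Tactic.LinearCombination

namespace Pool.Agent.Work.MP_c383cf_pr

open Finset Module

variable {V : Type} [Fintype V]

/-- Adjacency indicator. -/
def adj (R : Type) [CommRing R] (ω : Sym2 V → Bool) (i j : V) : R := if ω s(i, j) then 1 else 0

omit [Fintype V] in
lemma adj_comm (R : Type) [CommRing R] (ω : Sym2 V → Bool) (i j : V) :
    adj R ω i j = adj R ω j i := by unfold adj; rw [Sym2.eq_swap]

omit [Fintype V] in
lemma adj_map {R S : Type} [CommRing R] [CommRing S] (f : R →+* S) (ω : Sym2 V → Bool) (i j : V) :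
    f (adj R ω i j) = adj S ω i j := by unfold adj; split_ifs <;> simp

/-- The Laplacian. -/
def lap {R : Type} [CommRing R] (ω : Sym2 V → Bool) : (V → R) →ₗ[R] (V → R) where
  toFun v i := ∑ j, adj R ω i j * (v i - v j)
  map_add' u v := by
    funext i
    simp only [Pi.add_apply, ← sum_add_distrib]
    exact sum_congr rfl fun _ _ => by ring
  map_smul' c v := by
    funext i
    simp only [Pi.smul_apply, smul_eq_mul, RingHom.id_apply, mul_sum]
    exact sum_congr rfl fun _ _ => by ring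

section Ring
variable {R : Type} [CommRing R] {ω : Sym2 V → Bool}

lemma lap_apply (v : V → R) (i : V) : lap ω v i = ∑ j, adj R ω i j * (v i - v j) := rfl

lemma lap_map {S : Type} [CommRing S] (f : R →+* S) (v : V → R) (i : V) :
    f (lap ω v i) = lap ω (fun j => f (v j)) i := by
  simp only [lap_apply, map_sum, map_mul, map_sub, adj_map]

lemma lap_const (c : R) (i : V) : lap ω (fun _ => c) i = 0 := by simp [lap_apply]

lemma lap_symm (u v : V → R) : ∑ i, u i * lap ω v i = ∑ i, v i * lap ω u i := by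
  have h : ∑ i, ∑ j, adj R ω i j * (u i * v j) = ∑ i, ∑ j, adj R ω i j * (v i * u j) := by
    rw [sum_comm]
    exact sum_congr rfl fun i _ => sum_congr rfl fun j _ => by rw [adj_comm]; ring
  have e : ∀ u v : V → R, ∑ i, u i * lap ω v i =
      ∑ i, ∑ j, adj R ω i j * (u i * v i) - ∑ i, ∑ j, adj R ω i j * (u i * v j) := by
    intro u v
    simp only [lap_apply, mul_sum, ← sum_sub_distrib]
    exact sum_congr rfl fun i _ => sum_congr rfl fun j _ => by ring
  rw [e, e, h]
  simp only [mul_comm (u _)]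

lemma lap_energy (v : V → R) :
    2 * ∑ i, v i * lap ω v i = ∑ i, ∑ j, adj R ω i j * (v i - v j) ^ 2 := by
  have h : ∑ i, v i * lap ω v i = ∑ i, ∑ j, adj R ω i j * (v j * (v j - v i)) := by
    rw [sum_comm]
    simp only [lap_apply, mul_sum]
    exact sum_congr rfl fun i _ => sum_congr rfl fun j _ => by rw [adj_comm]; ring
  rw [two_mul]
  nth_rewrite 1 [h]
  simp only [lap_apply, mul_sum, ← sum_add_distrib]
  exact sum_congr rfl fun i _ => sum_congr rfl fun j _ => by ring

end Ring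

/-- Functions vanishing on `Y` and harmonic off `Y`. -/
def KK (F : Type) [CommRing F] (ω : Sym2 V → Bool) (Y : Finset V) : Submodule F (V → F) where
  carrier := {v | (∀ y ∈ Y, v y = 0) ∧ ∀ i ∉ Y, lap ω v i = 0}
  add_mem' := fun {u v} hu hv => ⟨fun y hy => by simp [hu.1 y hy, hv.1 y hy],
    fun i hi => by simp [hu.2 i hi, hv.2 i hi]⟩
  zero_mem' := by simp
  smul_mem' := fun c v hv => ⟨fun y hy => by simp [hv.1 y hy], fun i hi => by simp [hv.2 i hi]⟩

lemma mem_KK {F : Type} [CommRing F] {ω : Sym2 V → Bool} {Y : Finset V} {v : V → F} :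
    v ∈ KK F ω Y ↔ (∀ y ∈ Y, v y = 0) ∧ ∀ i ∉ Y, lap ω v i = 0 := Iff.rfl

lemma KK_pair {F : Type} [CommRing F] {ω : Sym2 V → Bool} {Y : Finset V} {u v : V → F}
    (hu : ∀ y ∈ Y, u y = 0) (hv : ∀ i ∉ Y, lap ω v i = 0) : ∑ i, u i * lap ω v i = 0 :=
  sum_eq_zero fun i _ => by
    by_cases h : i ∈ Y
    · rw [hu i h, zero_mul]
    · rw [hv i h, mul_zero]

section Field
variable {F : Type} [Field F]

lemma finrank_le_inf_ker {M : Type} [AddCommGroup M] [Module F M] [FiniteDimensional F M]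
    (U : Submodule F M) (f : M →ₗ[F] F) :
    finrank F U ≤ finrank F (U ⊓ LinearMap.ker f : Submodule F M) + 1 := by
  have h1 := Submodule.finrank_sup_add_finrank_inf_eq U (LinearMap.ker f)
  have h2 := f.finrank_range_add_finrank_ker
  have h3 := (LinearMap.range f).finrank_le
  have h4 := (U ⊔ LinearMap.ker f).finrank_le
  rw [finrank_self] at h3
  omega

lemma finrank_inf_ker_lt {M : Type} [AddCommGroup M] [Module F M] [FiniteDimensional F M]
    {U : Submodule F M} {f : M →ₗ[F] F} {v : M} (hv : v ∈ U) (hf : f v ≠ 0) :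
    finrank F (U ⊓ LinearMap.ker f : Submodule F M) < finrank F U :=
  Submodule.finrank_lt_finrank_of_lt (lt_of_le_of_ne inf_le_left fun h => hf (h.ge hv).2)

variable [DecidableEq V] {ω : Sym2 V → Bool}

lemma KK_le_insert (Y : Finset V) (z : V) :
    finrank F (KK F ω Y) ≤ finrank F (KK F ω (insert z Y)) + 1 := by
  refine (finrank_le_inf_ker _ (LinearMap.proj z)).trans (Nat.succ_le_succ ?_)
  refine Submodule.finrank_mono fun v hv => ⟨fun y hy => ?_, fun i hi => hv.1.2 i ?_⟩
  · rcases mem_insert.1 hy with rfl | h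
    · exact hv.2
    · exact hv.1.1 y h
  · exact fun h => hi (mem_insert_of_mem h)

lemma KK_lt_insert {Y : Finset V} {z : V} (hz : z ∉ Y) {u : V → F} (hu : u ∈ KK F ω (insert z Y))
    (h : lap ω u z ≠ 0) : finrank F (KK F ω Y) < finrank F (KK F ω (insert z Y)) := by
  refine Submodule.finrank_lt_finrank_of_lt (lt_of_le_of_ne (fun v hv => ?_)
    fun e => h ((e.ge hu).2 z hz))
  have h1 := KK_pair (fun y hy => hu.1 y (mem_insert_of_mem hy)) hv.2
  rw [lap_symm, sum_eq_single z (fun i _ hi => by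
    by_cases hY : i ∈ Y
    · rw [hv.1 i hY, zero_mul]
    · rw [hu.2 i (by simp [hi, hY]), mul_zero]) (by simp)] at h1
  refine ⟨fun y hy => ?_, fun i hi => hv.2 i fun h => hi (mem_insert_of_mem h)⟩
  rcases mem_insert.1 hy with rfl | h2
  · exact (mul_eq_zero.1 h1).resolve_right h
  · exact hv.1 y h2

/-- Pivot coordinates of a subspace. -/
lemma pivot (A : Finset V) (r : ℕ) : ∀ K : Submodule F (V → F),
    (∀ v ∈ K, (∀ i ∈ A, v i = 0) → v = 0) → r ≤ finrank F K →
    ∃ Q ⊆ A, Q.card = r ∧ ∀ q ∈ Q, ∃ v ∈ K, ∀ q' ∈ Q, v q' = if q' = q then 1 else 0 := by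
  induction r with
  | zero => exact fun K _ _ => ⟨∅, by simp, rfl, by simp⟩
  | succ r ih =>
    intro K hK hr
    obtain ⟨u, hu, hu0⟩ : ∃ u ∈ K, u ≠ 0 := by
      by_contra h
      push Not at h
      rw [(Submodule.eq_bot_iff K).2 h, finrank_bot] at hr
      omega
    obtain ⟨i, hi, hi0⟩ : ∃ i ∈ A, u i ≠ 0 := by
      by_contra h
      push Not at h
      exact hu0 (hK u hu h)
    have := finrank_le_inf_ker K (LinearMap.proj i)
    obtain ⟨Q, hQ, hc, hv⟩ := ih (K ⊓ LinearMap.ker (LinearMap.proj i))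
      (fun v hv => hK v hv.1) (by omega)
    choose! v hv1 hv2 using hv
    have hv0 : ∀ q ∈ Q, v q i = 0 := fun q hq => (hv1 q hq).2
    have hiQ : i ∉ Q := fun h => by simpa [hv0 i h] using hv2 i h i h
    refine ⟨insert i Q, insert_subset hi hQ, by rw [card_insert_of_notMem hiQ, hc], ?_⟩
    intro q hq0
    rcases mem_insert.1 hq0 with rfl | hq
    · refine ⟨(u q)⁻¹ • (u - ∑ j ∈ Q, u j • v j), K.smul_mem _ (K.sub_mem hu
        (K.sum_mem fun j hj => K.smul_mem _ (hv1 j hj).1)), fun q' hq' => ?_⟩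
      simp only [Pi.smul_apply, Pi.sub_apply, Finset.sum_apply, smul_eq_mul]
      rcases mem_insert.1 hq' with rfl | h
      · rw [sum_eq_zero fun j hj => by rw [hv0 j hj, mul_zero]]
        simp [hi0]
      · rw [if_neg fun e : q' = q => hiQ (e ▸ h),
          sum_congr rfl fun j hj => by rw [hv2 j hj q' h]]
        simp [h]
    · refine ⟨v q, (hv1 q hq).1, fun q' hq' => ?_⟩
      rcases mem_insert.1 hq' with rfl | h
      · rw [if_neg fun e : q' = q => hiQ (by rw [e]; exact hq), hv0 q hq]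
      · exact hv2 q hq q' h

end Field

section Det
variable [DecidableEq V]

lemma pow_dvd_det (l : ℕ) [Fact l.Prime] (M : Matrix V V ℤ) (K : Submodule (ZMod l) (V → ZMod l))
    (hK : ∀ v ∈ K, (M.map (Int.cast : ℤ → ZMod l)).mulVec v = 0) :
    (l : ℤ) ^ finrank (ZMod l) K ∣ M.det := by
  obtain ⟨Q, -, hc, hv⟩ := pivot univ _ K (fun v _ h => funext fun i => h i (mem_univ i)) le_rfl
  choose! v hv1 hv2 using hv
  let P : Matrix V V ℤ := fun i j => if j ∈ Q then (v j i).val else if i = j then 1 else 0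
  have hP : ∀ i j, (P i j : ZMod l) = if j ∈ Q then v j i else if i = j then 1 else 0 := by
    intro i j; simp only [P]; split_ifs <;> simp
  have h1 : ¬ (l : ℤ) ∣ P.det := by
    rw [← ZMod.intCast_zmod_eq_zero_iff_dvd, Int.cast_det, ← Matrix.exists_mulVec_eq_zero_iff]
    rintro ⟨x, hx, h⟩
    have h2 : ∀ i, ∑ j, (if j ∈ Q then v j i else if i = j then 1 else 0) * x j = 0 := fun i => by
      simpa [Matrix.mulVec, dotProduct, hP] using congrFun h i
    have h3 : ∀ q ∈ Q, x q = 0 := fun q hq => by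
      have := h2 q
      rwa [sum_eq_single q (fun j _ hj => by
        by_cases hjQ : j ∈ Q
        · simp [hjQ, hv2 j hjQ q hq, hj.symm]
        · simp [hjQ, hj.symm]) (by simp), if_pos hq, hv2 q hq q hq, if_pos rfl, one_mul] at this
    refine hx (funext fun i => ?_)
    by_cases hi : i ∈ Q
    · exact h3 i hi
    · have := h2 i
      rwa [sum_eq_single i (fun j _ hj => by
        by_cases hjQ : j ∈ Q
        · simp [h3 j hjQ]
        · simp [hjQ, hj.symm]) (by simp), if_neg hi, if_pos rfl, one_mul] at this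
  have h2 : ∀ i j, (if j ∈ Q then (l : ℤ) else 1) ∣ (M * P) i j := by
    intro i j
    split_ifs with hj
    · rw [← ZMod.intCast_zmod_eq_zero_iff_dvd]
      simpa [Matrix.mul_apply, Matrix.mulVec, dotProduct, hP, hj] using
        congrFun (hK _ (hv1 j hj)) i
    · exact one_dvd _
  choose N hN using h2
  have h3 : M.det * P.det = (l : ℤ) ^ finrank (ZMod l) K * (Matrix.of N).det := by
    rw [← Matrix.det_mul, ← hc, show M * P = Matrix.of fun i j =>
      (if j ∈ Q then (l : ℤ) else 1) * Matrix.of N i j from Matrix.ext hN, Matrix.det_mul_row]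
    simp
  exact ((Nat.prime_iff_prime_int.1 Fact.out).coprime_iff_not_dvd.2 h1).pow_left.dvd_of_dvd_mul_right
    ⟨_, h3⟩

lemma det_abs_le {κ : Type} [Fintype κ] [DecidableEq κ] (M : Matrix κ κ ℤ) {H n : ℕ} (h1 : 1 ≤ H)
    (hn : Fintype.card κ ≤ n) (h : ∀ i j, |M i j| ≤ H) : M.det.natAbs ≤ (n * H) ^ n := by
  have := Matrix.det_le (abv := AbsoluteValue.abs) h
  simp only [AbsoluteValue.abs_apply, nsmul_eq_mul] at this
  have h2 : M.det.natAbs ≤ (Fintype.card κ).factorial * H ^ Fintype.card κ := by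
    zify; exact this
  rw [mul_pow]
  exact h2.trans (Nat.mul_le_mul ((Nat.factorial_le hn).trans n.factorial_le_pow)
    (Nat.pow_le_pow_right h1 hn))

lemma card_primes_le {N b k : ℕ} (hN : N ≠ 0) (hb : 2 ≤ b) (h : N ≤ b ^ k) (s : Finset ℕ)
    (hs : ∀ l ∈ s, l.Prime ∧ b ≤ l ∧ l ∣ N) : s.card ≤ k := by
  have h1 : ∏ l ∈ s, l ∣ N := (prod_dvd_prod_of_subset _ _ _ fun l hl =>
    Nat.mem_primeFactors.2 ⟨(hs l hl).1, (hs l hl).2.2, hN⟩).trans N.prod_primeFactors_dvd
  have h2 := pow_card_le_prod s id b fun l hl => (hs l hl).2.1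
  exact (Nat.pow_le_pow_iff_right hb).1
    (h2.trans ((Nat.le_of_dvd (Nat.pos_of_ne_zero hN) h1).trans h))

/-- Rows of the Laplacian. -/
def lrow (ω : Sym2 V → Bool) (i j : V) : ℤ :=
  (if i = j then ∑ k ∈ univ.erase i, adj ℤ ω i k else 0) - if i = j then 0 else adj ℤ ω i j

lemma lrow_dot {R : Type} [CommRing R] (ω : Sym2 V → Bool) (i : V) (v : V → R) :
    ∑ j, (lrow ω i j : R) * v j = lap ω v i := by
  have e : ∀ i j, ((adj ℤ ω i j : ℤ) : R) = adj R ω i j := adj_map (Int.castRingHom R) ω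
  rw [lap_apply, ← add_sum_erase _ _ (mem_univ i), ← add_sum_erase _ _ (mem_univ i),
    sum_congr rfl fun j (hj : j ∈ univ.erase i) =>
      show (lrow ω i j : R) * v j = - (adj R ω i j * v j) by simp [lrow, (ne_of_mem_erase hj).symm, e]]
  simp only [lrow, if_true, sub_zero, Int.cast_sum, e, sub_self, mul_zero, zero_add, mul_sub,
    sum_sub_distrib, sum_neg_distrib, sum_mul]
  ring

lemma lrow_le (ω : Sym2 V → Bool) (i j : V) : |lrow ω i j| ≤ Fintype.card V := by
  have h1 : ∀ k, |adj ℤ ω i k| ≤ 1 := fun k => by unfold adj; split_ifs <;> simp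
  have h2 : 1 ≤ Fintype.card V := Fintype.card_pos_iff.2 ⟨i⟩
  unfold lrow
  split_ifs with h
  · rw [sub_zero]
    refine (abs_sum_le_sum_abs _ _).trans ((sum_le_card_nsmul _ _ _ fun k _ => h1 k).trans ?_)
    simp
  · rw [zero_sub, abs_neg]
    exact (h1 j).trans (by exact_mod_cast h2)

/-- The matrix whose kernel is `KK`. -/
def MY (ω : Sym2 V → Bool) (Y : Finset V) : Matrix V V ℤ :=
  fun i j => if i ∈ Y then (if i = j then 1 else 0) else if j ∈ Y then 0 else lrow ω i j

lemma MY_mulVec {R : Type} [CommRing R] (ω : Sym2 V → Bool) (Y : Finset V) (v : V → R) :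
    ((MY ω Y).map (Int.cast : ℤ → R)).mulVec v = 0 ↔ v ∈ KK R ω Y := by
  have h1 : ∀ i ∈ Y, ((MY ω Y).map (Int.cast : ℤ → R)).mulVec v i = v i := fun i hi => by
    simp [Matrix.mulVec, dotProduct, MY, hi]
  have h2 : (∀ y ∈ Y, v y = 0) → ∀ i ∉ Y,
      ((MY ω Y).map (Int.cast : ℤ → R)).mulVec v i = lap ω v i := fun h i hi => by
    rw [← lrow_dot]
    refine sum_congr rfl fun j _ => ?_
    by_cases hj : j ∈ Y <;> simp [MY, hi, hj, h]
  constructor
  · intro h
    have h3 : ∀ y ∈ Y, v y = 0 := fun y hy => by rw [← h1 y hy, h]; rfl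
    exact ⟨h3, fun i hi => by rw [← h2 h3 i hi, h]; rfl⟩
  · intro h
    funext i
    by_cases hi : i ∈ Y
    · rw [h1 i hi]; exact h.1 i hi
    · rw [h2 h.1 i hi]; exact h.2 i hi

lemma MY_det_le (ω : Sym2 V → Bool) (Y : Finset V) (hV : 1 ≤ Fintype.card V) :
    (MY ω Y).det.natAbs ≤ Fintype.card V ^ (2 * Fintype.card V) := by
  rw [pow_mul, sq]
  refine det_abs_le _ hV le_rfl fun i j => ?_
  unfold MY
  split_ifs
  · simpa using hV
  · simp
  · simp
  · exact lrow_le _ _ _

/-- Any two vertices have a common neighbour. -/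
def Conn (ω : Sym2 V → Bool) : Prop := ∀ i j, i ≠ j → ∃ k, ω s(k, i) = true ∧ ω s(k, j) = true

omit [DecidableEq V] in
lemma KK_eq_zero {R : Type} [CommRing R] [LinearOrder R] [IsStrictOrderedRing R]
    {ω : Sym2 V → Bool} (hc : Conn ω) {Y : Finset V} (hY : Y.Nonempty) {v : V → R}
    (hv : v ∈ KK R ω Y) : v = 0 := by
  have h1 := lap_energy (ω := ω) v
  have h0 : ∀ i j, 0 ≤ adj R ω i j * (v i - v j) ^ 2 := fun i j =>
    mul_nonneg (by unfold adj; split_ifs <;> simp) (sq_nonneg _)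
  rw [KK_pair hv.1 hv.2, mul_zero, eq_comm,
    sum_eq_zero_iff_of_nonneg fun i _ => sum_nonneg fun j _ => h0 i j] at h1
  have h2 : ∀ i j, ω s(i, j) = true → v i = v j := fun i j h => by
    have := (sum_eq_zero_iff_of_nonneg fun j _ => h0 i j).1 (h1 i (mem_univ _)) j (mem_univ _)
    simpa [adj, h, sub_eq_zero] using this
  obtain ⟨y, hy⟩ := hY
  funext i
  by_cases h : i = y
  · rw [h]; exact hv.1 y hy
  · obtain ⟨k, h3, h4⟩ := hc i y h
    rw [← h2 _ _ h3, h2 _ _ h4]; exact hv.1 y hy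

lemma MY_det_ne {ω : Sym2 V → Bool} (hc : Conn ω) {Y : Finset V} (hY : Y.Nonempty) :
    (MY ω Y).det ≠ 0 := by
  rw [Ne, ← Matrix.exists_mulVec_eq_zero_iff]
  rintro ⟨v, h0, hv⟩
  exact h0 (KK_eq_zero hc hY ((MY_mulVec ω Y v).1 hv))

lemma KK_pow_dvd (l : ℕ) [Fact l.Prime] (ω : Sym2 V → Bool) (Y : Finset V) :
    l ^ finrank (ZMod l) (KK (ZMod l) ω Y) ∣ (MY ω Y).det.natAbs := by
  rw [← Int.natCast_dvd, Nat.cast_pow]
  exact pow_dvd_det l _ _ fun v hv => (MY_mulVec ω Y v).2 hv

omit [DecidableEq V] in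
/-- Lifting kernel vectors from characteristic `l` to characteristic zero. -/
lemma lift_ker (L : Finset (V → ℤ)) {H : ℕ} (h1 : 1 ≤ H) (hV : 1 ≤ Fintype.card V)
    (hH : ∀ f ∈ L, ∀ j, |f j| ≤ H) :
    ∃ D : ℤ, D ≠ 0 ∧ D.natAbs ≤ (Fintype.card V * (Fintype.card V * H ^ 2)) ^ Fintype.card V ∧
      ∀ u : V → ℤ, ∃ v : V → ℤ, (∀ f ∈ L, ∑ j, f j * v j = 0) ∧
        ∀ l : ℤ, (∀ f ∈ L, l ∣ ∑ j, f j * u j) → ∀ j, l ∣ v j - D * u j := by
  classical
  obtain ⟨s, hs, hmax⟩ := exists_maximal_linearIndepOn ℤ (fun f : L => (f : V → ℤ))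
  let A : Matrix s V ℤ := fun a j => (a : V → ℤ) j
  have hD : (A * A.transpose).det ≠ 0 := by
    rw [Ne, ← Matrix.exists_vecMul_eq_zero_iff]
    rintro ⟨x, hx, h⟩
    have h2 : Matrix.vecMul x A ⬝ᵥ Matrix.vecMul x A = 0 := by
      rw [← Matrix.vecMul_vecMul] at h
      nth_rewrite 2 [← Matrix.mulVec_transpose]
      rw [Matrix.dotProduct_mulVec, h, zero_dotProduct]
    rw [dotProduct_self_eq_zero] at h2
    refine hx (funext (Fintype.linearIndependent_iff.1 hs x (funext fun j => ?_)))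
    simpa [Matrix.vecMul, dotProduct, A] using congrFun h2 j
  refine ⟨_, hD, det_abs_le _ (Nat.mul_pos hV (by positivity)) ?_ fun a b => ?_, fun u => ?_⟩
  · simpa using hs.fintype_card_le_finrank
  · rw [Matrix.mul_apply]
    refine (abs_sum_le_sum_abs _ _).trans ((sum_le_card_nsmul _ _ ((H : ℤ) ^ 2)
      fun j _ => ?_).trans_eq (by simp))
    rw [abs_mul, sq]
    exact mul_le_mul (hH _ a.1.2 j) (hH _ b.1.2 j) (abs_nonneg _) (by positivity)
  · let v := (A * A.transpose).det • u -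
      A.transpose.mulVec ((A * A.transpose).adjugate.mulVec (A.mulVec u))
    have hv : A.mulVec v = 0 := by
      simp only [v, Matrix.mulVec_sub, Matrix.mulVec_smul]
      rw [Matrix.mulVec_mulVec, Matrix.mulVec_mulVec, Matrix.mul_adjugate, Matrix.smul_mulVec,
        Matrix.one_mulVec, sub_self]
    have hv2 : ∀ a : L, a ∈ s → ∑ j, (a : V → ℤ) j * v j = 0 := fun a ha => congrFun hv ⟨a, ha⟩
    refine ⟨v, fun f hf => ?_, fun l hl j => ?_⟩
    · by_cases h : (⟨f, hf⟩ : L) ∈ s
      · exact hv2 _ h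
      · obtain ⟨a, ha, h2⟩ := hmax _ h
        have h3 : ∀ g ∈ Submodule.span ℤ ((fun f : L => (f : V → ℤ)) '' s), ∑ j, g j * v j = 0 := by
          intro g hg
          induction hg using Submodule.span_induction with
          | mem x hx => obtain ⟨b, hb, rfl⟩ := hx; exact hv2 b hb
          | zero => simp
          | add x y _ _ hx hy => simp [add_mul, sum_add_distrib, hx, hy]
          | smul a x _ hx => simp [mul_assoc, ← mul_sum, hx]
        have h4 := h3 _ h2
        simp only [Pi.smul_apply, smul_eq_mul, mul_assoc, ← mul_sum] at h4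
        exact (mul_eq_zero.1 h4).resolve_left ha
    · simp only [v, Pi.sub_apply, Pi.smul_apply, smul_eq_mul, sub_sub_cancel_left, dvd_neg]
      refine dvd_sum fun a _ => Dvd.dvd.mul_left (dvd_sum fun b _ => Dvd.dvd.mul_left ?_ _) _
      exact hl _ b.1.2

end Det

end Pool.Agent.Work.MP_c383cf_pr
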