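import Pool.Agent.Work.MP_c383cf_pr.Prob
import Pool.Agent.Work.MP_c383cf_pr.Lin
import Mathlib.Data.Nat.Prime.Infinite

namespace Pool.Agent.Work.MP_c383cf_pr

open Finset Module

variable {ι α : Type} [Fintype ι] [DecidableEq ι] [Fintype α] {w : α → ℝ}

lemma adaptive {σ : Type} (h : IsW w) (Ev : σ → Finset ι → (ι → α) → Prop) (d : σ → ℕ)
    (P : σ → Prop) {β y B : ℝ} (hβ : 0 ≤ β) (hy : 1 ≤ y) (hB : 1 ≤ B)
    (step : ∀ s, P s → (∀ T, Pr (pw w) (Ev s T) ≤ B * (β + 1 / y) ^ T.card) ∨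
      ∀ i, ∃ (bad : α → Prop) (next : α → σ), Pr w bad ≤ β ∧ (∀ x, P (next x)) ∧
        (∀ x, ¬ bad x → d (next x) < d s) ∧ ∀ T, i ∉ T → ∀ ω x,
          Ev s (insert i T) (Function.update ω i x) → Ev s T ω ∧ Ev (next x) T ω) (T : Finset ι) :
    ∀ s, P s → Pr (pw w) (Ev s T) ≤ B * (β + 1 / y) ^ T.card * y ^ d s := by
  have hx : 0 ≤ β + 1 / y := by positivity
  induction T using Finset.induction_on with
  | empty =>
    intro s _
    refine (Pr_le_one h.pw _).trans ?_
    simpa using one_le_mul_of_one_le_of_one_le hB (one_le_pow₀ hy)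
  | insert i T hi ih =>
    intro s hs
    rcases step s hs with h1 | h1
    · exact (h1 _).trans (le_mul_of_one_le_right (by positivity) (one_le_pow₀ hy))
    obtain ⟨bad, next, b1, b2, b3, b4⟩ := h1 i
    rw [Pr, Ex_update h i, Ex_comm]
    calc _ ≤ Ex w fun x => B * (β + 1 / y) ^ T.card * y ^ d s * (ind (bad x) + 1 / y) := by
          refine Ex_mono h fun x => ?_
          by_cases hb : bad x
          · refine ((Pr_mono h.pw fun ω hω => (b4 T hi ω x hω).1).trans (ih s hs)).trans ?_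
            rw [ind_pos hb]
            exact le_mul_of_one_le_right (by positivity) (le_add_of_nonneg_right (by positivity))
          · refine ((Pr_mono h.pw fun ω hω => (b4 T hi ω x hω).2).trans (ih _ (b2 x))).trans ?_
            rw [ind_neg hb, zero_add, mul_assoc _ (y ^ d s), mul_one_div]
            gcongr
            rw [le_div_iff₀ (by positivity), ← pow_succ]
            exact pow_le_pow_right₀ hy (b3 x hb)
      _ ≤ _ := by
          rw [Ex_const_mul, Ex_add, Ex_const h, card_insert_of_notMem hi, pow_succ,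
            ← mul_assoc, mul_right_comm _ (β + 1 / y)]
          gcongr
          exact b1

lemma adaptive_field {F M : Type} [Field F] [AddCommGroup M] [Module F M] [FiniteDimensional F M]
    (h : IsW w) (f : ι → α → M →ₗ[F] F) (Good : M → Prop) {β y : ℝ} (hβ : 0 ≤ β) (hy : 1 ≤ y)
    (hf : ∀ v, Good v → ∀ i, Pr w (fun x => f i x v = 0) ≤ β) (T : Finset ι) (U : Submodule F M) :
    Pr (pw w) (fun ω => ∃ v ∈ U, Good v ∧ ∀ i ∈ T, f i (ω i) v = 0) ≤
      (β + 1 / y) ^ T.card * y ^ finrank F U := by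
  have := adaptive h (fun (U : Submodule F M) T ω => ∃ v ∈ U, Good v ∧ ∀ i ∈ T, f i (ω i) v = 0)
    (fun U => finrank F U) (fun _ => True) hβ hy le_rfl (fun U _ => ?_) T U trivial
  · simpa using this
  by_cases hU : ∃ v ∈ U, Good v
  · obtain ⟨v, hv, hg⟩ := hU
    refine Or.inr fun i => ⟨fun x => f i x v = 0, fun x => U ⊓ LinearMap.ker (f i x), hf v hg i,
      fun _ => trivial, fun x hx => finrank_inf_ker_lt hv hx, ?_⟩
    rintro T hi ω x ⟨u, hu, hug, h1⟩
    have h2 : ∀ j ∈ T, f j (ω j) u = 0 := fun j hj => by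
      have := h1 j (mem_insert_of_mem hj)
      rwa [Function.update_of_ne (ne_of_mem_of_not_mem hj hi)] at this
    have h3 := h1 i (mem_insert_self _ _)
    rw [Function.update_self] at h3
    exact ⟨⟨u, hu, hug, h2⟩, ⟨u, ⟨hu, h3⟩, hug, h2⟩⟩
  · refine Or.inl fun T => ?_
    rw [Pr_zero fun ω ⟨v, hv, hg, _⟩ => hU ⟨v, hv, hg⟩]
    positivity

variable {V : Type} [Fintype V] [DecidableEq V]

/-- The functional given by an integer vector. -/
def dotL (F : Type) [CommRing F] (f : V → ℤ) : (V → F) →ₗ[F] F where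
  toFun v := ∑ j, (f j : F) * v j
  map_add' u v := by simp only [Pi.add_apply, mul_add, sum_add_distrib]
  map_smul' c v := by
    simp only [Pi.smul_apply, smul_eq_mul, RingHom.id_apply, mul_sum]
    exact sum_congr rfl fun _ _ => by ring

omit [DecidableEq V] in
lemma dotL_apply (F : Type) [CommRing F] (f : V → ℤ) (v : V → F) :
    dotL F f v = ∑ j, (f j : F) * v j := rfl

omit [DecidableEq V] in
lemma dotL_cast (F : Type) [CommRing F] (f v : V → ℤ) :
    dotL F f (fun j => (v j : F)) = ((∑ j, f j * v j : ℤ) : F) := by simp [dotL_apply]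

/-- The common kernel of a set of integer functionals. -/
def kerL (F : Type) [CommRing F] (L : Finset (V → ℤ)) : Submodule F (V → F) :=
  ⨅ f ∈ L, LinearMap.ker (dotL F f)

omit [DecidableEq V] in
lemma mem_kerL {F : Type} [CommRing F] {L : Finset (V → ℤ)} {v : V → F} :
    v ∈ kerL F L ↔ ∀ f ∈ L, dotL F f v = 0 := by simp [kerL]

omit [DecidableEq V] in
theorem adaptive_multi (h : IsW w) (hV : 1 ≤ Fintype.card V) (f : ι → α → V → ℤ)
    (hf : ∀ i x j, |f i x j| ≤ Fintype.card V) (Good : (V → V → Prop) → Prop)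
    (anti : ∀ R R' : V → V → Prop, (∀ i j, R' i j → R i j) → Good R → Good R')
    (P : ℕ → Prop) (hP : ∀ N, ∃ l, l.Prime ∧ N < l ∧ P l) {β y : ℝ} (hβ : 0 ≤ β) (hy : 1 ≤ y)
    (hb : ∀ l : ℕ, l.Prime → P l → ∀ v : V → ZMod l, Good (fun i j => v i = v j) →
      ∀ i, Pr w (fun x => dotL _ (f i x) v = 0) ≤ β)
    (L₀ : Finset (V → ℤ)) (hL : ∀ g ∈ L₀, ∀ j, |g j| ≤ Fintype.card V) {r : ℕ}
    (hr : ∀ l : ℕ, l.Prime → P l → finrank (ZMod l) (kerL (ZMod l) L₀) ≤ r)
    (hQ : finrank ℚ (kerL ℚ L₀) ≤ r) :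
    Pr (pw w) (fun b => ∃ l : ℕ, l.Prime ∧ P l ∧ ∃ v ∈ kerL (ZMod l) L₀,
      Good (fun i j => v i = v j) ∧ ∀ i, dotL _ (f i (b i)) v = 0) ≤
      4 * Fintype.card V ^ 2 * (β + 1 / y) ^ Fintype.card ι * y ^ (2 * r) := by
  classical
  set n := Fintype.card V
  have hn : (1 : ℝ) ≤ n := by exact_mod_cast hV
  have := adaptive h (fun (L : Finset (V → ℤ)) T b => ∃ l : ℕ, l.Prime ∧ P l ∧
      ∃ v ∈ kerL (ZMod l) L, Good (fun i j => v i = v j) ∧ ∀ i ∈ T, dotL _ (f i (b i)) v = 0)
    (fun L => finrank ℚ (kerL ℚ L)) (fun L => L₀ ⊆ L ∧ ∀ g ∈ L, ∀ j, |g j| ≤ n) hβ hy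
    (B := 4 * n ^ 2 * y ^ r) (one_le_mul_of_one_le_of_one_le (by nlinarith) (one_le_pow₀ hy))
    (fun L ⟨hL1, hL2⟩ => ?_) univ L₀ ⟨subset_rfl, hL⟩
  · simp only [mem_univ, forall_true_left, card_univ] at this
    refine this.trans ?_
    rw [two_mul r, pow_add, mul_right_comm _ (y ^ r), ← mul_assoc]
    gcongr
  by_cases hU : ∃ v : V → ℤ, (∀ g ∈ L, ∑ j, g j * v j = 0) ∧ Good (fun i j => v i = v j)
  · obtain ⟨v, hv, hg⟩ := hU
    refine Or.inr fun i => ⟨fun x => ∑ j, f i x j * v j = 0, fun x => insert (f i x) L, ?_,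
      fun x => ⟨hL1.trans (subset_insert _ _), fun g hg => ?_⟩, fun x hx => ?_, ?_⟩
    · obtain ⟨l, l1, l2, l3⟩ := hP (univ.sup fun q : V × V => (v q.1 - v q.2).natAbs)
      refine le_trans (Pr_mono h fun x hx => ?_) (hb l l1 l3 (fun j => v j) (anti _ _ ?_ hg) i)
      · rw [dotL_cast, hx, Int.cast_zero]
      · intro a b hab
        rw [ZMod.intCast_eq_intCast_iff_dvd_sub] at hab
        have h1 : (v b - v a).natAbs < l :=
          (le_sup (f := fun q : V × V => (v q.1 - v q.2).natAbs) (mem_univ (b, a))).trans_lt l2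
        have := Int.eq_zero_of_dvd_of_natAbs_lt_natAbs hab (by simpa using h1)
        omega
    · rcases mem_insert.1 hg with rfl | hg
      · exact hf i x
      · exact hL2 g hg
    · have : kerL ℚ (insert (f i x) L) = kerL ℚ L ⊓ LinearMap.ker (dotL ℚ (f i x)) := by
        ext u; simp [mem_kerL, and_comm]
      rw [this]
      refine finrank_inf_ker_lt (v := fun j => v j) (mem_kerL.2 fun g hg => ?_) ?_
      · rw [dotL_cast, hv g hg, Int.cast_zero]
      · rw [dotL_cast]; exact_mod_cast hx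
    · rintro T hi ω x ⟨l, l1, l2, u, hu, hug, h1⟩
      have h2 : ∀ j ∈ T, dotL _ (f j (ω j)) u = 0 := fun j hj => by
        have := h1 j (mem_insert_of_mem hj)
        rwa [Function.update_of_ne (ne_of_mem_of_not_mem hj hi)] at this
      have h3 := h1 i (mem_insert_self _ _)
      rw [Function.update_self] at h3
      refine ⟨⟨l, l1, l2, u, hu, hug, h2⟩, ⟨l, l1, l2, u, mem_kerL.2 fun g hg => ?_, hug, h2⟩⟩
      rcases mem_insert.1 hg with rfl | hg
      · exact h3
      · exact mem_kerL.1 hu g hg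
  · refine Or.inl fun T => ?_
    obtain ⟨D, D0, D1, D2⟩ := lift_ker L hV hV hL2
    have hc : (D.natAbs.primeFactors.filter P).card ≤ 4 * n ^ 2 := by
      refine card_primes_le (Int.natAbs_ne_zero.2 D0) le_rfl (D1.trans ?_) _ fun l hl => ?_
      · calc (n * (n * n ^ 2)) ^ n = n ^ (4 * n) := by rw [pow_mul]; congr 1; ring
          _ ≤ (2 ^ n) ^ (4 * n) := Nat.pow_le_pow_left Nat.lt_two_pow_self.le _
          _ = _ := by rw [← pow_mul]; congr 1; ring
      · have := Nat.mem_primeFactors.1 (mem_filter.1 hl).1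
        exact ⟨this.1, this.1.two_le, this.2.1⟩
    refine (Pr_union_le h.pw (D.natAbs.primeFactors.filter P) (fun l b => ∃ v ∈ kerL (ZMod l) L,
      Good (fun i j => v i = v j) ∧ ∀ i ∈ T, dotL _ (f i (b i)) v = 0) ?_
      (c := (β + 1 / y) ^ T.card * y ^ r) fun l hl => ?_).trans ?_
    · rintro b ⟨l, l1, l2, v, hv, hg, h1⟩
      refine ⟨l, mem_filter.2 ⟨Nat.mem_primeFactors.2 ⟨l1, ?_, Int.natAbs_ne_zero.2 D0⟩, l2⟩,
        v, hv, hg, h1⟩
      by_contra hd
      have := Fact.mk l1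
      rw [← Int.natCast_dvd, ← ZMod.intCast_zmod_eq_zero_iff_dvd] at hd
      obtain ⟨u, u1, u2⟩ := D2 fun j => (v j).cast
      refine hU ⟨u, u1, anti _ _ (fun a b hab => ?_) hg⟩
      have h2 : ∀ j, (u j : ZMod l) = D * v j := fun j => by
        have := u2 l (fun g hg => by
          rw [← ZMod.intCast_zmod_eq_zero_iff_dvd, ← dotL_cast]
          simpa using mem_kerL.1 hv g hg) j
        rw [← ZMod.intCast_zmod_eq_zero_iff_dvd] at this
        simpa [sub_eq_zero] using this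
      exact mul_left_cancel₀ hd (by rw [← h2, ← h2, hab])
    · have h1 := mem_filter.1 hl
      have l1 := Nat.prime_of_mem_primeFactors h1.1
      have := Fact.mk l1
      refine (adaptive_field h (fun i x => dotL (ZMod l) (f i x)) _ hβ hy
        (hb l l1 h1.2) T _).trans ?_
      gcongr
      exact (Submodule.finrank_mono fun v hv => mem_kerL.2 fun g hg =>
        mem_kerL.1 hv g (hL1 hg)).trans (hr l l1 h1.2)
    · rw [mul_right_comm _ (y ^ r), ← mul_assoc]
      gcongr
      exact_mod_cast hc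

end Pool.Agent.Work.MP_c383cf_pr
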