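import Pool.Agent.Work.MP_c383cf_pr.Swap

namespace Pool.Agent.Work.MP_c383cf_pr

open Finset Module

variable {V : Type} [Fintype V] [DecidableEq V] {p : ℝ}

omit [DecidableEq V] in
lemma one_le_dimK {l : ℕ} (hl : l.Prime) {ω : Sym2 V → Bool} {Y : Finset V} :
    1 ≤ dimK l ω Y ↔ ∃ v ∈ KK (ZMod l) ω Y, v ≠ 0 := by
  have := Fact.mk hl
  rw [dimK, Nat.one_le_iff_ne_zero, Ne, Submodule.finrank_eq_zero, Submodule.eq_bot_iff]
  simp

lemma dimK_step {l : ℕ} (hl : l.Prime) (ω : Sym2 V → Bool) {Y : Finset V} {z : V} (hz : z ∉ Y) :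
    dimK l ω Y < dimK l ω (insert z Y) ∨ (dimK l ω Y ≤ dimK l ω (insert z Y) + 1 ∧
      ∀ v ∈ KK (ZMod l) ω (insert z Y), lap ω v z = 0) := by
  have := Fact.mk hl
  by_cases h : ∀ v ∈ KK (ZMod l) ω (insert z Y), lap ω v z = 0
  · exact Or.inr ⟨KK_le_insert Y z, h⟩
  · push Not at h
    obtain ⟨v, hv, h⟩ := h
    exact Or.inl (KK_lt_insert hz hv h)

lemma min_le_geom (τ : ℝ) (i : ℕ) :
    min (τ ^ 8) ((1 / 2) ^ i) ≤ τ ^ 6 * (17 / 20) ^ i := by
  rcases le_total (τ ^ 2) ((17 / 20) ^ i) with h | h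
  · refine (min_le_left _ _).trans ?_
    rw [show τ ^ 8 = τ ^ 6 * τ ^ 2 by ring]
    gcongr
  · refine (min_le_right _ _).trans ?_
    calc (1 / 2 : ℝ) ^ i ≤ ((17 / 20) ^ 4) ^ i := by gcongr; norm_num
      _ = ((17 / 20) ^ i) ^ 3 * (17 / 20) ^ i := by rw [← pow_mul, ← pow_succ, ← pow_mul, mul_comm]
      _ ≤ (τ ^ 2) ^ 3 * (17 / 20) ^ i := by gcongr
      _ = _ := by ring

section
variable (hw : IsW (bw p)) {C τ : ℝ} (hC : Hal (1 / 2) C) (hC0 : 0 ≤ C) (hτ : 0 ≤ τ) {u h K : ℕ}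
  (hu : 1 ≤ u) (hn : 6 * u ≤ Fintype.card V)
include hw hC hC0 hτ hu hn

omit hτ in
lemma chain {P : Finset ℕ} (hP : ∀ l ∈ P, l.Prime ∧ K < l ∧ Rho V C u h l (τ ^ 8)) {m : ℕ}
    (hm : m ≤ 5 * u) {N : ℝ} (hN0 : 0 ≤ N) (hN : ∀ Y : Finset V, 2 ≤ Y.card → Y.card ≤ m →
      ∑ l ∈ P, Pr (gw p) (fun ω => 1 ≤ dimK l ω Y ∧ (MY ω Y).det ≠ 0) ≤ N) (k : ℕ) :
    ∀ (r : ℕ) (Y : Finset V), 2 * u ≤ r + 2 + k → Y.Nonempty → Y.card + k ≤ m →
      ∑ l ∈ P, Pr (gw p) (fun ω => Good u h K ω ∧ r + 2 ≤ dimK l ω Y) ≤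
        7 * N * τ ^ 6 * (17 / 20) ^ r := by
  induction k with
  | zero =>
    intro r Y h1 h2 _
    refine (sum_eq_zero fun l hl => Pr_zero fun ω hω => ?_).trans_le (by positivity)
    have := hω.1.cor l (hP l hl).1 Y h2
    omega
  | succ k ih =>
    intro r Y h1 ⟨y, hy⟩ h3
    obtain ⟨z, hz⟩ : ∃ z, z ∉ Y := by
      by_contra hc
      push Not at hc
      rw [eq_univ_of_forall hc, card_univ] at h3
      omega
    have h4 := card_insert_of_notMem hz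
    have h5 := card_pos.2 ⟨y, hy⟩
    have h6 := ih (r + 1) (insert z Y) (by omega) (insert_nonempty _ _) (by omega)
    have h7 := hN (insert z Y) (by omega) (by omega)
    calc _ ≤ ∑ l ∈ P, (Pr (gw p) (fun ω => Good u h K ω ∧ r + 1 + 2 ≤ dimK l ω (insert z Y)) +
            τ ^ 6 * (17 / 20) ^ (r + 1) * Pr (gw p) fun ω => 1 ≤ dimK l ω (insert z Y) ∧
              (MY ω (insert z Y)).det ≠ 0) := by
          refine sum_le_sum fun l hl => ?_
          obtain ⟨l1, l2, l3⟩ := hP l hl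
          refine (Pr_or hw.pw (C := fun ω => Good u h K ω ∧ r + 1 ≤ dimK l ω (insert z Y) ∧
            ∀ v ∈ KK (ZMod l) ω (insert z Y), lap ω v z = 0) fun ω hω => ?_).trans
            (add_le_add le_rfl ((step_lin hw hC hC0 l1 l2 hu l3 (by omega) (mem_insert_self _ _)
              (mem_insert_of_mem hy) (ne_of_mem_of_not_mem hy hz).symm (by omega)).trans
              (mul_le_mul_of_nonneg_right (min_le_geom τ _) (Pr_nonneg hw.pw _))))
          rcases dimK_step l1 ω hz with h | h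
          · exact Or.inl ⟨hω.1, by omega⟩
          · exact Or.inr ⟨hω.1, by omega, h.2⟩
      _ ≤ 7 * N * τ ^ 6 * (17 / 20) ^ (r + 1) + τ ^ 6 * (17 / 20) ^ (r + 1) * N := by
          rw [sum_add_distrib, ← mul_sum]; gcongr
      _ = (34 / 5) * N * τ ^ 6 * (17 / 20) ^ r := by ring
      _ ≤ _ := by gcongr; norm_num

lemma pair_bound {l : ℕ} (hl : l.Prime) (hK : K < l) (hK2 : 2 ≤ K) (hρ : Rho V C u h l (τ ^ 8))
    (hτ1 : τ ≤ 1) {Y : Finset V} (hY : Y.card + 2 ≤ 3 * u) (hne : Y.Nonempty) {z y : V} (hz : z ∉ Y)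
    (hy : y ∉ Y) (hzy : z ≠ y) :
    Pr (gw p) (fun ω => 1 ≤ dimK l ω (insert z Y) ∧ 1 ≤ dimK l ω (insert y Y)) ≤
      Pr (gw p) (fun ω : Sym2 V → Bool => ¬ Good u h K ω) + 9 * τ ^ 6 := by
  have hz' : z ∉ insert y Y := by simp [hz, hzy]
  have c1 := card_insert_of_notMem hz'
  have c2 := card_insert_of_notMem hy
  have h1 := chain hw hC hC0 hu hn (P := {l}) (h := h) (K := K) (τ := τ) (by simp [hl, hK, hρ]) le_rfl
    zero_le_one
    (fun Y _ _ => by simpa using Pr_le_one hw.pw _) (2 * u) 0 (insert z (insert y Y)) (by omega)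
    (insert_nonempty _ _) (by omega)
  have h2 := step_quad hw hC hC0 hl hK hK2 hu hρ (by omega) hne hz hy hzy
  have h3 := step_lin hw hC hC0 hl hK hu hρ (Y := insert z (insert y Y)) (by omega)
    (mem_insert_self _ _) (by simp) hzy le_rfl
  have h4 := h3.trans ((mul_le_of_le_one_right (by positivity) (Pr_le_one hw.pw _)).trans
    (min_le_left _ _))
  rw [sum_singleton] at h1
  have h5 : τ ^ 8 ≤ τ ^ 6 := pow_le_pow_of_le_one hτ hτ1 (by norm_num)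
  refine (Pr_or hw.pw (C := fun ω => Good u h K ω ∧ 1 ≤ dimK l ω (insert z Y) ∧
    1 ≤ dimK l ω (insert y Y)) fun ω hω => by tauto).trans (add_le_add le_rfl ?_)
  refine (Pr_or hw.pw (C := fun ω => Good u h K ω ∧ 1 ≤ dimK l ω (insert y Y) ∧
    1 ≤ dimK l ω (insert z (insert y Y))) fun ω hω => ?_).trans ((add_le_add h2
      ((Pr_or hw.pw fun ω hω => ?_).trans (add_le_add h1 h4))).trans (by linarith))
  · rcases Nat.eq_zero_or_pos (dimK l ω (insert z (insert y Y))) with h | h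
    · exact Or.inl ⟨hω.1, h, hω.2⟩
    · exact Or.inr ⟨hω.1, hω.2.2, h⟩
  · rcases dimK_step hl ω hz' with h | h
    · exact Or.inl ⟨hω.1, by omega⟩
    · exact Or.inr ⟨hω.1, hω.2.2, h.2⟩

end

lemma relabel {l : ℕ} (hw : IsW (bw p)) (hl : l.Prime) {Y : Finset V} {x z : V} (hx : x ∉ Y)
    (hz : z ∉ Y) : Pr (gw p) (fun ω => 1 ≤ dimK l ω (insert x Y)) ≤
      Pr (gw p) (fun ω => 1 ≤ dimK l ω (insert z Y)) := by
  have inv : Function.Involutive (Sym2.map (Equiv.swap x z)) := fun e => by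
    rw [Sym2.map_map]; simp
  rw [Pr, Ex_perm inv.toPerm]
  refine Pr_mono hw.pw fun ω hω => ?_
  obtain ⟨v, hv, h0⟩ := (one_le_dimK hl).1 hω
  have h1 : ∀ i, Equiv.swap x z i ∈ insert x Y ↔ i ∈ insert z Y := fun i => by
    by_cases h1 : i = x
    · by_cases h2 : x = z <;> simp [h1, h2, hx, hz, eq_comm]
    by_cases h2 : i = z
    · simp [h2]
    simp [Equiv.swap_apply_of_ne_of_ne h1 h2, h1, h2]
  refine (one_le_dimK hl).2 ⟨v ∘ Equiv.swap x z, ⟨fun i hi => hv.1 _ ((h1 i).2 hi), fun i hi => ?_⟩,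
    fun h => h0 (funext fun i => by simpa using congrFun h (Equiv.swap x z i))⟩
  rw [← hv.2 _ fun h => hi ((h1 i).1 h), lap_apply, lap_apply, eq_comm,
    ← Equiv.sum_comp (Equiv.swap x z)]
  exact sum_congr rfl fun j _ => by simp [adj]

lemma exch (hw : IsW (bw p)) {l : ℕ} (hl : l.Prime) {Y : Finset V} {B : ℝ} (hB : 0 ≤ B)
    (h : ∀ z ∉ Y, ∀ y ∉ Y, z ≠ y →
      Pr (gw p) (fun ω => 1 ≤ dimK l ω (insert z Y) ∧ 1 ≤ dimK l ω (insert y Y)) ≤ B ^ 2)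
    {x : V} (hx : x ∉ Y) :
    Pr (gw p) (fun ω => 1 ≤ dimK l ω (insert x Y)) ≤ 1 / Yᶜ.card + B := by
  set q := Pr (gw p) (fun ω => 1 ≤ dimK l ω (insert x Y))
  have e : ∀ z ∈ Yᶜ, Pr (gw p) (fun ω => 1 ≤ dimK l ω (insert z Y)) = q := fun z hz =>
    le_antisymm (relabel hw hl (mem_compl.1 hz) hx) (relabel hw hl hx (mem_compl.1 hz))
  have h1 := Ex_sq hw.pw fun ω : Sym2 V → Bool => ∑ z ∈ Yᶜ, ind (1 ≤ dimK l ω (insert z Y))
  have h2 : ∑ z ∈ Yᶜ, Ex (gw p) (fun ω => ind (1 ≤ dimK l ω (insert z Y))) = Yᶜ.card * q :=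
    (sum_congr rfl e).trans (by rw [sum_const, nsmul_eq_mul])
  rw [Ex_sum, h2] at h1
  simp only [sq, sum_mul_sum, ← ind_and, Ex_sum] at h1
  have h3 : ∀ z ∈ Yᶜ, ∑ y ∈ Yᶜ, Ex (gw p) (fun ω =>
      ind (1 ≤ dimK l ω (insert z Y) ∧ 1 ≤ dimK l ω (insert y Y))) ≤ q + Yᶜ.card * B ^ 2 := by
    intro z hz
    rw [← add_sum_erase _ _ hz]
    refine add_le_add (le_of_eq ?_) ((sum_le_card_nsmul _ _ _ fun y hy => h z (mem_compl.1 hz) y
      (mem_compl.1 (mem_of_mem_erase hy)) (ne_of_mem_erase hy).symm).trans ?_)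
    · simp only [and_self]; exact e z hz
    · rw [nsmul_eq_mul]; gcongr; exact erase_subset _ _
  have h4 := h1.trans (sum_le_card_nsmul _ _ _ h3)
  rw [nsmul_eq_mul] at h4
  have hm : (0 : ℝ) < Yᶜ.card := by exact_mod_cast card_pos.2 ⟨x, mem_compl.2 hx⟩
  generalize (Yᶜ.card : ℝ) = m at *
  have h5 : m * (q * q) ≤ q + m * B ^ 2 := le_of_mul_le_mul_left (by linarith) hm
  by_contra hc
  push Not at hc
  have h6 : 1 + m * B < m * q := by
    have := mul_lt_mul_of_pos_left hc hm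
    rwa [mul_add, mul_one_div_cancel hm.ne'] at this
  have h7 : B < q := lt_of_le_of_lt (le_add_of_nonneg_left (by positivity)) hc
  have h8 : m * B * B ≤ m * B * q := by gcongr
  nlinarith

/-- A homomorphism to `ZMod l` kills the class of `x - y`. -/
def Kill (l : ℕ) (ω : Sym2 V → Bool) (x y : V) : Prop :=
  ∃ v ∈ KK (ZMod l) ω {y}, v ≠ 0 ∧ v x = 0

section
variable (hw : IsW (bw p)) {C τ : ℝ} (hC : Hal (1 / 2) C) (hC0 : 0 ≤ C) (hτ : 0 ≤ τ) (hτ1 : τ ≤ 1)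
  {u h K : ℕ} (hu : 3 ≤ u) (hn : 6 * u ≤ Fintype.card V) {x y : V} (hxy : x ≠ y)
include hw hC hC0 hτ hτ1 hu hn hxy

lemma kill_sum {P : Finset ℕ} (hP : ∀ l ∈ P, l.Prime ∧ K < l ∧ Rho V C u h l (τ ^ 8))
    {N : ℝ} (hN : ∀ Y : Finset V, 2 ≤ Y.card → Y.card ≤ 2 * u + 2 →
      ∑ l ∈ P, Pr (gw p) (fun ω => 1 ≤ dimK l ω Y ∧ (MY ω Y).det ≠ 0) ≤ N) :
    ∑ l ∈ P, Pr (gw p) (fun ω => Good u h K ω ∧ Kill l ω x y) ≤ 8 * N * τ ^ 6 := by
  have h0 := hN {x, y} (card_pair hxy).ge (by rw [card_pair hxy]; omega)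
  have hN0 := (sum_nonneg fun l _ => Pr_nonneg hw.pw _).trans h0
  have h1 := chain hw hC hC0 (by omega) hn hP (by omega) hN0 hN (2 * u) 0 {x, y} (by omega)
    (insert_nonempty _ _) (by rw [card_pair hxy]; omega)
  calc _ ≤ ∑ l ∈ P, (Pr (gw p) (fun ω => Good u h K ω ∧ 0 + 2 ≤ dimK l ω {x, y}) +
          τ ^ 6 * Pr (gw p) fun ω => 1 ≤ dimK l ω {x, y} ∧ (MY ω {x, y}).det ≠ 0) := by
        refine sum_le_sum fun l hl => ?_
        obtain ⟨l1, l2, l3⟩ := hP l hl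
        refine (Pr_or hw.pw (C := fun ω => Good u h K ω ∧ 1 ≤ dimK l ω {x, y} ∧
          ∀ v ∈ KK (ZMod l) ω {x, y}, lap ω v x = 0) ?_).trans
          (add_le_add le_rfl ((step_lin hw hC hC0 l1 l2 (by omega) l3
            (by rw [card_pair hxy]; omega) (by simp) (by simp) hxy le_rfl).trans
            (mul_le_mul_of_nonneg_right ((min_le_left _ _).trans
              (pow_le_pow_of_le_one hτ hτ1 (by norm_num))) (Pr_nonneg hw.pw _))))
        rintro ω ⟨g, v, v1, v2, v3⟩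
        rcases dimK_step l1 ω (Y := {y}) (z := x) (by simpa using hxy) with h | h
        · exact Or.inl ⟨g, lt_of_le_of_lt ((one_le_dimK l1).2 ⟨v, v1, v2⟩) h⟩
        · refine Or.inr ⟨g, (one_le_dimK l1).2 ⟨v, ⟨fun i hi => ?_, fun i hi => v1.2 i ?_⟩, v2⟩, h.2⟩
          · rcases mem_insert.1 hi with rfl | hi
            · exact v3
            · exact v1.1 i hi
          · exact fun h => hi (mem_insert_of_mem h)
    _ ≤ 7 * N * τ ^ 6 * (17 / 20) ^ 0 + τ ^ 6 * N := by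
        rw [sum_add_distrib, ← mul_sum]; gcongr
    _ = _ := by ring

lemma kill_medium {l : ℕ} (hl : l.Prime) (hK : K < l) (hK2 : 2 ≤ K) (hρ : Rho V C u h l (τ ^ 8))
    (hG : Pr (gw p) (fun ω : Sym2 V → Bool => ¬ Good u h K ω) ≤ 1 / (Fintype.card V : ℝ) ^ 2)
    (hτn : 1 / Fintype.card V ≤ τ ^ 3) :
    Pr (gw p) (fun ω => Good u h K ω ∧ Kill l ω x y) ≤ 48 * τ ^ 9 := by
  have := kill_sum hw hC hC0 hτ hτ1 hu hn hxy (P := {l}) (h := h) (K := K) (by simp [hl, hK, hρ])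
    (N := 6 * τ ^ 3)
    fun Y h1 h2 => ?_
  · rw [sum_singleton] at this
    exact this.trans_eq (by ring)
  rw [sum_singleton]
  obtain ⟨a, ha⟩ := card_pos.1 (by omega : 0 < Y.card)
  have h3 := card_erase_of_mem ha
  have h4 := exch hw hl (Y := Y.erase a) (B := 4 * τ ^ 3) (by positivity) (fun z hz y hy hzy =>
    (pair_bound hw hC hC0 hτ (by omega) hn hl hK hK2 hρ hτ1 (by omega) (card_pos.1 (by omega))
      hz hy hzy).trans ?_) (notMem_erase a Y)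
  · rw [insert_erase ha] at h4
    refine (Pr_mono hw.pw fun ω h => h.1).trans (h4.trans ?_)
    have h5 : (Fintype.card V : ℝ) ≤ 2 * (Y.erase a)ᶜ.card := by
      rw [card_compl]; exact_mod_cast (by omega)
    have h6 : (0 : ℝ) < Fintype.card V := by exact_mod_cast (by omega)
    have h7 : (1 : ℝ) / (Y.erase a)ᶜ.card ≤ 2 * (1 / Fintype.card V) := by
      rw [mul_one_div, div_le_div_iff₀ (by linarith) h6]; linarith
    linarith
  · have h5 := pow_le_pow_left₀ (by positivity) hτn 2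
    rw [div_pow, one_pow] at h5
    have := pow_nonneg hτ 6
    nlinarith

lemma kill_huge {P : Finset ℕ}
    (hP : ∀ l ∈ P, l.Prime ∧ K < l ∧ Rho V C u h l (τ ^ 8) ∧ Fintype.card V ≤ l) :
    ∑ l ∈ P, Pr (gw p) (fun ω => Good u h K ω ∧ Kill l ω x y) ≤ 16 * Fintype.card V * τ ^ 6 := by
  classical
  refine (kill_sum hw hC hC0 hτ hτ1 hu hn hxy (fun l hl => ⟨(hP l hl).1, (hP l hl).2.1,
    (hP l hl).2.2.1⟩) (N := 2 * Fintype.card V) fun Y _ _ => ?_).trans_eq (by ring)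
  simp only [Pr]
  rw [← Ex_sum]
  refine Ex_le hw.pw fun ω => ?_
  rw [sum_ind]
  by_cases h0 : (MY ω Y).det = 0
  · simp [h0]
  have := card_primes_le (Int.natAbs_ne_zero.2 h0) (by omega) (MY_det_le ω Y (by omega))
    (P.filter fun l => 1 ≤ dimK l ω Y ∧ (MY ω Y).det ≠ 0) fun l hl => by
      obtain ⟨h1, h2, -⟩ := mem_filter.1 hl
      have := Fact.mk (hP l h1).1
      exact ⟨(hP l h1).1, (hP l h1).2.2.2,
        (dvd_pow_self l (Nat.one_le_iff_ne_zero.1 h2)).trans (KK_pow_dvd l ω Y)⟩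
  exact_mod_cast this

end

end Pool.Agent.Work.MP_c383cf_pr
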