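import Pool.Agent.Work.MP_c383cf_pr.Typ
import Mathlib.Data.Nat.Squarefree
import Mathlib.Data.Nat.Totient
import Mathlib.FieldTheory.Finiteness

namespace Pool.Agent.Work.MP_c383cf_pr

open Finset Module

variable {V : Type} [Fintype V] [DecidableEq V] {p : ℝ}

omit [DecidableEq V] in
lemma triple_count {α β : Type} [DecidableEq β] (a : V → α) (b : V → β) {R : ℕ}
    (h : ∀ c, lv b c + R ≤ Fintype.card V) :
    (∑ i, ∑ j, ind (a i ≠ a j)) * R ≤
      3 * Fintype.card V * ∑ i, ∑ j, ind (a i ≠ a j ∧ b i ≠ b j) := by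
  have h1 : ∀ i, (R : ℝ) ≤ ∑ k, ind (b k ≠ b i) := fun i => by
    have h2 : ((lv b (b i) + R : ℕ) : ℝ) ≤ Fintype.card V := by exact_mod_cast h (b i)
    simp only [ind_not, sum_sub_distrib, sum_ind, sum_const, card_univ, nsmul_eq_mul, mul_one]
    push_cast at h2
    unfold lv at h2
    linarith
  have h2 : ∀ i j k, ind (a i ≠ a j) * ind (b k ≠ b i) ≤ ind (a i ≠ a j ∧ b i ≠ b j) +
      ind (a i ≠ a k ∧ b i ≠ b k) + ind (a j ≠ a k ∧ b j ≠ b k) := by
    intro i j k
    rw [← ind_and]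
    refine le_trans (ind_mono ?_) ((ind_or_le _ _).trans (add_le_add (ind_or_le _ _) le_rfl))
    grind
  calc _ = ∑ i, ∑ j, ind (a i ≠ a j) * R := by simp only [sum_mul]
    _ ≤ ∑ i, ∑ j, ∑ k, (ind (a i ≠ a j ∧ b i ≠ b j) +
        ind (a i ≠ a k ∧ b i ≠ b k) + ind (a j ≠ a k ∧ b j ≠ b k)) := by
        refine sum_le_sum fun i _ => sum_le_sum fun j _ => le_trans ?_
          (sum_le_sum fun k _ => h2 i j k)
        rw [← mul_sum]
        exact mul_le_mul_of_nonneg_left (h1 i) (ind_nonneg _)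
    _ = _ := by
        simp only [sum_add_distrib, sum_const, card_univ, nsmul_eq_mul, ← mul_sum]
        ring

section
variable {P : Finset ℕ} (hP : ∀ l ∈ P, l.Prime) {m : ℕ} [NeZero m] (hm : m = ∏ l ∈ P, l)
include hP hm

lemma cast_inj {x : ZMod m} (h : ∀ l ∈ P, (x.cast : ZMod l) = 0) : x = 0 := by
  rw [← ZMod.natCast_zmod_val x, ZMod.natCast_eq_zero_iff]
  nth_rewrite 1 [hm]
  exact prod_primes_dvd _ (fun l hl => (hP l hl).prime) fun l hl => by
    rw [← ZMod.natCast_eq_zero_iff, ZMod.natCast_val]; exact h l hl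

/-- Far from constant modulo each prime of `P`. -/
def Rb (P : Finset ℕ) (R : ℕ) {m : ℕ} (v : V → ZMod m) : Prop :=
  ∀ l ∈ P, ∀ c : ZMod l, lv (fun j => (v j).cast) c + R ≤ Fintype.card V

lemma edge_count (hV : 1 ≤ Fintype.card V) {R D : ℕ} (hD : 6 * m * D ≤ R) {v : V → ZMod m}
    (hv : Rb P R v) (ξ : V → ZMod m) : ∃ c, D * (univ.filter fun j => ξ j ≠ c).card ≤
      (univ.filter fun e : Sym2 V => ∑ q ∈ univ.filter fun q : V × V => s(q.1, q.2) = e,
        ξ q.1 * (v q.1 - v q.2) ≠ 0).card := by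
  set E := univ.filter fun e : Sym2 V => ∑ q ∈ univ.filter fun q : V × V => s(q.1, q.2) = e,
    ξ q.1 * (v q.1 - v q.2) ≠ 0
  have hd : ∀ l ∈ P, l ∣ m := fun l hl => hm ▸ dvd_prod_of_mem _ hl
  obtain ⟨i₀, -, h0⟩ := exists_min_image univ (fun i => (univ.filter fun j => ξ j ≠ ξ i).card)
    (card_pos.1 hV)
  refine ⟨ξ i₀, ?_⟩
  set d := (univ.filter fun j => ξ j ≠ ξ i₀).card
  have fib : ∀ a b : V, (univ.filter fun q : V × V => s(q.1, q.2) = s(a, b)) = {(a, b), (b, a)} := by
    intro a b; ext ⟨x, y⟩; simp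
  have h1 : ∀ l ∈ P, ∑ i, ∑ j, ind (((ξ i).cast : ZMod l) ≠ (ξ j).cast ∧
      ((v i).cast : ZMod l) ≠ (v j).cast) ≤ 2 * E.card := by
    intro l hl
    have := Fact.mk (hP l hl)
    rw [← Fintype.sum_prod_type', sum_ind]
    refine mod_cast card_le_mul_card_image_of_maps_to (f := fun q : V × V => s(q.1, q.2))
      (fun q hq => ?_) 2 fun e _ => ?_
    · obtain ⟨a, b⟩ := q
      obtain ⟨h2, h3⟩ := (mem_filter.1 hq).2
      have hab : a ≠ b := fun e => h2 (by rw [e])
      refine mem_filter.2 ⟨mem_univ _, fun h => ?_⟩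
      rw [fib, sum_pair (by simp [hab])] at h
      have h4 : (ξ a - ξ b) * (v a - v b) = 0 := by linear_combination h
      have h5 := congrArg (ZMod.castHom (hd l hl) (ZMod l)) h4
      simp only [map_mul, map_sub, map_zero, ZMod.castHom_apply, mul_eq_zero, sub_eq_zero] at h5
      tauto
    · induction e using Sym2.ind with
      | _ a b =>
        refine le_trans (card_le_card fun q hq => ?_) (card_le_two (a := (a, b)) (b := (b, a)))
        rw [← fib]
        exact mem_filter.2 ⟨mem_univ _, (mem_filter.1 hq).2⟩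
  have h2 : (Fintype.card V * d : ℝ) ≤
      ∑ l ∈ P, ∑ i, ∑ j, ind (((ξ i).cast : ZMod l) ≠ (ξ j).cast) := by
    rw [sum_comm, ← nsmul_eq_mul, ← card_univ]
    refine card_nsmul_le_sum _ _ _ fun i _ => ?_
    rw [sum_comm]
    refine le_trans (Nat.cast_le.2 (h0 i (mem_univ i))) ?_
    rw [← sum_ind]
    refine sum_le_sum fun j _ => le_trans (ind_mono fun h => ?_) (ind_exists_le _ _)
    by_contra hc
    push Not at hc
    exact h (sub_eq_zero.1 (cast_inj hP hm fun l hl => by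
      rw [ZMod.cast_sub (hd l hl), hc l hl, sub_self]))
  have h3 : (P.card : ℝ) ≤ m := by
    have := card_le_card (s := P) (t := Icc 1 m) fun l hl =>
      mem_Icc.2 ⟨(hP l hl).pos, Nat.le_of_dvd (NeZero.pos m) (hd l hl)⟩
    exact_mod_cast by simpa using this
  have h4 : (Fintype.card V * d : ℝ) * R ≤ m * (3 * Fintype.card V * (2 * E.card)) := by
    refine (mul_le_mul_of_nonneg_right h2 (by positivity)).trans ?_
    rw [sum_mul]
    refine (sum_le_card_nsmul _ _ _ fun l hl => (triple_count _ _ (hv l hl)).trans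
      (mul_le_mul_of_nonneg_left (h1 l hl) (by positivity))).trans ?_
    rw [nsmul_eq_mul]; gcongr
  have h5 : (0 : ℝ) < 6 * m * Fintype.card V := by
    have := NeZero.pos m
    positivity
  have h6 : (6 * m * D : ℝ) ≤ R := by exact_mod_cast hD
  have h7 : (Fintype.card V * d : ℝ) * (6 * m * D) ≤ Fintype.card V * d * R := by gcongr
  exact_mod_cast le_of_mul_le_mul_left (show 6 * m * Fintype.card V * (D * d : ℝ) ≤
    6 * m * Fintype.card V * E.card by linarith) h5

lemma lap_zero_bound {θ : ℝ} (hw : IsW (bw p)) (h0 : 0 ≤ θ) (h1 : θ ≤ 1)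
    (hθ : ∀ t : ZMod m, t ≠ 0 → phi p t ≤ θ) (hV : 1 ≤ Fintype.card V) {R D : ℕ}
    (hD : 6 * m * D ≤ R) {v : V → ZMod m} (hv : Rb P R v) :
    m ^ Fintype.card V * Pr (gw p) (fun ω => lap ω v = 0) ≤
      m * (1 + m * θ ^ D) ^ Fintype.card V := by
  refine (fourier_bound (m := m) p (Ξ := V → ZMod m) (fun _ => 0) (fun ξ e =>
    ∑ q ∈ univ.filter fun q : V × V => s(q.1, q.2) = e, ξ q.1 * (v q.1 - v q.2)) fun ω => ?_).trans ?_
  · have e1 : (m : ℝ) ^ Fintype.card V * ind (lap ω v = 0) = ∏ i, (m * ind (lap ω v i = 0)) := by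
      rw [prod_mul_distrib, prod_const, card_univ]
      congr 1
      by_cases h : lap ω v = 0
      · simp [h, ind_pos]
      · obtain ⟨i, hi⟩ := Function.ne_iff.1 h
        rw [ind_neg h, prod_eq_zero (mem_univ i) (ind_neg hi)]
    rw [e1, Complex.ofReal_prod]
    simp only [← chi_orth]
    rw [prod_univ_sum, Fintype.piFinset_univ]
    refine sum_congr rfl fun ξ _ => ?_
    rw [← chi_sum, zero_add]
    congr 1
    simp only [lap_apply, mul_sum]
    rw [← Fintype.sum_prod_type', ← sum_fiberwise univ fun q : V × V => s(q.1, q.2)]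
    refine sum_congr rfl fun e _ => ?_
    rw [sum_congr rfl fun q hq => show _ = if ω e then ξ q.1 * (v q.1 - v q.2) else 0 by
      rw [adj, (mem_filter.1 hq).2]; split_ifs <;> simp]
    split_ifs <;> simp
  have hp : ∀ t : ZMod m, phi p t ≤ if t ≠ 0 then θ else 1 := fun t => by
    split_ifs with h
    · exact hθ t h
    · refine (phi_le_exp p t).trans (Real.exp_le_one_iff.2 ?_)
      have := mul_nonneg (hw.nn true) (hw.nn false)
      simp only [bw, if_true, Bool.false_eq_true, if_false] at this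
      have := mul_nonneg this (sq_nonneg (ch t))
      linarith
  calc _ ≤ ∑ ξ : V → ZMod m, ∑ c, ∏ j, if ξ j ≠ c then θ ^ D else 1 := by
        refine sum_le_sum fun ξ _ => ?_
        obtain ⟨c, hc⟩ := edge_count hP hm hV hD hv ξ
        refine (prod_le_prod (fun _ _ => phi_nonneg _ _) fun e _ => hp _).trans (le_trans ?_
          (single_le_sum (f := fun c => ∏ j, if ξ j ≠ c then θ ^ D else 1)
            (fun _ _ => prod_nonneg fun _ _ => by split_ifs <;> positivity) (mem_univ c)))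
        rw [← prod_filter, ← prod_filter, prod_const, prod_const, ← pow_mul]
        exact pow_le_pow_of_le_one h0 h1 hc
    _ = ∑ c : ZMod m, ∏ _j : V, ∑ x, if x ≠ c then θ ^ D else 1 := by
        rw [sum_comm]
        exact sum_congr rfl fun c _ => by rw [prod_univ_sum, Fintype.piFinset_univ]
    _ ≤ _ := by
        refine (sum_le_card_nsmul _ _ ((1 + m * θ ^ D) ^ Fintype.card V) fun c _ => ?_).trans_eq
          (by rw [card_univ, ZMod.card, nsmul_eq_mul])
        rw [prod_const, card_univ]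
        gcongr
        rw [← add_sum_erase _ _ (mem_univ c), if_neg (by simp)]
        refine add_le_add le_rfl ((sum_le_card_nsmul _ _ (θ ^ D) fun x hx => by
          rw [if_pos (ne_of_mem_erase hx)]).trans ?_)
        rw [nsmul_eq_mul]
        gcongr
        exact (card_le_univ _).trans_eq (ZMod.card m)

omit hP hm in
lemma moment (hV : 1 ≤ Fintype.card V) {R : ℕ} {κ : ℝ} (hκ : 0 ≤ κ) (h : ∀ v : V → ZMod m, Rb P R v →
      m ^ Fintype.card V * Pr (gw p) (fun ω => lap ω v = 0) ≤ m * κ)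
    {g : ZMod m → ℝ} (hg : ∀ a, 0 ≤ g a) (y : V) :
    Ex (gw p) (fun ω => ∑ v : V → ZMod m, ind (v y = 0 ∧ Rb P R v ∧ lap ω v = 0) *
      ∏ x ∈ univ.erase y, g (v x)) ≤ κ * ((∑ a, g a) / m) ^ (Fintype.card V - 1) := by
  have hm : (0 : ℝ) < m := by exact_mod_cast NeZero.pos m
  rw [Ex_sum]
  calc _ ≤ ∑ v : V → ZMod m, κ / m ^ (Fintype.card V - 1) *
          ∏ x, if x = y then ind (v x = 0) else g (v x) := by
        refine sum_le_sum fun v _ => ?_
        rw [← mul_prod_erase _ _ (mem_univ y), if_pos rfl, prod_congr rfl fun x hx =>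
          if_neg (ne_of_mem_erase hx), Ex_mul_const, ← mul_assoc]
        refine mul_le_mul_of_nonneg_right ?_ (prod_nonneg fun _ _ => hg _)
        simp only [ind_and, Ex_const_mul]
        rw [mul_comm]
        refine mul_le_mul_of_nonneg_right ?_ (ind_nonneg _)
        by_cases hv : Rb P R v
        · have := h v hv
          rw [← Nat.sub_add_cancel hV, pow_succ', mul_assoc] at this
          rw [ind_pos hv, one_mul, le_div_iff₀' (by positivity)]
          exact le_of_mul_le_mul_left this hm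
        · rw [ind_neg hv, zero_mul]; positivity
    _ = _ := by
        rw [← mul_sum, ← Fintype.piFinset_univ, ← prod_univ_sum _
          fun x a => if x = y then ind (a = 0) else g a, ← mul_prod_erase _ _ (mem_univ y),
          prod_congr rfl fun x hx => sum_congr rfl fun a _ => if_neg (ne_of_mem_erase hx),
          prod_const, card_erase_of_mem (mem_univ _), card_univ, div_pow]
        simp only [if_true, sum_ind]
        rw [filter_eq' , if_pos (mem_univ _), card_singleton]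
        ring

lemma unit_tail (hw : IsW (bw p)) (hV : 1 ≤ Fintype.card V) {R : ℕ} {κ : ℝ} (hκ : 0 ≤ κ)
    (h : ∀ v : V → ZMod m, Rb P R v →
      m ^ Fintype.card V * Pr (gw p) (fun ω => lap ω v = 0) ≤ m * κ) (y : V) (t : ℕ) {A : ℝ}
    (hA : ∑ l ∈ P, (1 / l : ℝ) ≤ A) :
    Pr (gw p) (fun ω => ∃ v : V → ZMod m, (v y = 0 ∧ Rb P R v ∧ lap ω v = 0) ∧
      ∑ x ∈ univ.erase y, ind (IsUnit (v x)) ≤ t) ≤
      2 ^ t * (κ * (1 - Real.exp (-(2 * A)) / 2) ^ (Fintype.card V - 1)) := by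
  have hm0 : (0 : ℝ) < m := by exact_mod_cast NeZero.pos m
  have hg : ∀ a : ZMod m, (0 : ℝ) ≤ if IsUnit a then 1 / 2 else 1 := fun a => by
    split_ifs <;> norm_num
  refine (Pr_le_Ex hw.pw (f := fun ω => 2 ^ t * ∑ v : V → ZMod m,
    ind (v y = 0 ∧ Rb P R v ∧ lap ω v = 0) * ∏ x ∈ univ.erase y, if IsUnit (v x) then 1 / 2 else 1)
    (fun ω => mul_nonneg (by positivity) (sum_nonneg fun _ _ => mul_nonneg (ind_nonneg _)
      (prod_nonneg fun _ _ => hg _))) ?_).trans ?_
  · rintro ω ⟨v, h1, h2⟩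
    refine le_trans ?_ (mul_le_mul_of_nonneg_left (single_le_sum (fun _ _ => mul_nonneg
      (ind_nonneg _) (prod_nonneg fun _ _ => hg _)) (mem_univ v)) (by positivity))
    rw [ind_pos h1, one_mul, ← prod_filter, prod_const, one_div, inv_pow, ← div_eq_mul_inv,
      one_le_div (by positivity)]
    rw [sum_ind, Nat.cast_le] at h2
    exact pow_le_pow_right₀ one_le_two h2
  rw [Ex_const_mul]
  gcongr
  refine (moment hV hκ h hg y).trans ?_
  gcongr
  have h1 : (univ.filter fun a : ZMod m => IsUnit a).card = m.totient := by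
    rw [← ZMod.card_units_eq_totient, ← card_univ]
    refine (card_bij (fun (u : (ZMod m)ˣ) _ => (u : ZMod m)) (by simp)
      (fun _ _ _ _ h => Units.ext h) ?_).symm
    intro a ha
    obtain ⟨u, rfl⟩ := (mem_filter.1 ha).2
    exact ⟨u, mem_univ _, rfl⟩
  have h2 : (∑ a : ZMod m, if IsUnit a then 1 / 2 else 1 : ℝ) = m - m.totient / 2 := by
    rw [← h1, ← sum_ind, sum_div, show (m : ℝ) = ∑ _a : ZMod m, 1 by simp, ← sum_sub_distrib]
    refine sum_congr rfl fun a _ => ?_
    split_ifs with ha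
    · rw [ind_pos ha]; norm_num
    · rw [ind_neg ha]; norm_num
  have h3 : (m.totient : ℝ) = m * ∏ l ∈ P, (1 - (l : ℝ)⁻¹) := by
    have := congrArg (Rat.cast : ℚ → ℝ) (Nat.totient_eq_mul_prod_factors m)
    rw [show m.primeFactors = P from hm ▸ Nat.primeFactors_prod hP] at this
    simpa using this
  have h4 : Real.exp (-(2 * A)) ≤ ∏ l ∈ P, (1 - (l : ℝ)⁻¹) := by
    calc _ ≤ Real.exp (∑ l ∈ P, -(2 * (1 / l : ℝ))) := by
          rw [sum_neg_distrib, ← mul_sum]; gcongr
      _ ≤ _ := by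
          rw [Real.exp_sum]
          refine prod_le_prod (fun _ _ => (Real.exp_pos _).le) fun l hl => ?_
          have h5 : (2 : ℝ) ≤ l := by exact_mod_cast (hP l hl).two_le
          have h6 := Real.add_one_le_exp (2 * (1 / l : ℝ))
          rw [Real.exp_neg]
          refine (inv_anti₀ (by positivity) h6).trans ?_
          rw [inv_le_iff_one_le_mul₀ (by positivity)]
          have h7 : (l : ℝ)⁻¹ ≤ 1 / 2 := by rw [← one_div]; gcongr
          have h8 : 0 ≤ (l : ℝ)⁻¹ := by positivity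
          rw [one_div]
          nlinarith
  rw [h2, h3, div_le_iff₀ hm0]
  nlinarith

end

omit [DecidableEq V] in
lemma KK_lap {F : Type} [CommRing F] {ω : Sym2 V → Bool} {y : V} {v : V → F}
    (hv : v ∈ KK F ω {y}) : lap ω v = 0 := by
  funext i
  by_cases h : i = y
  · have := lap_symm (ω := ω) (fun _ => 1) v
    rw [sum_eq_single y (fun j _ hj => by rw [hv.2 j (by simpa using hj), mul_zero]) (by simp)]
      at this
    simpa [h, lap_const] using this
  · exact hv.2 i (by simpa using h)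

omit [DecidableEq V] in
lemma Rob.of_KK {u l : ℕ} {ω : Sym2 V → Bool} (h : Rob u ω) (hl : l.Prime) {y : V}
    {v : V → ZMod l} (hv : v ∈ KK (ZMod l) ω {y}) (h0 : v ≠ 0) (c : ZMod l) :
    lv v c + 201 * u ≤ Fintype.card V := by
  obtain ⟨i, hi⟩ := Function.ne_iff.1 h0
  exact h l hl v ⟨i, y, by rw [hv.1 y (by simp)]; exact hi⟩ (by simp [dfc, KK_lap hv]) c

lemma rank_tail (hw : IsW (bw p)) (hV : 1 ≤ Fintype.card V) {l u : ℕ} [Fact l.Prime] {κ : ℝ}
    (hκ : 0 ≤ κ) (h : ∀ v : V → ZMod l, Rb {l} (201 * u) v →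
      l ^ Fintype.card V * Pr (gw p) (fun ω => lap ω v = 0) ≤ l * κ) (y : V) {r : ℕ} (hr : 1 ≤ r) :
    Pr (gw p) (fun ω => Rob u ω ∧ r ≤ dimK l ω {y}) ≤ κ / (l ^ r - 1) := by
  have hl : (1 : ℝ) < l := by exact_mod_cast (Fact.out : l.Prime).one_lt
  have h1 := moment hV hκ h (g := fun _ => 1) (fun _ => zero_le_one) y
  simp only [prod_const_one, mul_one, sum_const, card_univ, ZMod.card, nsmul_eq_mul,
    div_self (zero_lt_one.trans hl).ne', one_pow] at h1
  have h2 := sub_pos.2 (one_lt_pow₀ hl (Nat.one_le_iff_ne_zero.1 hr))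
  refine (Pr_markov hw.pw h2 (fun ω => sum_nonneg fun _ _ => ind_nonneg _) ?_).trans (by gcongr)
  rintro ω ⟨h3, h4⟩
  classical
  have h5 : (univ.filter fun v => v ∈ KK (ZMod l) ω {y}).card = l ^ dimK l ω {y} := by
    rw [← Fintype.card_subtype, dimK, Module.card_eq_pow_finrank (K := ZMod l), ZMod.card]
  have h6 : (univ.filter fun v => v ∈ KK (ZMod l) ω {y}).erase 0 ⊆
      univ.filter fun v => v y = 0 ∧ Rb {l} (201 * u) v ∧ lap ω v = 0 := fun v hv => by
    obtain ⟨v1, v2⟩ := mem_erase.1 hv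
    have v3 := (mem_filter.1 v2).2
    refine mem_filter.2 ⟨mem_univ _, v3.1 y (by simp), fun k hk c => ?_, KK_lap v3⟩
    obtain rfl := mem_singleton.1 hk
    simpa using h3.of_KK Fact.out v3 v1 c
  have h7 := card_le_card h6
  rw [card_erase_of_mem (by simp), h5] at h7
  have h8 := Nat.pow_le_pow_right (Fact.out : l.Prime).pos h4
  rw [sum_ind, sub_le_iff_le_add]
  exact_mod_cast by omega

omit [DecidableEq V] in
lemma assemble {P : Finset ℕ} (hP : ∀ l ∈ P, l.Prime) {m : ℕ} [NeZero m] (hm : m = ∏ l ∈ P, l)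
    {u : ℕ} {ω : Sym2 V → Bool} (h : Rob u ω) {y : V} (w : ∀ l : ℕ, V → ZMod l)
    (hw : ∀ l ∈ P, w l ∈ KK (ZMod l) ω {y} ∧ w l ≠ 0) :
    ∃ v : V → ZMod m, (v y = 0 ∧ Rb P (201 * u) v ∧ lap ω v = 0) ∧
      ∀ x, IsUnit (v x) → ∀ l ∈ P, w l x ≠ 0 := by
  have hd : ∀ l ∈ P, l ∣ m := fun l hl => hm ▸ dvd_prod_of_mem _ hl
  let v : V → ZMod m := fun x => ((∑ l ∈ P, (∏ k ∈ P.erase l, k) * (w l x).val : ℕ) : ZMod m)
  have h1 : ∀ l ∈ P, (fun x => ((v x).cast : ZMod l)) =
      ((∏ k ∈ P.erase l, k : ℕ) : ZMod l) • w l := by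
    intro l hl
    have := Fact.mk (hP l hl)
    funext x
    rw [ZMod.cast_natCast (hd l hl), Nat.cast_sum, sum_eq_single l (fun k hk hkl => ?_)
      (fun h => absurd hl h), Nat.cast_mul, ZMod.natCast_zmod_val, Pi.smul_apply, smul_eq_mul]
    rw [ZMod.natCast_eq_zero_iff]
    exact (dvd_prod_of_mem _ (mem_erase.2 ⟨hkl.symm, hl⟩)).mul_right _
  have h2 : ∀ l ∈ P, (fun x => ((v x).cast : ZMod l)) ∈ KK (ZMod l) ω {y} := fun l hl => by
    rw [h1 l hl]; exact Submodule.smul_mem _ _ (hw l hl).1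
  refine ⟨v, ⟨cast_inj hP hm fun l hl => (h2 l hl).1 y (by simp), fun l hl => ?_, funext fun i =>
    cast_inj hP hm fun l hl => ?_⟩, fun x hx l hl h0 => ?_⟩
  · refine h.of_KK (hP l hl) (h2 l hl) ?_
    have := Fact.mk (hP l hl)
    rw [h1 l hl]
    refine smul_ne_zero (fun h0 => ?_) (hw l hl).2
    rw [ZMod.natCast_eq_zero_iff, (hP l hl).prime.dvd_finsetProd_iff] at h0
    obtain ⟨k, hk, h3⟩ := h0
    exact ne_of_mem_erase hk
      ((Nat.prime_dvd_prime_iff_eq (hP l hl) (hP k (mem_of_mem_erase hk))).1 h3).symm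
  · exact (lap_map (ZMod.castHom (hd l hl) (ZMod l)) v i).trans (congrFun (KK_lap (h2 l hl)) i)
  · have := Fact.mk (hP l hl)
    refine (hx.map (ZMod.castHom (hd l hl) (ZMod l))).ne_zero ((congrFun (h1 l hl) x).trans ?_)
    simp [h0]

end Pool.Agent.Work.MP_c383cf_pr
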