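import Pool.Agent.Work.MP_c383cf_pr.Defs
import Pool.Agent.Work.MP_c383cf_pr.Chain
import Pool.Agent.Work.MP_c383cf_pr.Small
import Mathlib.RingTheory.SimpleModule.Basic
import Mathlib.RingTheory.Ideal.NatInt
import Mathlib.Data.ZMod.QuotientRing

namespace Pool.Agent.Work.MP_c383cf_pr

open Finset Module

lemma exists_hom {A : Type} [AddCommGroup A] [Module.Finite ℤ A] {H : AddSubgroup A} (h : H ≠ ⊤) :
    ∃ l : ℕ, l.Prime ∧ ∃ φ : A →+ ZMod l, φ ≠ 0 ∧ ∀ a ∈ H, φ a = 0 := by
  obtain ⟨N, hN, h1⟩ := (eq_top_or_exists_le_coatom H.toIntSubmodule).resolve_left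
    fun e => h (by simpa using congrArg Submodule.toAddSubgroup e)
  obtain ⟨I, hI, ⟨e⟩⟩ := isSimpleModule_iff_quot_maximal.1 (isSimpleModule_iff_isCoatom.2 hN)
  obtain ⟨l, hl, rfl⟩ := (Ideal.isPrime_int_iff.1 hI.isPrime).resolve_left
    (Ring.ne_bot_of_isMaximal_of_not_isField hI Int.not_isField)
  refine ⟨l, hl, (Int.quotientSpanNatEquivZMod l).toAddMonoidHom.comp
    (e.toLinearMap.toAddMonoidHom.comp N.mkQ.toAddMonoidHom), fun h0 => hN.1 ?_, fun a ha => ?_⟩
  · refine eq_top_iff.2 fun a _ => ?_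
    simpa using DFunLike.congr_fun h0 a
  · simpa using h1 ha

variable {n : ℕ}

/-- The graph of a configuration. -/
def gr {V : Type} (ω : Sym2 V → Bool) : SimpleGraph V := SimpleGraph.fromEdgeSet {e | ω e = true}

lemma mem_prin {ω : Sym2 (Fin n) → Bool} {D : div0 n} :
    D ∈ prin (gr ω) ↔ ∃ f, lap ω f = (D : Fin n → ℤ) := by
  classical
  refine exists_congr fun f => Eq.congr_left (funext fun i => ?_)
  change (SimpleGraph.lapMatrix ℤ (gr ω)).mulVec f i = _
  rw [SimpleGraph.lapMatrix_mulVec_apply, SimpleGraph.degree_eq_sum_if_adj, sum_mul, lap_apply,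
    SimpleGraph.neighborFinset_eq_filter, sum_filter, ← sum_sub_distrib]
  refine sum_congr rfl fun j _ => ?_
  by_cases h : i = j <;> simp [gr, adj, h]
  split_ifs <;> simp

lemma div0_eq (D : div0 n) (y : Fin n) : D = ∑ i, (D : Fin n → ℤ) i • delta i y := by
  have h : ∑ i, (D : Fin n → ℤ) i = 0 := D.2
  ext j
  simp [delta, Pi.single_apply, mul_sub, h]

lemma jac_finite (G : SimpleGraph (Fin n)) : Module.Finite ℤ (Jac G) := by
  have : Module.Finite ℤ (div0 n) := Module.Finite.of_injective (div0 n).subtype.toIntLinearMap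
    Subtype.val_injective
  exact Module.Finite.of_surjective (QuotientAddGroup.mk' (prin G)).toIntLinearMap
    (QuotientAddGroup.mk'_surjective _)

lemma gen_of_not_kill {ω : Sym2 (Fin n) → Bool} {x y : Fin n}
    (h : ∀ l : ℕ, l.Prime → ¬ Kill l ω x y) :
    AddSubgroup.zmultiples (QuotientAddGroup.mk (delta x y) : Jac (gr ω)) = ⊤ := by
  by_contra hc
  have := jac_finite (gr ω)
  obtain ⟨l, hl, φ, h0, h1⟩ := exists_hom hc
  let ψ : div0 n →+ ZMod l := φ.comp (QuotientAddGroup.mk' _)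
  have e : ∀ D : div0 n, ψ D = ∑ i, (D : Fin n → ℤ) i * ψ (delta i y) := fun D => by
    conv_lhs => rw [div0_eq D y]
    simp only [map_sum, map_zsmul, zsmul_eq_mul]
  refine h l hl ⟨fun i => ψ (delta i y), ⟨fun i hi => ?_, fun i _ => ?_⟩, fun h2 => h0 ?_,
    h1 _ (AddSubgroup.mem_zmultiples _)⟩
  · beta_reduce
    rw [mem_singleton.1 hi, show delta y y = 0 from Subtype.ext (sub_self _), map_zero]
  · have h3 : lap ω (Pi.single i (1 : ℤ)) ∈ div0 n := by
      have := lap_symm (ω := ω) (fun _ => 1) (Pi.single i (1 : ℤ))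
      simp only [lap_const, mul_zero, sum_const_zero, one_mul] at this
      exact this
    have h4 : ψ ⟨_, h3⟩ = 0 := by
      change φ (QuotientAddGroup.mk _) = 0
      rw [(QuotientAddGroup.eq_zero_iff _).2 (mem_prin.2 ⟨_, rfl⟩), map_zero]
    rw [e] at h4
    have h5 := lap_symm (ω := ω) (Pi.single i (1 : ZMod l)) fun i => ψ (delta i y)
    simp only [Pi.single_apply, ite_mul, one_mul, zero_mul, sum_ite_eq', mem_univ, if_true] at h5
    rw [h5, ← h4]
    refine sum_congr rfl fun j _ => ?_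
    rw [mul_comm]
    congr 1
    refine Eq.trans ?_ (lap_map (Int.castRingHom (ZMod l)) _ j).symm
    exact congrFun (congrArg (lap ω) (funext fun k => by simp [Pi.single_apply])) j
  · refine AddMonoidHom.ext fun a => ?_
    obtain ⟨D, rfl⟩ := QuotientAddGroup.mk_surjective a
    refine (e D).trans (sum_eq_zero fun i _ => ?_)
    rw [congrFun h2 i, Pi.zero_apply, mul_zero]

lemma dimK_le_one {ω : Sym2 (Fin n) → Bool} (h : IsAddCyclic (Jac (gr ω))) {l : ℕ} (hl : l.Prime)
    (y : Fin n) : dimK l ω {y} ≤ 1 := by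
  have := Fact.mk hl
  obtain ⟨g, hg⟩ := h.exists_zsmul_surjective
  obtain ⟨D, rfl⟩ := QuotientAddGroup.mk_surjective g
  refine (LinearMap.finrank_le_finrank_of_injective (f := (dotL (ZMod l) D).domRestrict
    (KK (ZMod l) ω {y})) ((injective_iff_map_eq_zero _).2 ?_)).trans_eq (finrank_self _)
  rintro ⟨v, hv⟩ h0
  refine Subtype.ext (funext fun i => ?_)
  obtain ⟨k, hk⟩ := hg (QuotientAddGroup.mk (delta i y))
  simp only at hk
  rw [← QuotientAddGroup.mk_zsmul, QuotientAddGroup.eq, mem_prin] at hk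
  obtain ⟨f, hf⟩ := hk
  have h1 := lap_symm (ω := ω) (fun j => (f j : ZMod l)) v
  have h2 : ∀ j, lap ω (fun j => (f j : ZMod l)) j = ((lap ω f j : ℤ) : ZMod l) := fun j =>
    (lap_map (Int.castRingHom (ZMod l)) f j).symm
  have h3 : ∑ j, v j * (D : Fin n → ℤ) j = 0 := by
    simpa [dotL_apply, mul_comm] using h0
  simp only [KK_lap hv, Pi.zero_apply, mul_zero, sum_const_zero, h2, hf] at h1
  simpa [delta, Pi.single_apply, mul_add, mul_sub, sum_add_distrib, mul_left_comm _ (k : ZMod l),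
    ← mul_sum, h3, hv.1 y] using h1.symm

end Pool.Agent.Work.MP_c383cf_pr
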