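import Pool.Agent.Work.MP_c383cf_pr.Swap

namespace Pool.Agent.Work.MP_c383cf_pr

open Finset Module Filter Topology

lemma le_two_mul_div {n h : ℕ} (h0 : 1 ≤ h) (hn : h ≤ n) : n ≤ 2 * h * (n / h) := by
  have h1 := Nat.div_add_mod n h
  have h2 := Nat.mod_lt n h0
  have h3 := Nat.div_pos hn h0
  nlinarith only [h1, h2, h3]

lemma tendsto_small (k : ℕ) {h : ℕ} (h0 : 1 ≤ h) {c : ℝ} (c0 : 0 ≤ c) (c1 : c < 1) :
    Tendsto (fun n : ℕ => (n : ℝ) ^ k * c ^ (n / h)) atTop (𝓝 0) := by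
  have h1 := ((tendsto_pow_const_mul_const_pow_of_abs_lt_one k (r := c)
    (by rwa [abs_of_nonneg c0])).comp (Nat.tendsto_div_const_atTop (n := h) (by omega))).const_mul
    ((2 * h : ℝ) ^ k)
  rw [mul_zero] at h1
  refine squeeze_zero' (Eventually.of_forall fun n => by positivity) ?_ h1
  filter_upwards [eventually_ge_atTop h] with n hn
  have : (n : ℝ) ≤ 2 * h * (n / h : ℕ) := by exact_mod_cast le_two_mul_div h0 hn
  simp only [Function.comp, ← mul_assoc, ← mul_pow]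
  gcongr

lemma ev_small (k : ℕ) (A : ℝ) {h : ℕ} (h0 : 1 ≤ h) {c : ℝ} (c0 : 0 ≤ c) (c1 : c < 1) :
    ∀ᶠ n : ℕ in atTop, A * n ^ k * c ^ (n / h) ≤ 1 / 5 * (1 / (n : ℝ) ^ 2) := by
  have h1 := (tendsto_small (k + 2) h0 c0 c1).const_mul A
  rw [mul_zero] at h1
  filter_upwards [h1.eventually (gt_mem_nhds (show (0 : ℝ) < 1 / 5 by norm_num)),
    eventually_gt_atTop 0] with n h2 h3
  rw [mul_one_div _ ((n : ℝ) ^ 2), le_div_iff₀ (by positivity)]
  exact le_trans (le_of_eq (by ring)) h2.le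

lemma ev_div (h j : ℕ) (h0 : 1 ≤ h) : ∀ᶠ n : ℕ in atTop, j ≤ n / h :=
  (Nat.tendsto_div_const_atTop (n := h) (by omega)).eventually_ge_atTop j

lemma ev_pow (A : ℝ) {c : ℝ} (c0 : 0 ≤ c) (c1 : c < 1) : ∀ᶠ h : ℕ in atTop, A * c ^ h ≤ 1 / 2 := by
  have := (tendsto_pow_atTop_nhds_zero_of_lt_one c0 c1).const_mul A
  rw [mul_zero] at this
  exact (this.eventually (gt_mem_nhds (by norm_num))).mono fun _ => le_of_lt

lemma ev_sqrt (A : ℝ) : ∀ᶠ n : ℕ in atTop, A ≤ √n :=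
  (Real.tendsto_sqrt_atTop.comp tendsto_natCast_atTop_atTop).eventually_ge_atTop A

variable {p : ℝ} (p0 : 0 < p) (p1 : p < 1)
include p0 p1

lemma pair_fail (c d : Bool) (j : ℕ) : ∀ᶠ h : ℕ in atTop, ∀ᶠ n : ℕ in atTop,
    Pr (gw p) (fun ω : Sym2 (Fin n) → Bool => ∃ z y, z ≠ y ∧ (({z, y}ᶜ : Finset (Fin n)).filter
      fun k => ω s(k, z) = c ∧ ω s(k, y) = d).card ≤ j * (n / h)) ≤ 1 / 5 * (1 / (n : ℝ) ^ 2) := by
  have hw := bw_isW p0.le p1.le
  have b0 : ∀ c, 0 < bw p c ∧ bw p c < 1 := fun c => by cases c <;> simp [bw, p0, p1]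
  have b1 : 0 ≤ 1 - bw p c * bw p d / 2 := by nlinarith [b0 c, b0 d]
  have b2 : 1 - bw p c * bw p d / 2 < 1 := by linarith [b0 c, b0 d, mul_pos (b0 c).1 (b0 d).1]
  filter_upwards [(tendsto_sub_atTop_nat 1).eventually (ev_pow (2 ^ j) b1 b2),
    eventually_ge_atTop 1] with h h1 h2
  filter_upwards [ev_small 2 1 h2 (c := 1 / 2) (by norm_num) (by norm_num), ev_div h 2 h2]
    with n h3 h4
  refine (Pr_union_le hw.pw (univ : Finset (Fin n)).offDiag (fun x ω =>
    (({x.1, x.2}ᶜ : Finset (Fin n)).filter fun k => ω s(k, x.1) = c ∧ ω s(k, x.2) = d).card ≤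
      j * (n / h)) (fun ω ⟨z, y, h5, h6⟩ => ⟨(z, y), by simpa using h5, h6⟩)
    fun x hx => count_tail hw (mem_offDiag.1 hx).2.2 c d _).trans (le_trans ?_ h3)
  rw [Fintype.card_fin, one_mul]
  gcongr
  · rw [offDiag_card, card_univ, Fintype.card_fin, sq]
    exact_mod_cast Nat.sub_le _ _
  · calc _ ≤ (2 ^ j) ^ (n / h) * ((1 - bw p c * bw p d / 2) ^ (h - 1)) ^ (n / h) := by
          rw [← pow_mul, ← pow_mul]
          refine mul_le_mul_of_nonneg_left (pow_le_pow_of_le_one b1 b2.le ?_) (by positivity)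
          have := Nat.mul_div_le n h
          rw [Nat.sub_one_mul]; omega
      _ ≤ _ := by rw [← mul_pow]; gcongr

lemma cor_fail {h : ℕ} (h0 : 1 ≤ h) : ∀ᶠ n : ℕ in atTop,
    Pr (gw p) (fun ω : Sym2 (Fin n) → Bool => Conn ω ∧ ¬ Cor (n / h) ω) ≤
      1 / 5 * (1 / (n : ℝ) ^ 2) := by
  have t0 : 0 ≤ max p (1 - p) := le_max_of_le_left p0.le
  have t1 : max p (1 - p) < 1 := max_lt p1 (by linarith)
  obtain ⟨j, hj⟩ := (ev_pow (8 ^ (2 * h)) t0 t1).exists
  filter_upwards [ev_small (2 * h) 2 h0 (c := 1 / 2) (by norm_num) (by norm_num), ev_div h j h0,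
    ev_div h 1 h0, eventually_ge_atTop h] with n h1 h2 h3 h4
  have h5 := le_two_mul_div h0 h4
  refine (corank_all (bw_isW p0.le p1.le) (h := h) h3 (by simp; omega) (by simpa)).trans
    (le_trans ?_ h1)
  rw [Fintype.card_fin, mul_assoc]
  have h6 : (1 : ℝ) ≤ n ^ (2 * h) := one_le_pow₀ (by exact_mod_cast h0.trans h4)
  gcongr
  · linarith
  · calc _ ≤ (8 ^ (2 * h)) ^ (n / h) * (max p (1 - p) ^ j) ^ (n / h) := by
          rw [← pow_mul, ← pow_mul]
          exact mul_le_mul (pow_le_pow_right₀ (by norm_num) h5) (pow_le_pow_of_le_one t0 t1.le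
            (Nat.mul_le_mul_right _ h2)) (by positivity) (by positivity)
      _ ≤ _ := by rw [← mul_pow]; gcongr

lemma rob_fail : ∀ᶠ h : ℕ in atTop, ∀ᶠ n : ℕ in atTop,
    Pr (gw p) (fun ω : Sym2 (Fin n) → Bool => ¬ Rob (n / h) ω) ≤ 1 / 5 * (1 / (n : ℝ) ^ 2) := by
  have t0 : 0 ≤ max p (1 - p) := le_max_of_le_left p0.le
  have t1 : max p (1 - p) < 1 := max_lt p1 (by linarith)
  generalize hθ : max p (1 - p) = θ at t0 t1
  set s := (1 - θ) / 4
  have s0 : 0 < s := by simp only [s]; linarith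
  have s1 : 1 ≤ 1 / s := by rw [one_le_div s0]; simp only [s]; linarith
  have s2 : s + (θ + s) < 1 := by simp only [s]; linarith
  filter_upwards [ev_pow ((1 / s) ^ (3 * 206)) (c := s + (θ + s)) (by positivity) s2,
    eventually_ge_atTop 206] with h h1 h2
  filter_upwards [ev_small 4 (4 * (1 / s) ^ 2) (h := h) (by omega) (c := 1 / 2) (by norm_num)
    (by norm_num), eventually_ge_atTop 1] with n h3 h4
  have h5 := Nat.mul_div_le n h
  have h6 : 206 * (n / h) ≤ n := (Nat.mul_le_mul_right _ h2).trans h5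
  refine (rob_bound (bw_isW p0.le p1.le) (by simpa) (by simpa) s1).trans (le_trans ?_ h3)
  rw [Fintype.card_fin, hθ, one_div_one_div]
  generalize n / h = u at *
  have h7 : s ^ (206 * u) * (θ + s) ^ (n - 206 * u) * n.choose (206 * u) ≤ (s + (θ + s)) ^ n := by
    rw [add_pow s]
    exact single_le_sum (f := fun k => s ^ k * (θ + s) ^ (n - k) * (n.choose k : ℝ))
      (fun _ _ => by positivity) (mem_range.2 (Nat.lt_succ_of_le h6))
  have h8 : (s + (θ + s)) ^ n ≤ ((s + (θ + s)) ^ h) ^ u := by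
    rw [← pow_mul]; exact pow_le_pow_of_le_one (by positivity) s2.le h5
  calc _ = 4 * (1 / s) ^ 2 * n ^ 4 * (((1 / s) ^ (3 * 206)) ^ u *
        (s ^ (206 * u) * (θ + s) ^ (n - 206 * u) * n.choose (206 * u))) := by
        rw [← pow_mul, show 3 * 206 * u = 206 * u * 3 by ring, mul_comm 2 (1 + 206 * u), pow_mul,
          pow_mul, pow_add, one_div_pow s (206 * u)]
        field_simp
    _ ≤ 4 * (1 / s) ^ 2 * n ^ 4 * (((1 / s) ^ (3 * 206)) ^ u * ((s + (θ + s)) ^ h) ^ u) := by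
        gcongr; exact h7.trans h8
    _ ≤ _ := by rw [← mul_pow]; gcongr

omit p0 p1 in
private lemma typ_pw0 (x K : ℝ) (a b : ℕ) (hK : K ≠ 0) : (x / K) ^ (a + b) * K ^ b = x ^ (a + b) / K ^ a := by
  rw [div_pow, pow_add K, ← div_div, div_mul_cancel₀ _ (pow_ne_zero _ hK)]

omit p0 p1 in
private lemma typ_pw1 (h K : ℝ) (hK : K ≠ 0) :
    (2 * h * (2 * (2 / K))) ^ 95 * K ^ 20 = (8 * h) ^ 95 / K ^ 75 := by
  rw [show (2 * h * (2 * (2 / K)) : ℝ) = 8 * h / K by ring]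
  exact typ_pw0 _ _ 75 20 hK

omit p0 p1 in
private lemma typ_pw2 (q D s : ℝ) (hq : q ≠ 0) (hs : s ≠ 0) :
    (q * (2 * (D / (q * s)))) ^ 95 * (s ^ 3) ^ 20 = (2 * D) ^ 95 / s ^ 35 := by
  rw [show q * (2 * (D / (q * s))) = 2 * D / s by field_simp, ← pow_mul]
  exact typ_pw0 _ _ 35 60 hs

lemma typ_fail {h : ℕ} (h0 : 1 ≤ h) : ∀ᶠ K : ℕ in atTop, ∀ᶠ n : ℕ in atTop,
    Pr (gw p) (fun ω : Sym2 (Fin n) → Bool => Conn ω ∧ Cor (n / h) ω ∧ Rob (n / h) ω ∧
      ¬ Typ (n / h) h K ω) ≤ 1 / 5 * (1 / (n : ℝ) ^ 2) := by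
  obtain ⟨C, C1, hC⟩ := halasz p0 p1
  set c : ℝ := 1 / (2 * 16 ^ (2 * h))
  have c0 : 0 < c := by positivity
  set D := 1 + C * h ^ 2
  have D1 : 1 ≤ D := le_add_of_nonneg_right (by positivity)
  have hh : (1 : ℝ) ≤ h := by exact_mod_cast h0
  filter_upwards [tendsto_natCast_atTop_atTop.eventually_ge_atTop ((8 * h : ℝ) ^ 95 / c),
    eventually_ge_atTop 2] with K K1 K2
  have K3 : (2 : ℝ) ≤ K := by exact_mod_cast K2
  filter_upwards [ev_small 3 4 h0 (c := 1 / 2) (by norm_num) (by norm_num), ev_div h 1 h0,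
    eventually_ge_atTop h, ev_sqrt (C * K * h), ev_sqrt D, ev_sqrt ((2 * D) ^ 95 / c)]
    with n h1 h2 h3 h4 h5 h6
  have h7 := le_two_mul_div h0 h3
  refine (typ_bound (bw_isW p0.le p1.le) hC h2 h0 (by simpa) (by simp)
    (fun M => if n / h ≤ M then 2 / K else D / ((n / M : ℕ) * √n)) (B := c ^ (n / h))
    fun M hM => ?_).trans (le_trans ?_ h1)
  swap
  · rw [Fintype.card_fin, mul_assoc]
    gcongr
    calc _ ≤ (16 ^ (2 * h)) ^ (n / h) * c ^ (n / h) := by rw [← pow_mul]; gcongr; norm_num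
      _ = _ := by rw [← mul_pow]; congr 1; simp only [c]; field_simp
  rw [Fintype.card_fin] at hM ⊢
  generalize n / h = u at *
  obtain ⟨M1, M2⟩ := mem_Icc.1 hM
  have n0 : (0 : ℝ) < n := by exact_mod_cast (by omega)
  have u1 : (1 : ℝ) ≤ u := by exact_mod_cast h2
  have s1 : 1 ≤ √n := D1.trans h5
  have s2 : √n * √n = n := Real.mul_self_sqrt n0.le
  have s3 : √n ≤ h * √(2 * u : ℕ) := by
    refine Real.sqrt_le_iff.2 ⟨by positivity, ?_⟩
    rw [mul_pow, Real.sq_sqrt (by positivity)]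
    have : (n : ℝ) ≤ 2 * h * u := by exact_mod_cast h7
    push_cast
    nlinarith only [hh, s2, this, mul_pos (zero_lt_one.trans_le hh) (zero_lt_one.trans_le u1)]
  have s4 : (0 : ℝ) < √(2 * u : ℕ) := Real.sqrt_pos.2 (by exact_mod_cast (by omega))
  split_ifs with hu
  · refine ⟨by positivity, by rwa [div_le_one (by positivity)], fun l hl _ => ?_, ?_⟩
    · have h8 : (K : ℝ) ≤ l := by exact_mod_cast hl.le
      rw [show (2 : ℝ) / K = 1 / K + 1 / K by ring, min_eq_right hu]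
      gcongr ?_ + ?_
      · gcongr
      rw [div_le_div_iff₀ (by positivity) (by positivity)]
      have h9 : C * K ≤ √(2 * u : ℕ) := le_of_mul_le_mul_right (by linarith) (zero_lt_one.trans_le hh)
      push_cast at h9 s4 ⊢
      nlinarith only [h9, s4]
    · have h8 : n / M ≤ 2 * h := (Nat.div_le_div_left hu h2).trans
        (Nat.div_le_of_le_mul (by linarith))
      have h9 : ((n / M : ℕ) : ℝ) ≤ 2 * h := by exact_mod_cast h8
      rw [pow_mul, pow_mul, ← mul_pow]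
      gcongr
      calc _ ≤ (2 * h * (2 * (2 / K))) ^ 95 * (K : ℝ) ^ 20 := by
            gcongr
            rw [one_div_div]; linarith only [p0, p1, K3]
        _ = (8 * h) ^ 95 / K ^ 75 := by
            exact typ_pw1 _ _ (by positivity)
        _ ≤ (8 * h) ^ 95 / K := by gcongr; exact le_self_pow₀ (by linarith only [p0, p1, K3]) (by norm_num)
        _ ≤ c := by rw [div_le_iff₀ c0] at K1; rw [div_le_iff₀ (by positivity)]; exact K1.trans_eq (mul_comm _ _)
  · have q1 : (1 : ℝ) ≤ (n / M : ℕ) := by exact_mod_cast Nat.div_pos M2 (by omega)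
    have q2 : ((n / M : ℕ) : ℝ) * M ≤ n := by exact_mod_cast Nat.div_mul_le_self n M
    have q3 : ((n / M : ℕ) : ℝ) ≤ n := by exact_mod_cast Nat.div_le_self n M
    generalize ((n / M : ℕ) : ℝ) = q at *
    refine ⟨by positivity, by rw [div_le_one (by positivity)]; nlinarith only [p0, p1, D1, h5, q1], fun l hl h8 => ?_, ?_⟩
    · have l0 : (0 : ℝ) < l := by exact_mod_cast (by omega)
      have h9 : n * √n ≤ l * M := by
        refine (abs_le_of_sq_le_sq' ?_ (by positivity)).2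
        rw [mul_pow, Real.sq_sqrt n0.le, ← pow_succ]
        exact_mod_cast h8.resolve_left hu
      have h10 : n * √n ≤ h ^ 2 * ((2 * u : ℕ) * √(2 * u : ℕ)) := by
        calc _ ≤ (h * (2 * u : ℕ)) * (h * √(2 * u : ℕ)) := by
              gcongr; exact_mod_cast (by linarith only [h7])
          _ = _ := by ring
      rw [min_eq_left (by omega)]
      calc _ ≤ M / (n * √n) + C * h ^ 2 * M / (n * √n) := by
            gcongr ?_ + ?_
            · rw [div_le_div_iff₀ l0 (by positivity)]; linarith only [h9]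
            · rw [div_le_div_iff₀ (by positivity) (by positivity)]
              calc _ ≤ C * M * (h ^ 2 * ((2 * u : ℕ) * √(2 * u : ℕ))) := by gcongr
                _ = _ := by ring
        _ = D * (q * M) / (q * n * √n) := by simp only [D]; field_simp
        _ ≤ D * n / (q * n * √n) := by gcongr
        _ = _ := by field_simp
    · rw [pow_mul, pow_mul, ← mul_pow]
      gcongr
      calc _ ≤ (q * (2 * (D / (q * √n)))) ^ 95 * (√n ^ 3) ^ 20 := by
            gcongr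
            rw [one_div_div, div_le_iff₀ (by positivity)]
            calc q * √n ≤ n * √n * 1 := by rw [mul_one]; gcongr
              _ ≤ √n ^ 3 * D := by rw [pow_succ, sq, s2]; gcongr
        _ = (2 * D) ^ 95 / √n ^ 35 := typ_pw2 _ _ _ (by positivity) (by positivity)
        _ ≤ (2 * D) ^ 95 / √n := by gcongr; exact le_self_pow₀ s1 (by norm_num)
        _ ≤ c := by rw [div_le_iff₀ c0] at h6; rw [div_le_iff₀ (by positivity)]; exact h6.trans_eq (mul_comm _ _)

theorem good_whp : ∃ h : ℕ, 6 ≤ h ∧ ∀ᶠ K : ℕ in atTop, ∀ᶠ n : ℕ in atTop,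
    Pr (gw p) (fun ω : Sym2 (Fin n) → Bool => ¬ Good (n / h) h K ω) ≤ 1 / (n : ℝ) ^ 2 := by
  have hw := bw_isW p0.le p1.le
  obtain ⟨h, h1, h2, h3, h4⟩ := ((eventually_ge_atTop 6).and ((pair_fail p0 p1 true true 0).and
    ((pair_fail p0 p1 true false 104).and (rob_fail p0 p1)))).exists
  refine ⟨h, h1, ?_⟩
  filter_upwards [typ_fail p0 p1 (h := h) (by omega)] with K h5
  filter_upwards [h2, h3, h4, h5, cor_fail p0 p1 (h := h) (by omega)] with n a1 a2 a3 a4 a5
  refine (Pr_or hw.pw fun ω hω => ?_).trans ((add_le_add a1 ((Pr_or hw.pw fun _ h => h).trans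
    (add_le_add a2 ((Pr_or hw.pw fun _ h => h).trans (add_le_add a3 ((Pr_or hw.pw
      fun _ h => h).trans (add_le_add a4 a5))))))).trans_eq (by ring))
  by_contra hc
  simp only [not_or, not_exists, not_and, not_le, not_not] at hc
  obtain ⟨c1, c2, c3, c4, c5⟩ := hc
  have b1 : Conn ω := fun i j hij => by
    obtain ⟨k, hk⟩ := card_pos.1 ((Nat.zero_le _).trans_lt (c1 i j hij))
    exact ⟨k, (mem_filter.1 hk).2⟩
  refine hω ⟨b1, fun z y hzy => (c2 z y hzy).le.trans (card_le_card fun k hk => ?_), c5 b1, c3,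
    c4 b1 (c5 b1) c3⟩
  obtain ⟨k1, k2, k3⟩ := mem_filter.1 hk
  exact mem_filter.2 ⟨k1, by simp [k2, k3]⟩

end Pool.Agent.Work.MP_c383cf_pr
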