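import Pool.Agent.Work.MP_c383cf_pr.Adapt

namespace Pool.Agent.Work.MP_c383cf_pr

open Finset Module

variable {V : Type} [Fintype V] [DecidableEq V]

/-- The edges between two vertex sets. -/
def blk (I J : Finset V) (q : I × J) : Sym2 V := s(q.1.1, q.2.1)

omit [Fintype V] [DecidableEq V] in
lemma blk_inj {I J : Finset V} (h : Disjoint I J) : Function.Injective (blk I J) := by
  rintro ⟨⟨i, hi⟩, ⟨j, hj⟩⟩ ⟨⟨i', hi'⟩, ⟨j', hj'⟩⟩ e
  rcases Sym2.eq_iff.1 e with ⟨rfl, rfl⟩ | ⟨rfl, rfl⟩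
  · rfl
  · exact absurd hj' (disjoint_left.1 h hi)

omit [Fintype V] [DecidableEq V] in
lemma blk_out {I J : Finset V} {i j : V} (h1 : ¬ (i ∈ I ∧ j ∈ J)) (h2 : ¬ (j ∈ I ∧ i ∈ J)) :
    ¬ ∃ q, blk I J q = s(i, j) := by
  rintro ⟨⟨⟨a, ha⟩, ⟨b, hb⟩⟩, e⟩
  rcases Sym2.eq_iff.1 e with ⟨rfl, rfl⟩ | ⟨rfl, rfl⟩
  · exact h1 ⟨ha, hb⟩
  · exact h2 ⟨ha, hb⟩

/-- Overwrite the edges between two vertex sets. -/
noncomputable def ow (I J : Finset V) (ω : Sym2 V → Bool) (b : I → J → Bool) : Sym2 V → Bool :=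
  Function.extend (blk I J) (Function.uncurry b) ω

omit [Fintype V] [DecidableEq V] in
lemma ow_in {I J : Finset V} (h : Disjoint I J) (ω : Sym2 V → Bool) (b : I → J → Bool) (i : I)
    (j : J) : ow I J ω b s(i.1, j.1) = b i j := (blk_inj h).extend_apply _ _ (i, j)

omit [Fintype V] [DecidableEq V] in
lemma ow_out {I J : Finset V} (ω : Sym2 V → Bool) (b : I → J → Bool) {i j : V}
    (h1 : ¬ (i ∈ I ∧ j ∈ J)) (h2 : ¬ (j ∈ I ∧ i ∈ J)) : ow I J ω b s(i, j) = ω s(i, j) :=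
  Function.extend_apply' _ _ _ (blk_out h1 h2)

/-- The weight of the random graph. -/
noncomputable abbrev gw (p : ℝ) : (Sym2 V → Bool) → ℝ := pw (bw p)

variable {p : ℝ}

lemma Ex_block (hw : IsW (bw p)) {I J : Finset V} (h : Disjoint I J) (F : (Sym2 V → Bool) → ℝ) :
    Ex (gw p) F = Ex (gw p) fun ω => Ex (pw (pw (bw p))) fun b => F (ow I J ω b) := by
  rw [Ex_extend hw (blk_inj h)]
  exact Ex_congr fun ω => Ex_curry _

lemma count_tail (hw : IsW (bw p)) {z y : V} (h : z ≠ y) (c d : Bool) (t : ℕ) :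
    Pr (gw p) (fun ω : Sym2 V → Bool => (({z, y}ᶜ : Finset V).filter
      fun k => ω s(k, z) = c ∧ ω s(k, y) = d).card ≤ t) ≤
      2 ^ t * (1 - bw p c * bw p d / 2) ^ (Fintype.card V - 2) := by
  let I : Finset V := {z, y}ᶜ
  have h1 : ∀ ω : Sym2 V → Bool, ∏ k : I, (1 - ind (ω s(k.1, z) = c ∧ ω s(k.1, y) = d) / 2) =
      (1 / 2) ^ (I.filter fun k => ω s(k, z) = c ∧ ω s(k, y) = d).card := by
    intro ω
    rw [prod_coe_sort I fun k => 1 - ind (ω s(k, z) = c ∧ ω s(k, y) = d) / 2, ← prod_const,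
      prod_filter]
    refine prod_congr rfl fun k _ => ?_
    split_ifs with hk
    · rw [ind_pos hk]; norm_num
    · rw [ind_neg hk]; norm_num
  refine (Pr_le_Ex hw.pw (f := fun ω => 2 ^ t * ∏ k : I,
    (1 - ind (ω s(k.1, z) = c ∧ ω s(k.1, y) = d) / 2)) (fun ω => by rw [h1]; positivity)
    fun ω hω => ?_).trans ?_
  · rw [h1, one_div, inv_pow, ← div_eq_mul_inv, one_le_div (by positivity)]
    exact pow_le_pow_right₀ one_le_two hω
  have hd : Disjoint I {z, y} := disjoint_compl_left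
  rw [Ex_const_mul, Ex_block hw hd]
  gcongr
  refine Ex_le hw.pw fun ω => le_of_eq ?_
  let z' : ({z, y} : Finset V) := ⟨z, by simp⟩
  let y' : ({z, y} : Finset V) := ⟨y, by simp⟩
  have h0 : (univ : Finset ({z, y} : Finset V)) = {z', y'} := by
    refine (eq_univ_of_forall ?_).symm
    rintro ⟨j, hj⟩
    simpa [z', y'] using hj
  have h2 : ∀ (b : I → ({z, y} : Finset V) → Bool) (k : I),
      (1 - ind (ow I {z, y} ω b s(k.1, z) = c ∧ ow I {z, y} ω b s(k.1, y) = d) / 2) =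
        1 - (1 / 2) * ∏ j, ind (b k j = if j = z' then c else d) := by
    intro b k
    rw [ow_in hd ω b k z', ow_in hd ω b k y', ind_and, h0, prod_pair (by simpa [z', y'] using h),
      if_pos rfl, if_neg (by simpa [z', y'] using h.symm)]
    ring
  simp only [h2]
  rw [Ex_prod fun _ (x : ({z, y} : Finset V) → Bool) =>
    1 - (1 / 2) * ∏ j, ind (x j = if j = z' then c else d), prod_const, card_univ,
    Fintype.card_coe, card_compl, card_pair h, Ex_sub, Ex_const hw.pw, Ex_const_mul,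
    Ex_prod fun j (x : Bool) => ind (x = if j = z' then c else d),
    h0, prod_pair (by simpa [z', y'] using h),
    if_pos rfl, if_neg (by simpa [z', y'] using h.symm)]
  have h3 : ∀ c : Bool, Ex (bw p) (fun x => ind (x = c)) = bw p c := fun c => by
    cases c <;> simp [Ex, ind_pos, ind_neg]
  rw [h3, h3]; ring

/-- Dimension of `KK` modulo `l`. -/
noncomputable def dimK (l : ℕ) (ω : Sym2 V → Bool) (Y : Finset V) : ℕ :=
  finrank (ZMod l) (KK (ZMod l) ω Y)

lemma corank_prime (hw : IsW (bw p)) (l : ℕ) [Fact l.Prime] (Y : Finset V) (u : ℕ) :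
    Pr (gw p) (fun ω => 2 * u ≤ dimK l ω Y) ≤ 4 ^ Fintype.card V * max p (1 - p) ^ (u * u) := by
  refine (Pr_union_le hw.pw (univ.filter fun Q : Finset V × Finset V => Disjoint Q.1 Q.2 ∧
    Q.1.card = u ∧ Q.2.card = u) (fun Q ω => ∀ q ∈ Q.1 ∪ Q.2, ∃ v ∈ KK (ZMod l) ω Y,
      ∀ q' ∈ Q.1 ∪ Q.2, v q' = if q' = q then 1 else 0) (fun ω hω => ?_)
    (c := max p (1 - p) ^ (u * u)) fun Q hQ => ?_).trans ?_
  · obtain ⟨Q, -, hc, hv⟩ := pivot univ _ _ (fun v _ h => funext fun i => h i (mem_univ i)) hω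
    obtain ⟨A, hA, hA2⟩ := exists_subset_card_eq (s := Q) (n := u) (by omega)
    refine ⟨(A, Q \ A), mem_filter.2 ⟨mem_univ _, disjoint_sdiff, hA2, ?_⟩, ?_⟩
    · rw [card_sdiff_of_subset hA]; omega
    · simpa only [union_sdiff_of_subset hA] using hv
  · obtain ⟨h1, h2, h3⟩ := (mem_filter.1 hQ).2
    refine (Pr_determined hw (bw_le p) (blk_inj h1) ?_).trans_eq (by simp [h2, h3])
    rintro ω ω' hω hω' hout ⟨⟨a, ha⟩, ⟨b, hb⟩⟩
    have hab : a ≠ b := fun e => disjoint_left.1 h1 ha (e ▸ hb)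
    obtain ⟨v, v1, v2⟩ := hω b (mem_union_right _ hb)
    obtain ⟨v', v1', v2'⟩ := hω' a (mem_union_left _ ha)
    have e1 := KK_pair v1'.1 v1.2
    have e2 := KK_pair v1.1 v1'.2
    rw [lap_symm] at e2
    have e3 : ∑ i, v' i * ∑ j, (adj (ZMod l) ω i j - adj (ZMod l) ω' i j) * (v i - v j) = 0 := by
      simp only [sub_mul, sum_sub_distrib, mul_sub (v' _), ← lap_apply, e1, e2, sub_self]
    have e4 : ∀ i j, i ∉ Q.1 ∪ Q.2 ∨ j ∉ Q.1 ∪ Q.2 → adj (ZMod l) ω i j = adj (ZMod l) ω' i j := by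
      intro i j hij
      unfold adj
      rw [hout _ (blk_out _ _)] <;> simp only [mem_union] at hij <;> tauto
    rw [sum_eq_single a (fun i _ hi => ?_) (by simp), sum_eq_single b (fun j _ hj => ?_) (by simp),
      v2' a (mem_union_left _ ha), v2 a (mem_union_left _ ha), v2 b (mem_union_right _ hb),
      if_pos rfl, if_pos rfl, if_neg hab] at e3
    · simp only [adj, one_mul, zero_sub, mul_neg, mul_one, neg_eq_zero, sub_eq_zero] at e3
      change ω s(a, b) = ω' s(a, b)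
      revert e3
      cases ω s(a, b) <;> cases ω' s(a, b) <;> simp
    · by_cases h : j ∈ Q.1 ∪ Q.2
      · rw [v2 a (mem_union_left _ ha), v2 j h, if_neg hab, if_neg hj, sub_self, mul_zero]
      · rw [e4 a j (Or.inr h), sub_self, zero_mul]
    · by_cases h : i ∈ Q.1 ∪ Q.2
      · rw [v2' i h, if_neg hi, zero_mul]
      · simp [e4 i _ (Or.inl h)]
  · have := (hw.nn true).trans (bw_le p true)
    gcongr
    have := card_le_univ (univ.filter fun Q : Finset V × Finset V => Disjoint Q.1 Q.2 ∧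
      Q.1.card = u ∧ Q.2.card = u)
    rw [Fintype.card_prod, Fintype.card_finset, ← mul_pow] at this
    exact_mod_cast this

/-- All coranks are small. -/
def Cor (u : ℕ) (ω : Sym2 V → Bool) : Prop :=
  ∀ l : ℕ, l.Prime → ∀ Y : Finset V, Y.Nonempty → dimK l ω Y < 2 * u

lemma corank_all (hw : IsW (bw p)) {u h : ℕ} (hu : 1 ≤ u) (hV : 1 ≤ Fintype.card V)
    (hn : Fintype.card V ≤ 2 * h * u) : Pr (gw p) (fun ω : Sym2 V → Bool => Conn ω ∧ ¬ Cor u ω) ≤
      (Fintype.card V ^ (2 * h) + 1) * 8 ^ Fintype.card V * max p (1 - p) ^ (u * u) := by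
  refine (Pr_union_le hw.pw (((range (Fintype.card V ^ (2 * h) + 1)).filter Nat.Prime) ×ˢ
    (univ : Finset (Finset V))) (fun x ω => 2 * u ≤ dimK x.1 ω x.2) (fun ω hω => ?_)
    (c := 4 ^ Fintype.card V * max p (1 - p) ^ (u * u)) fun x hx => ?_).trans ?_
  · obtain ⟨h1, h2⟩ := hω
    simp only [Cor, not_forall, not_lt] at h2
    obtain ⟨l, hl, Y, hY, h3⟩ := h2
    refine ⟨(l, Y), by
      simp only [mem_product, mem_filter, mem_range, mem_univ, and_true, hl]
      have := Fact.mk hl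
      have h4 := (Nat.le_of_dvd (Int.natAbs_pos.2 (MY_det_ne h1 hY)) (KK_pow_dvd l ω Y)).trans
        (MY_det_le ω Y hV)
      have h5 : l ^ (2 * u) ≤ (Fintype.card V ^ (2 * h)) ^ (2 * u) := by
        rw [← pow_mul]
        exact (Nat.pow_le_pow_right hl.pos h3).trans (h4.trans
          (Nat.pow_le_pow_right hV (by nlinarith)))
      exact Nat.lt_succ_of_le ((Nat.pow_le_pow_iff_left (by omega)).1 h5), h3⟩
  · have := Fact.mk (mem_filter.1 (mem_product.1 hx).1).2
    exact corank_prime hw x.1 x.2 u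
  · rw [← mul_assoc]
    refine mul_le_mul_of_nonneg_right ?_ (pow_nonneg ((hw.nn true).trans (bw_le p true)) _)
    rw [card_product, card_univ, Fintype.card_finset, show (8 : ℝ) = 2 * 4 by norm_num, mul_pow,
      ← mul_assoc]
    gcongr
    have := (card_filter_le (range (Fintype.card V ^ (2 * h) + 1)) Nat.Prime)
    rw [card_range] at this
    exact_mod_cast Nat.mul_le_mul_right _ this

lemma finrank_le_card_add {F : Type} [Field F] (W : Submodule F (V → F)) (T : Finset V) :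
    ∀ U : Submodule F (V → F), (∀ v ∈ U, (∀ i ∈ T, v i = 0) → v ∈ W) →
      finrank F U ≤ T.card + finrank F W := by
  induction T using Finset.induction_on with
  | empty => exact fun U h => by simpa using Submodule.finrank_mono fun v hv => h v hv (by simp)
  | insert i T hi ih =>
    intro U h
    have h1 := finrank_le_inf_ker U (LinearMap.proj i)
    have h2 := ih (U ⊓ LinearMap.ker (LinearMap.proj i)) fun v hv h0 => h v hv.1 fun j hj => by
      rcases mem_insert.1 hj with rfl | hj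
      · exact hv.2
      · exact h0 j hj
    rw [card_insert_of_notMem hi]; omega

theorem pattern (hw : IsW (bw p)) (hV : 1 ≤ Fintype.card V) {I J S Rp : Finset V}
    (hIJ : Disjoint I J) (hS : Disjoint S (I ∪ J)) {π : V → V} (hπ : ∀ i ∈ I, π i ∈ Rp)
    (Good : (V → V → Prop) → Prop)
    (anti : ∀ R R' : V → V → Prop, (∀ i j, R' i j → R i j) → Good R → Good R')
    (P : ℕ → Prop) (hP : ∀ N, ∃ l, l.Prime ∧ N < l ∧ P l) {β y : ℝ} (hβ : 0 ≤ β) (hy : 1 ≤ y)
    (hb : ∀ l : ℕ, l.Prime → P l → ∀ v : V → ZMod l, Good (fun i j => v i = v j) → ∀ i ∈ I, ∀ t,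
      Pr (pw (bw p)) (fun b : J → Bool => ∑ j : J, (if b j then v i - v j else 0) = t) ≤ β)
    {r₀ r : ℕ} (hr : Rp.card + (I ∪ S)ᶜ.card + r₀ ≤ r) :
    Pr (gw p) (fun ω => (∀ l : ℕ, l.Prime → dimK l ω Sᶜ ≤ r₀) ∧ KK ℚ ω Sᶜ = ⊥ ∧
      ∃ l : ℕ, l.Prime ∧ P l ∧ ∃ v : V → ZMod l, (∀ i ∈ I, v i = v (π i)) ∧
        (∀ i ∈ I ∪ S, lap ω v i = 0) ∧ Good fun i j => v i = v j) ≤
      4 * Fintype.card V ^ 2 * (β + 1 / y) ^ I.card * y ^ (2 * r) := by
  rw [Pr, Ex_block hw hIJ]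
  refine Ex_le hw.pw fun ω => ?_
  have hS' : ∀ i ∈ S, i ∉ I ∧ i ∉ J := fun i hi => by simpa using disjoint_left.1 hS hi
  have l1 : ∀ (F : Type) [CommRing F] b (v : V → F), ∀ i ∈ S, lap (ow I J ω b) v i = lap ω v i :=
    fun F _ b v i hi => sum_congr rfl fun j _ => by
      unfold adj; rw [ow_out] <;> simp [hS' i hi]
  have l2 : ∀ (F : Type) [CommRing F] b, KK F (ow I J ω b) Sᶜ = KK F ω Sᶜ := fun F _ b => by
    ext v
    simp only [mem_KK, mem_compl, not_not]
    exact and_congr_right fun _ => forall₂_congr fun i hi => by rw [l1 F b v i hi]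
  have l3 : ∀ (F : Type) [CommRing F] b (v : V → F) (i : I), lap (ow I J ω b) v i =
      ∑ j : J, (if b i j then v i - v j else 0) + ∑ j ∈ Jᶜ, adj F ω i j * (v i - v j) := by
    intro F _ b v i
    rw [lap_apply, ← sum_add_sum_compl J, ← sum_coe_sort]
    congr 1
    · exact sum_congr rfl fun j _ => by unfold adj; rw [ow_in hIJ]; simp
    · refine sum_congr rfl fun j hj => ?_
      unfold adj
      rw [ow_out] <;> simp [mem_compl.1 hj, disjoint_left.1 hIJ i.2]
  by_cases hc : (∀ l : ℕ, l.Prime → dimK l ω Sᶜ ≤ r₀) ∧ KK ℚ ω Sᶜ = ⊥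
  swap
  · refine (Pr_zero (μ := pw (pw (bw p))) fun b hb => hc ⟨?_, ?_⟩).trans_le (by positivity)
    · intro l hl
      have := hb.1 l hl
      unfold dimK at this ⊢
      rwa [l2] at this
    · simpa only [l2] using hb.2.1
  let L := I.image (fun i j => (if j = i then 1 else 0) - if j = π i then (1 : ℤ) else 0) ∪
    S.image (lrow ω)
  have l4 : ∀ (F : Type) [CommRing F] (v : V → F), v ∈ kerL F L ↔
      (∀ i ∈ I, v i = v (π i)) ∧ ∀ i ∈ S, lap ω v i = 0 := by
    intro F _ v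
    simp [L, mem_kerL, or_imp, forall_and, dotL_apply, lrow_dot, sub_mul, sub_eq_zero]
  have l5 : ∀ (F : Type) [Field F], finrank F (kerL F L) ≤
      Rp.card + (I ∪ S)ᶜ.card + finrank F (KK F ω Sᶜ) := by
    intro F _
    refine (finrank_le_card_add (KK F ω Sᶜ) (Rp ∪ (I ∪ S)ᶜ) _ fun v hv h0 => ?_).trans
      (Nat.add_le_add_right (card_union_le _ _) _)
    obtain ⟨h1, h2⟩ := (l4 F v).1 hv
    refine ⟨fun i hi => ?_, fun i hi => h2 i (by simpa using hi)⟩
    by_cases h : i ∈ I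
    · rw [h1 i h]; exact h0 _ (mem_union_left _ (hπ i h))
    · exact h0 i (by simp [h, mem_compl.1 hi])
  have := adaptive_multi hw.pw hV (fun (i : I) (x : J → Bool) => lrow (ow I J ω fun _ => x) i)
    (fun _ _ _ => lrow_le _ _ _) Good anti P hP hβ hy (fun l l1 l2 v hv i => ?_) L
    (fun g hg j => ?_) (r := r) (fun l l1 _ => ?_) ?_
  · rw [Fintype.card_coe] at this
    refine le_trans (Pr_mono hw.pw.pw ?_) this
    rintro b ⟨-, -, l, h1, h2, v, h3, h4, h5⟩
    refine ⟨l, h1, h2, v, (l4 _ v).2 ⟨h3, fun i hi => ?_⟩, h5, fun i => ?_⟩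
    · rw [← l1 _ b v i hi]; exact h4 i (mem_union_right _ hi)
    · rw [dotL_apply, lrow_dot, l3, ← l3]; exact h4 i (mem_union_left _ i.2)
  · refine le_trans (le_of_eq (Pr_congr fun x => ?_))
      (hb l l1 l2 v hv i i.2 (-∑ j ∈ Jᶜ, adj _ ω i j * (v i - v j)))
    rw [dotL_apply, lrow_dot, l3, eq_neg_iff_add_eq_zero]
  · rcases mem_union.1 hg with hg | hg <;> obtain ⟨i, -, rfl⟩ := mem_image.1 hg
    · refine le_trans ?_ (Int.ofNat_le.2 hV)
      beta_reduce
      split_ifs <;> simp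
    · exact lrow_le _ _ _
  · have := Fact.mk l1
    exact (l5 _).trans ((Nat.add_le_add_left (hc.1 l l1) _).trans hr)
  · refine (l5 ℚ).trans ?_
    rw [hc.2, finrank_bot]; omega

end Pool.Agent.Work.MP_c383cf_pr
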