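import Mathlib.Combinatorics.SimpleGraph.LapMatrix
import Mathlib.GroupTheory.SpecificGroups.Cyclic

namespace Pool.Agent.Work.MP_c383cf_pr

/-- Divisors of degree zero: integer vectors with coordinate sum zero. -/
def div0 (n : ℕ) : AddSubgroup (Fin n → ℤ) where
  carrier := {D | ∑ i, D i = 0}
  add_mem' := fun {a b} ha hb => by
    simp only [Set.mem_ofPred_eq, Pi.add_apply, Finset.sum_add_distrib] at *
    rw [ha, hb, add_zero]
  zero_mem' := by simp
  neg_mem' := fun {a} ha => by
    simp only [Set.mem_ofPred_eq, Pi.neg_apply, Finset.sum_neg_distrib] at *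
    rw [ha, neg_zero]

open Classical in
/-- Principal divisors: the image of the Laplacian, as a subgroup of `div0`. -/
noncomputable def prin {n : ℕ} (G : SimpleGraph (Fin n)) : AddSubgroup (div0 n) :=
  (G.lapMatrix ℤ).mulVecLin.toAddMonoidHom.range.addSubgroupOf (div0 n)

/-- The Jacobian (sandpile group) of a graph. -/
abbrev Jac {n : ℕ} (G : SimpleGraph (Fin n)) : Type := div0 n ⧸ prin G

/-- The divisor `e_x - e_y`. -/
def delta {n : ℕ} (x y : Fin n) : div0 n :=
  ⟨Pi.single x 1 - Pi.single y 1, by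
    change ∑ i, (Pi.single x 1 - Pi.single y 1 : Fin n → ℤ) i = 0
    simp⟩

end Pool.Agent.Work.MP_c383cf_pr
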