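import Pool.Agent.Work.MP_c383cf_pr.Prob
import Mathlib.Analysis.SpecialFunctions.Complex.CircleAddChar
import Mathlib.Combinatorics.Additive.CauchyDavenport
import Mathlib.Analysis.SpecificLimits.Normed

namespace Pool.Agent.Work.MP_c383cf_pr

open Finset Pointwise

section Fourier
variable {m : ℕ} [NeZero m]

/-- The standard character. -/
noncomputable abbrev chi (x : ZMod m) : ℂ := ZMod.stdAddChar x

lemma chi_norm (x : ZMod m) : ‖chi x‖ = 1 := by
  simp [chi, ZMod.stdAddChar_apply]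

lemma chi_add (x y : ZMod m) : chi (x + y) = chi x * chi y := AddChar.map_add_eq_mul _ _ _

lemma chi_zero : chi (0 : ZMod m) = 1 := AddChar.map_zero_eq_one _

lemma chi_sum {κ : Type} (s : Finset κ) (f : κ → ZMod m) :
    chi (∑ j ∈ s, f j) = ∏ j ∈ s, chi (f j) := by
  classical
  induction s using Finset.induction_on with
  | empty => simp
  | insert a s ha ih => rw [sum_insert ha, prod_insert ha, chi_add, ih]

lemma chi_orth (t : ZMod m) : ∑ x : ZMod m, chi (x * t) = ((m * ind (t = 0) : ℝ) : ℂ) := by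
  rw [AddChar.sum_mulShift t (ZMod.isPrimitive_stdAddChar m), ZMod.card]
  by_cases h : t = 0 <;> simp [h, ind_pos, ind_neg]

lemma chi_orth_re (t : ZMod m) : ∑ x : ZMod m, (chi (x * t)).re = m * ind (t = 0) := by
  rw [← Complex.re_sum, chi_orth, Complex.ofReal_re]

lemma chi_sq (x : ZMod m) : (chi x).re ^ 2 + (chi x).im ^ 2 = 1 := by
  have := Complex.sq_norm (chi x)
  rw [chi_norm, Complex.normSq_apply] at this
  linarith

lemma chi_sub_re (x y : ZMod m) :
    (chi (x - y)).re = (chi x).re * (chi y).re + (chi x).im * (chi y).im := by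
  have h : chi x = chi (x - y) * chi y := by rw [← chi_add, sub_add_cancel]
  have h1 := chi_sq y
  rw [h, Complex.mul_re, Complex.mul_im]
  linear_combination (-(chi (x - y)).re) * h1

/-- Squared chord length. -/
noncomputable def ch (x : ZMod m) : ℝ := ‖1 - chi x‖

lemma ch_nonneg (x : ZMod m) : 0 ≤ ch x := norm_nonneg _

lemma ch_sq (x : ZMod m) : ch x ^ 2 = 2 - 2 * (chi x).re := by
  rw [ch, Complex.sq_norm, Complex.normSq_apply]
  have := chi_sq x
  simp only [Complex.sub_re, Complex.one_re, Complex.sub_im, Complex.one_im]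
  linarith

lemma ch_add (x y : ZMod m) : ch (x + y) ≤ ch x + ch y := by
  have : 1 - chi (x + y) = (1 - chi x) + chi x * (1 - chi y) := by rw [chi_add]; ring
  rw [ch, this]
  exact (norm_add_le _ _).trans_eq (by rw [norm_mul, chi_norm, one_mul]; rfl)

lemma ch_pos {x : ZMod m} (hx : x ≠ 0) : 0 < ch x := by
  rw [ch, norm_pos_iff, sub_ne_zero]
  intro h
  exact hx (ZMod.injective_stdAddChar (h.symm.trans (chi_zero (m := m)).symm))

/-- The characteristic function of a Bernoulli variable. -/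
noncomputable def phi (p : ℝ) (x : ZMod m) : ℝ := ‖(p : ℂ) * chi x + (1 - p)‖

lemma phi_nonneg (p : ℝ) (x : ZMod m) : 0 ≤ phi p x := norm_nonneg _

lemma phi_le_exp (p : ℝ) (x : ZMod m) : phi p x ≤ Real.exp (-(p * (1 - p) / 2 * ch x ^ 2)) := by
  have h1 : phi p x ^ 2 = 1 - p * (1 - p) * ch x ^ 2 := by
    rw [ch_sq, phi, Complex.sq_norm, Complex.normSq_apply]
    have := chi_sq x
    simp only [Complex.add_re, Complex.mul_re, Complex.ofReal_re, Complex.ofReal_im,
      Complex.sub_re, Complex.one_re, Complex.add_im, Complex.mul_im, Complex.sub_im,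
      Complex.one_im]
    linear_combination p ^ 2 * this
  refine abs_le_of_sq_le_sq' ?_ (Real.exp_pos _).le |>.2
  rw [h1, ← Real.exp_nat_mul]
  have := Real.add_one_le_exp (((2 : ℕ) : ℝ) * -(p * (1 - p) / 2 * ch x ^ 2))
  push_cast at this ⊢
  linarith

lemma fourier_bound (p : ℝ) {κ Ξ : Type} [Fintype κ] [DecidableEq κ]
    [Fintype Ξ] {A : (κ → Bool) → Prop} {N : ℝ} (s : Ξ → ZMod m) (t : Ξ → κ → ZMod m)
    (h : ∀ b, ((N * ind (A b) : ℝ) : ℂ) = ∑ ξ, chi (s ξ + ∑ j, if b j then t ξ j else 0)) :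
    N * Pr (pw (bw p)) A ≤ ∑ ξ, ∏ j, phi p (t ξ j) := by
  have e : ((N * Pr (pw (bw p)) A : ℝ) : ℂ) =
      ∑ ξ, chi (s ξ) * ∏ j, ((p : ℂ) * chi (t ξ j) + (1 - p)) := by
    have e1 : ∀ ξ j, (p : ℂ) * chi (t ξ j) + (1 - p) =
        ∑ x : Bool, (bw p x : ℂ) * chi (if x then t ξ j else 0) := by
      intro ξ j; simp [bw]
    simp only [e1, prod_univ_sum, Fintype.piFinset_univ, mul_sum]
    rw [Pr, ← Ex_const_mul, Ex, Complex.ofReal_sum, sum_comm]
    refine sum_congr rfl fun b _ => ?_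
    rw [Complex.ofReal_mul, h, mul_sum]
    refine sum_congr rfl fun ξ _ => ?_
    rw [chi_add, chi_sum, prod_mul_distrib, pw, Complex.ofReal_prod]; ring
  calc N * Pr (pw (bw p)) A ≤ ‖((N * Pr (pw (bw p)) A : ℝ) : ℂ)‖ := by
        rw [Complex.norm_real]; exact le_abs_self _
    _ ≤ _ := by
        rw [e]
        refine (norm_sum_le _ _).trans (sum_le_sum fun ξ _ => le_of_eq ?_)
        rw [norm_mul, chi_norm, one_mul, norm_prod]; rfl

end Fourier

section Hal
variable {l : ℕ} [Fact l.Prime] {κ : Type} (c : κ → ZMod l) (J : Finset κ)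

/-- The energy of a frequency. -/
noncomputable def en (ξ : ZMod l) : ℝ := ∑ j ∈ J, ch (ξ * c j) ^ 2

open Classical in
/-- Level sets of the energy. -/
noncomputable def lev (a : ℝ) : Finset (ZMod l) := univ.filter fun ξ => en c J ξ ≤ a ^ 2

lemma mem_lev {a : ℝ} {ξ : ZMod l} : ξ ∈ lev c J a ↔ en c J ξ ≤ a ^ 2 := by simp [lev]

lemma en_nonneg (ξ : ZMod l) : 0 ≤ en c J ξ := sum_nonneg fun _ _ => sq_nonneg _

lemma zero_mem_lev (a : ℝ) : 0 ∈ lev c J a := by
  rw [mem_lev]; simp [en, ch, sq_nonneg]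

lemma lev_add {a b : ℝ} (ha : 0 ≤ a) (hb : 0 ≤ b) : lev c J a + lev c J b ⊆ lev c J (a + b) := by
  intro x hx
  obtain ⟨ξ, h1, η, h2, rfl⟩ := mem_add.1 hx
  rw [mem_lev] at *
  have h3 : en c J (ξ + η) ≤ en c J ξ + en c J η + 2 * ∑ j ∈ J, ch (ξ * c j) * ch (η * c j) := by
    simp only [en, mul_sum, ← sum_add_distrib]
    refine sum_le_sum fun j _ => ?_
    have := ch_add (ξ * c j) (η * c j)
    rw [← add_mul] at this
    have := pow_le_pow_left₀ (ch_nonneg _) this 2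
    linarith
  have h4 : ∑ j ∈ J, ch (ξ * c j) * ch (η * c j) ≤ a * b := by
    refine abs_le_of_sq_le_sq' ?_ (by positivity) |>.2
    refine (sum_mul_sq_le_sq_mul_sq _ _ _).trans ?_
    rw [mul_pow]
    exact mul_le_mul h1 h2 (en_nonneg c J η) (sq_nonneg _)
  linarith

lemma lev_cd {a : ℝ} (ha : 0 ≤ a) (k : ℕ) :
    min l (k * ((lev c J a).card - 1) + 1) ≤ (lev c J (k * a)).card := by
  induction k with
  | zero => simpa using Or.inr ⟨0, zero_mem_lev c J _⟩
  | succ k ih =>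
    have h1 := ZMod.cauchy_davenport (Fact.out : l.Prime) ⟨0, zero_mem_lev c J (k * a)⟩
      ⟨0, zero_mem_lev c J a⟩
    have h2 := card_le_card (lev_add c J (a := k * a) (by positivity) ha)
    have h3 : 1 ≤ (lev c J a).card := card_pos.2 ⟨0, zero_mem_lev c J a⟩
    have h4 : ((k + 1 : ℕ) : ℝ) * a = k * a + a := by push_cast; ring
    rw [h4, Nat.succ_mul]
    omega

lemma lev_lt (hJ : J.Nonempty) (hz : 2 * (J.filter fun j => c j = 0).card ≤ J.card) {a : ℝ}
    (ha : 2 * a ^ 2 ≤ J.card) : (lev c J a).card < l := by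
  by_contra hc
  have h1 : lev c J a = univ := eq_univ_of_card _ (le_antisymm (card_le_univ _)
    (by rw [ZMod.card]; omega))
  have h2 : ∑ ξ, en c J ξ ≤ l * a ^ 2 := by
    have := sum_le_card_nsmul univ (en c J) (a ^ 2) fun ξ h => (mem_lev c J).1 (h1 ▸ h)
    rwa [card_univ, ZMod.card, nsmul_eq_mul] at this
  have h3 : ∑ ξ, en c J ξ = 2 * l * J.card - 2 * l * (J.filter fun j => c j = 0).card := by
    simp only [en, ch_sq]
    rw [sum_comm]
    simp only [sum_sub_distrib, ← mul_sum, chi_orth_re, sum_ind, sum_const, card_univ, ZMod.card,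
      nsmul_eq_mul]
    ring
  have h4 : (2 * (J.filter fun j => c j = 0).card : ℝ) ≤ J.card := by exact_mod_cast hz
  have h5 : (0 : ℝ) < J.card := by exact_mod_cast hJ.card_pos
  have h6 : (0 : ℝ) < l := by exact_mod_cast (Fact.out : l.Prime).pos
  nlinarith only [ha, h2, h3, h4, h5, h6]

lemma lev_parseval {M : ℕ} (hM : ∀ a, (J.filter fun j => c j = a).card ≤ M) {a : ℝ}
    (ha : 2 * a ^ 2 ≤ J.card) : ((lev c J a).card : ℝ) * J.card ^ 2 ≤ 2 * l * J.card * M := by
  have h1 : ∀ ξ, (∑ j ∈ J, (chi (ξ * c j)).re) ^ 2 ≤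
      ∑ j ∈ J, ∑ j' ∈ J, (chi (ξ * (c j' - c j))).re := by
    intro ξ
    simp only [mul_sub, chi_sub_re, sum_add_distrib, ← sum_mul, ← mul_sum]
    linarith [sq_nonneg (∑ j ∈ J, (chi (ξ * c j)).im)]
  have h2 : ∑ ξ : ZMod l, ∑ j ∈ J, ∑ j' ∈ J, (chi (ξ * (c j' - c j))).re ≤ l * J.card * M := by
    rw [sum_comm]
    have : ∀ j ∈ J, ∑ ξ : ZMod l, ∑ j' ∈ J, (chi (ξ * (c j' - c j))).re ≤ l * M := by
      intro j _
      rw [sum_comm]
      simp only [chi_orth_re, ← mul_sum, sub_eq_zero, sum_ind]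
      gcongr
      exact hM _
    have := sum_le_card_nsmul _ _ _ this
    rw [nsmul_eq_mul] at this
    linarith
  have h3 : ∀ ξ ∈ lev c J a, (J.card : ℝ) ^ 2 / 2 ≤ (∑ j ∈ J, (chi (ξ * c j)).re) ^ 2 := by
    intro ξ hξ
    rw [mem_lev] at hξ
    simp only [en, ch_sq, sum_sub_distrib, ← mul_sum, sum_const, nsmul_eq_mul] at hξ
    have : 3 / 4 * (J.card : ℝ) ≤ ∑ j ∈ J, (chi (ξ * c j)).re := by linarith
    have := pow_le_pow_left₀ (by positivity) this 2
    nlinarith only [this]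
  have h4 := card_nsmul_le_sum _ _ _ h3
  have h5 : ∑ ξ ∈ lev c J a, (∑ j ∈ J, (chi (ξ * c j)).re) ^ 2 ≤
      ∑ ξ, (∑ j ∈ J, (chi (ξ * c j)).re) ^ 2 :=
    sum_le_sum_of_subset_of_nonneg (subset_univ _) fun _ _ _ => sq_nonneg _
  have h6 := sum_le_sum fun ξ (_ : ξ ∈ univ) => h1 ξ
  rw [nsmul_eq_mul] at h4
  linarith

lemma lev_bound (hJ : J.Nonempty) (hz : 2 * (J.filter fun j => c j = 0).card ≤ J.card)
    {M : ℕ} (hM : ∀ a, (J.filter fun j => c j = a).card ≤ M) {m : ℕ} (hm : 1 ≤ m) :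
    (((lev c J √m).card - 1 : ℕ) : ℝ) * (J.card * √J.card) ≤ 6 * l * M * m ^ 2 := by
  set S := (lev c J √m).card - 1
  set N := J.card
  have hN : (0 : ℝ) < N := by exact_mod_cast hJ.card_pos
  have hm' : (1 : ℝ) ≤ m := by exact_mod_cast hm
  have hM1 : (1 : ℝ) ≤ M := by
    obtain ⟨j, hj⟩ := hJ
    have := hM (c j)
    exact_mod_cast lt_of_lt_of_le (card_pos.2 ⟨j, by simp [hj]⟩) this
  have hl : (0 : ℝ) ≤ l := by positivity
  set k := Nat.sqrt (N / (2 * m))
  have k1 : 2 * m * (k * k) ≤ N :=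
    (Nat.mul_le_mul_left _ (Nat.sqrt_le _)).trans (Nat.mul_div_le _ _)
  have k2 : N < 2 * m * ((k + 1) * (k + 1)) := by
    have := Nat.lt_succ_sqrt (N / (2 * m))
    rwa [Nat.div_lt_iff_lt_mul (by omega), mul_comm] at this
  have k2' : (N : ℝ) < 2 * m * ((k + 1) * (k + 1)) := by exact_mod_cast k2
  rcases Nat.eq_zero_or_pos k with hk | hk
  · have hS : (S : ℝ) ≤ l := by
      have := card_le_univ (lev c J √m)
      rw [ZMod.card] at this
      exact_mod_cast (Nat.sub_le _ _).trans this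
    rw [hk] at k2'
    have h1 : √N ≤ 2 * m := Real.sqrt_le_iff.2 ⟨by positivity, by push_cast at k2'; nlinarith only [hm', k2']⟩
    have h2 : N * √N ≤ 2 * m * (2 * m) := by
      gcongr; push_cast at k2'; linarith
    calc (S : ℝ) * (N * √N) ≤ l * (2 * m * (2 * m)) := by gcongr
      _ = 4 * l * 1 * m ^ 2 := by ring
      _ ≤ _ := by gcongr; norm_num
  · have hk' : (1 : ℝ) ≤ k := by exact_mod_cast hk
    have ha : 2 * (k * √m) ^ 2 ≤ N := by
      rw [mul_pow, Real.sq_sqrt (by positivity)]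
      have : (2 * m * (k * k) : ℝ) ≤ N := by exact_mod_cast k1
      linarith
    have h1 := lev_cd c J (Real.sqrt_nonneg m) k
    have h2 := lev_lt c J hJ hz ha
    have h3 := lev_parseval c J hM ha
    have h4 : ((k * S : ℕ) : ℝ) ≤ (lev c J (k * √m)).card := by
      have : k * S ≤ (lev c J (k * √m)).card := by simp only [S]; omega
      exact_mod_cast this
    have h5 : (k * S : ℝ) * N ≤ 2 * l * M := by
      push_cast at h4
      have : (k * S : ℝ) * N ^ 2 ≤ 2 * l * N * M := le_trans (by gcongr) h3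
      have h6 : N * ((k * S : ℝ) * N) ≤ N * (2 * l * M) := by linarith only [this]
      exact le_of_mul_le_mul_left h6 hN
    have h6 : √N ≤ 3 * k * m := Real.sqrt_le_iff.2 ⟨by positivity, by
      have : ((k : ℝ) + 1) * (k + 1) ≤ 2 * k * (2 * k) := by gcongr <;> linarith only [hk']
      have h7 : (m : ℝ) * (k * k) ≤ m ^ 2 * (k * k) := by gcongr; nlinarith only [hm']
      have h8 : 2 * (m : ℝ) * ((k + 1) * (k + 1)) ≤ 2 * m * (2 * k * (2 * k)) := by gcongr
      linarith only [hN, k2', h7, h8]⟩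
    calc (S : ℝ) * (N * √N) ≤ S * (N * (3 * k * m)) := by gcongr
      _ = 3 * ((k * S) * N) * m := by ring
      _ ≤ 3 * (2 * l * M) * m ^ 2 := by gcongr; nlinarith only [hm']
      _ = _ := by ring

end Hal

/-- Halasz-type concentration bound in `ZMod l`. -/
theorem halasz {p : ℝ} (h0 : 0 < p) (h1 : p < 1) : ∃ C : ℝ, 1 ≤ C ∧ ∀ (l : ℕ) [Fact l.Prime]
    (κ : Type) [Fintype κ] [DecidableEq κ] (c : κ → ZMod l) (J : Finset κ) (M : ℕ), J.Nonempty →
    (∀ a, (J.filter fun j => c j = a).card ≤ M) →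
    2 * (J.filter fun j => c j = 0).card ≤ J.card → ∀ t : ZMod l,
    Pr (pw (bw p)) (fun b : κ → Bool => ∑ j, (if b j then c j else 0) = t) ≤
      1 / l + C * M / (J.card * √J.card) := by
  set r := Real.exp (-(p * (1 - p) / 2))
  have hc : 0 < p * (1 - p) / 2 := by have := sub_pos.2 h1; positivity
  have r0 : 0 < r := Real.exp_pos _
  have r1 : r < 1 := Real.exp_lt_one_iff.2 (by linarith)
  have hs : Summable fun k : ℕ => r ^ k * ((k + 1 : ℕ) : ℝ) ^ 2 := by
    have := (summable_nat_add_iff 1).2 (summable_pow_mul_geometric_of_norm_lt_one 2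
      (r := r) (by rw [Real.norm_of_nonneg r0.le]; exact r1))
    refine (this.mul_left r⁻¹).congr fun k => ?_
    field_simp
    ring
  refine ⟨max 1 (6 * ∑' k : ℕ, r ^ k * ((k + 1 : ℕ) : ℝ) ^ 2), le_max_left _ _, ?_⟩
  intro l _ κ _ _ c J M hJ hM hz t
  have hl : (0 : ℝ) < l := by exact_mod_cast (Fact.out : l.Prime).pos
  have hN : (0 : ℝ) < J.card := by exact_mod_cast hJ.card_pos
  have hD : (0 : ℝ) < J.card * √J.card := by positivity
  have f1 := fourier_bound (m := l) p (N := l)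
    (A := fun b : κ → Bool => ∑ j, (if b j then c j else 0) = t) (fun ξ => -(ξ * t))
    (fun ξ j => ξ * c j) fun b => by
      rw [← ind_congr sub_eq_zero, ← chi_orth]
      refine sum_congr rfl fun ξ _ => ?_
      rw [mul_sub, mul_sum, sub_eq_neg_add]
      simp only [mul_ite, mul_zero]
  obtain ⟨K, hK⟩ : ∃ K : ℕ, ∀ ξ, ⌊en c J ξ⌋₊ < K :=
    ⟨univ.sup (fun ξ => ⌊en c J ξ⌋₊) + 1, fun ξ =>
      Nat.lt_succ_of_le (le_sup (f := fun ξ => ⌊en c J ξ⌋₊) (mem_univ ξ))⟩
  have f2 : ∀ ξ, ∏ j, phi p (ξ * c j) ≤ Real.exp (-(p * (1 - p) / 2 * en c J ξ)) := by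
    intro ξ
    calc ∏ j, phi p (ξ * c j) ≤ ∏ j, Real.exp (-(p * (1 - p) / 2 * ch (ξ * c j) ^ 2)) :=
          prod_le_prod (fun _ _ => phi_nonneg _ _) fun _ _ => phi_le_exp _ _
      _ ≤ _ := by
          rw [← Real.exp_sum, sum_neg_distrib, ← mul_sum]
          gcongr
          exact sum_le_sum_of_subset_of_nonneg (subset_univ _) fun _ _ _ => sq_nonneg _
  have f3 : ∀ ξ, Real.exp (-(p * (1 - p) / 2 * en c J ξ)) ≤
      ∑ k ∈ range K, r ^ k * ind (ξ ∈ lev c J √((k + 1 : ℕ) : ℝ)) := by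
    intro ξ
    refine le_trans ?_ (single_le_sum (f := fun k => r ^ k * ind (ξ ∈ lev c J √((k + 1 : ℕ) : ℝ)))
      (fun _ _ => mul_nonneg (by positivity) (ind_nonneg _)) (mem_range.2 (hK ξ)))
    rw [ind_pos, mul_one, ← Real.exp_nat_mul]
    · have := Nat.floor_le (en_nonneg c J ξ)
      gcongr; nlinarith only [h0, h1, hc, this]
    · rw [mem_lev, Real.sq_sqrt (by positivity)]
      exact_mod_cast (Nat.lt_floor_add_one _).le
  have f4 : ∑ ξ ∈ univ.erase 0, Real.exp (-(p * (1 - p) / 2 * en c J ξ)) ≤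
      (∑ k ∈ range K, r ^ k * ((k + 1 : ℕ) : ℝ) ^ 2) * (6 * l * M / (J.card * √J.card)) := by
    refine (sum_le_sum fun ξ _ => f3 ξ).trans ?_
    rw [sum_comm, sum_mul]
    refine sum_le_sum fun k _ => ?_
    rw [← mul_sum, sum_ind, mul_assoc]
    gcongr
    have : (univ.erase 0).filter (fun ξ => ξ ∈ lev c J √((k + 1 : ℕ) : ℝ)) =
        (lev c J √((k + 1 : ℕ) : ℝ)).erase 0 := by ext; simp
    rw [this, card_erase_of_mem (zero_mem_lev c J _), ← mul_div_assoc, le_div_iff₀ hD]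
    exact (lev_bound c J hJ hz hM (Nat.le_add_left 1 k)).trans_eq (by ring)
  have f5 := hs.sum_le_tsum (range K) fun _ _ => by positivity
  have f6 : ∑ ξ : ZMod l, ∏ j, phi p (ξ * c j) ≤ 1 + l * (max 1
      (6 * ∑' k : ℕ, r ^ k * ((k + 1 : ℕ) : ℝ) ^ 2) * M / (J.card * √J.card)) := by
    refine (sum_le_sum fun ξ _ => f2 ξ).trans ?_
    rw [← add_sum_erase _ _ (mem_univ 0)]
    refine add_le_add (Real.exp_le_one_iff.2 ?_) (f4.trans ?_)
    · have := en_nonneg c J 0
      nlinarith only [h0, h1, hc, this]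
    · calc _ = l * (6 * (∑ k ∈ range K, r ^ k * ((k + 1 : ℕ) : ℝ) ^ 2) * M /
            (J.card * √J.card)) := by ring
        _ ≤ _ := by gcongr; exact le_max_of_le_right (by gcongr)
  refine le_of_mul_le_mul_left ((f1.trans f6).trans_eq ?_) hl
  field_simp

end Pool.Agent.Work.MP_c383cf_pr
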