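import Pool.Agent.Work.MP_c383cf_pr.Asymp
import Pool.Agent.Work.MP_c383cf_pr.Chain
import Pool.Agent.Work.MP_c383cf_pr.Small
import Mathlib.Analysis.PSeries

namespace Pool.Agent.Work.MP_c383cf_pr

open Finset Module Filter Topology

lemma sqrt_cube (n : ℕ) : √((n ^ 3 : ℕ) : ℝ) = n * √n := by
  rw [Nat.cast_pow, pow_succ, Real.sqrt_mul (by positivity), Real.sqrt_sq (by positivity)]

lemma rho_of {C t : ℝ} (hC : 0 ≤ C) {n h l : ℕ} (h0 : 1 ≤ h) (hu : h ≤ n / h) (hl : 1 ≤ l)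
    (t0 : 0 < t) (t1 : t ≤ l) (t2 : t ≤ n * √n) :
    Rho (Fin n) C (n / h) h l ((1 + C * (2 * h) ^ 2 * (h + 2)) / t) := by
  have hn : h ≤ n := hu.trans (Nat.div_le_self _ _)
  have h1 := le_two_mul_div h0 hn
  generalize n / h = u at *
  refine ⟨max h (min u (Nat.sqrt (n ^ 3) / l + 1)), le_max_left _ _, ?_,
    max_le hu (min_le_left _ _), ?_⟩
  · rcases le_total u (Nat.sqrt (n ^ 3) / l + 1) with h2 | h2
    · exact Or.inl (by omega)
    · refine Or.inr ?_
      rw [Fintype.card_fin, min_eq_right h2]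
      refine (Nat.lt_succ_sqrt' _).le.trans (Nat.pow_le_pow_left ?_ _)
      exact (Nat.lt_mul_div_succ _ hl).trans_le (Nat.mul_le_mul_left _ (le_max_right _ _))
  · have l0 : (0 : ℝ) < l := by exact_mod_cast hl
    have u0 : (0 : ℝ) < u := by exact_mod_cast (by omega)
    have hh : (1 : ℝ) ≤ h := by exact_mod_cast h0
    have h2 : ((max h (min u (Nat.sqrt (n ^ 3) / l + 1)) : ℕ) : ℝ) ≤ h + 1 + n * √n / l := by
      have h3 : ((Nat.sqrt (n ^ 3) / l : ℕ) : ℝ) ≤ n * √n / l :=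
        Nat.cast_div_le.trans (by rw [← sqrt_cube]; gcongr; exact Real.nat_sqrt_le_real_sqrt)
      have h4 : max h (min u (Nat.sqrt (n ^ 3) / l + 1)) ≤ h + 1 + Nat.sqrt (n ^ 3) / l := by
        generalize Nat.sqrt (n ^ 3) / l = a; omega
      exact (Nat.cast_le.2 h4).trans (by push_cast at h3 ⊢; linarith)
    have h3 : (n : ℝ) ≤ 2 * h * u := by exact_mod_cast h1
    have h4 : n * √n ≤ (2 * h) ^ 2 * (u * √u) := by
      have : √n ≤ 2 * h * √u := Real.sqrt_le_iff.2 ⟨by positivity, by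
        rw [mul_pow, Real.sq_sqrt u0.le]; nlinarith [mul_pos (zero_lt_one.trans_le hh) u0]⟩
      calc _ ≤ (2 * h * u) * (2 * h * √u) := by gcongr
        _ = _ := by ring
    have h5 : (h + 1 + n * √n / l) * t ≤ (h + 2) * (n * √n) := by
      have : n * √n / l * t ≤ n * √n := by
        rw [div_mul_eq_mul_div, div_le_iff₀ l0]; gcongr
      nlinarith
    rw [add_div]
    gcongr ?_ + ?_
    · gcongr
    rw [div_le_div_iff₀ (by positivity) t0]
    calc _ ≤ C * ((h + 1 + n * √n / l) * t) := by rw [mul_assoc]; gcongr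
      _ ≤ C * ((h + 2) * ((2 * h) ^ 2 * (u * √u))) := 
          mul_le_mul_of_nonneg_left (h5.trans (by gcongr)) hC
      _ = _ := by ring

lemma root8 {x : ℝ} (hx : 0 ≤ x) : (x ^ (8 : ℝ)⁻¹) ^ 8 = x := by
  simpa using Real.rpow_inv_natCast_pow hx (n := 8) (by norm_num)

variable {p : ℝ} (p0 : 0 < p) (p1 : p < 1)
include p0 p1

theorem large_primes {h : ℕ} (h6 : 6 ≤ h) {δ : ℝ} (δ0 : 0 < δ) : ∀ᶠ K : ℕ in atTop,
    ∀ᶠ n : ℕ in atTop, Pr (gw p) (fun ω : Sym2 (Fin n) → Bool => ¬ Good (n / h) h K ω) ≤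
      1 / (n : ℝ) ^ 2 → ∀ x y : Fin n, x ≠ y → Pr (gw p) (fun ω => Good (n / h) h K ω ∧
        ∃ l : ℕ, l.Prime ∧ K < l ∧ Kill l ω x y) ≤ δ := by
  have hw := bw_isW p0.le p1.le
  obtain ⟨C, C1, hC⟩ := halasz (p := 1 / 2) (by norm_num) (by norm_num)
  have C0 : 0 ≤ C := zero_le_one.trans C1
  set D := 1 + C * (2 * h) ^ 2 * (h + 2) with hD
  have D1 : 1 ≤ D := le_add_of_nonneg_right (by positivity)
  have hs : Summable fun l : ℕ => 48 * ((D / l) ^ (8 : ℝ)⁻¹) ^ 9 := by
    refine ((Real.summable_nat_rpow_inv.2 (show 1 < (8 : ℝ)⁻¹ * (9 : ℕ) by norm_num)).mul_left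
      (48 * D ^ ((8 : ℝ)⁻¹ * (9 : ℕ)))).congr fun l => ?_
    rw [← Real.rpow_mul_natCast (by positivity), Real.div_rpow (by positivity) (by positivity)]
    ring
  obtain ⟨s, hs⟩ := hs.vanishing (gt_mem_nhds (half_pos δ0))
  filter_upwards [eventually_ge_atTop (s.sup id), eventually_ge_atTop 2,
    tendsto_natCast_atTop_atTop.eventually_ge_atTop D] with K K1 K2 K3
  filter_upwards [ev_div h h (by omega), ev_sqrt D, ev_sqrt (16 ^ 4 * D ^ 3 / (δ / 2) ^ 4)]
    with n h1 h2 h3 hG x y hxy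
  have h4 := Nat.mul_div_le n h
  have h5 : 6 * (n / h) ≤ Fintype.card (Fin n) := by
    rw [Fintype.card_fin]; exact (Nat.mul_le_mul_right _ h6).trans h4
  have n1 : (1 : ℝ) ≤ n := by rw [Fintype.card_fin] at h5; exact_mod_cast (by omega)
  have s1 : 1 ≤ √n := D1.trans h2
  let P := (range (n ^ (2 * n) + 1)).filter fun l => l.Prime ∧ K < l
  have hP : ∀ l ∈ P, l.Prime ∧ K < l := fun l hl => (mem_filter.1 hl).2
  refine (Pr_union hw.pw P (fun l ω => Good (n / h) h K ω ∧ Kill l ω x y) ?_).trans ?_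
  · rintro ω ⟨g, l, l1, l2, v, v1, v2, v3⟩
    refine ⟨l, mem_filter.2 ⟨mem_range.2 (Nat.lt_succ_of_le ?_), l1, l2⟩, g, v, v1, v2, v3⟩
    have := Fact.mk l1
    have h6 := (dvd_pow_self l (Nat.one_le_iff_ne_zero.1 ((one_le_dimK l1).2 ⟨v, v1, v2⟩))).trans
      (KK_pow_dvd l ω {y})
    have h7 := MY_det_le ω {y} (by omega)
    rw [Fintype.card_fin] at h7
    exact (Nat.le_of_dvd (Int.natAbs_pos.2 (MY_det_ne g.conn (singleton_nonempty y))) h6).trans h7
  rw [← sum_filter_add_sum_filter_not P fun l => l ≤ Nat.sqrt (n ^ 3), ← add_halves δ]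
  refine add_le_add (le_trans (sum_le_sum fun l hl => ?_) (hs _ ?_).le) ?_
  · obtain ⟨l1, l2⟩ := mem_filter.1 hl
    obtain ⟨l3, l4⟩ := hP l l1
    have l5 : (K : ℝ) ≤ l := by exact_mod_cast l4.le
    have l6 : (0 : ℝ) < l := by exact_mod_cast l3.pos
    have l7 : (l : ℝ) ≤ n * √n :=
      (Nat.cast_le.2 l2).trans (by rw [← sqrt_cube]; exact Real.nat_sqrt_le_real_sqrt)
    refine kill_medium hw hC C0 (by positivity) (Real.rpow_le_one (by positivity)
      (by rw [div_le_one l6]; linarith) (by positivity)) (by omega) h5 hxy l3 l4 K2 ?_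
      (by simpa using hG) ?_
    · rw [root8 (by positivity)]
      exact rho_of C0 (by omega) h1 l3.pos l6 le_rfl l7
    · refine (pow_le_pow_iff_left₀ (by positivity) (by positivity) (n := 8) (by norm_num)).1 ?_
      rw [← pow_mul, mul_comm 3, pow_mul, root8 (by positivity), Fintype.card_fin, div_pow, div_pow,
        div_le_div_iff₀ (by positivity) (by positivity), one_pow, one_mul]
      have l8 : √n ≤ n := Real.sqrt_le_iff.2 ⟨by positivity, by nlinarith⟩
      calc _ ≤ (n * n : ℝ) ^ 3 := by gcongr; exact l7.trans (by gcongr)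
        _ = 1 ^ 3 * n ^ 6 := by ring
        _ ≤ _ := by gcongr; norm_num
  · refine disjoint_left.2 fun l hl hl2 => ?_
    have := (hP l (mem_filter.1 hl).1).2
    have := le_sup (f := id) hl2
    simp only [id] at this
    omega
  · have t0 : 0 < n * √n := by positivity
    refine (kill_huge (τ := (D / (n * √n)) ^ (8 : ℝ)⁻¹) hw hC C0 (by positivity)
      (Real.rpow_le_one (by positivity) (by rw [div_le_one t0]; nlinarith) (by positivity))
      (by omega) h5 hxy fun l hl => ?_).trans ?_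
    · obtain ⟨l1, l2⟩ := mem_filter.1 hl
      obtain ⟨l3, l4⟩ := hP l l1
      have l5 : n * √n ≤ l := by
        rw [← sqrt_cube]
        exact Real.real_sqrt_le_nat_sqrt_succ.trans (by exact_mod_cast (by omega))
      refine ⟨l3, l4, ?_, ?_⟩
      · rw [root8 (by positivity)]
        exact rho_of C0 (by omega) h1 l3.pos t0 l5 le_rfl
      · rw [Fintype.card_fin]
        exact_mod_cast (show (n : ℝ) ≤ l by nlinarith)
    · refine (pow_le_pow_iff_left₀ (by positivity) (by positivity) (n := 4) (by norm_num)).1 ?_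
      rw [mul_pow, ← pow_mul, show 6 * 4 = 8 * 3 from rfl, pow_mul, root8 (by positivity),
        Fintype.card_fin]
      rw [div_le_iff₀ (by positivity)] at h3
      have s2 : √n ^ 2 = n := Real.sq_sqrt (by positivity)
      calc _ = 16 ^ 4 * D ^ 3 * n / (√n ^ 2 * √n) := by field_simp
        _ = 16 ^ 4 * D ^ 3 / √n := by rw [s2]; field_simp
        _ ≤ _ := by rw [div_le_iff₀ (by positivity)]; linarith

theorem first_moment {P : Finset ℕ} (hP : ∀ l ∈ P, l.Prime) {m : ℕ} [NeZero m]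
    (hm : m = ∏ l ∈ P, l) {h : ℕ} (h0 : 1 ≤ h) {κ : ℝ} (hκ : 1 < κ) : ∀ᶠ n : ℕ in atTop,
    ∀ v : Fin n → ZMod m, Rb P (201 * (n / h)) v →
      m ^ Fintype.card (Fin n) * Pr (gw p) (fun ω => lap ω v = 0) ≤ m * κ := by
  obtain ⟨t, -, ht⟩ := exists_max_image univ (fun t : ZMod m => if t = 0 then 0 else phi p t)
    univ_nonempty
  set θ := if t = 0 then 0 else phi p t
  have t0 : 0 ≤ θ := by simpa using ht 0 (mem_univ _)
  have t1 : θ < 1 := by
    simp only [θ]
    split_ifs with h1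
    · exact zero_lt_one
    · refine (phi_le_exp p t).trans_lt (Real.exp_lt_one_iff.2 (neg_lt_zero.2 ?_))
      have := ch_pos h1
      have := sub_pos.2 p1
      positivity
  have m0 := NeZero.pos m
  have h1 := (tendsto_small 1 (h := h * (6 * m)) (Nat.mul_pos h0 (by omega)) t0 t1).const_mul (m : ℝ)
  rw [mul_zero] at h1
  filter_upwards [h1.eventually (gt_mem_nhds (Real.log_pos hκ)), eventually_ge_atTop 1]
    with n h2 h3 v hv
  refine (lap_zero_bound hP hm (bw_isW p0.le p1.le) t0 t1.le (fun a ha => by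
    simpa [ha] using ht a (mem_univ _)) (by simpa) (D := n / h / (6 * m))
    ((Nat.mul_div_le _ _).trans (by omega)) hv).trans ?_
  rw [Fintype.card_fin, Nat.div_div_eq_div_mul]
  gcongr
  calc _ ≤ Real.exp (m * θ ^ (n / (h * (6 * m)))) ^ n := by
        gcongr; rw [add_comm]; exact Real.add_one_le_exp _
    _ ≤ Real.exp (Real.log κ) := by rw [← Real.exp_nat_mul]; gcongr; linarith
    _ = κ := Real.exp_log (by linarith)

end Pool.Agent.Work.MP_c383cf_pr
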