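import Pool.Agent.Work.MP_c383cf_pr.Large
import Pool.Agent.Work.MP_c383cf_pr.Alg
import Mathlib.Probability.Combinatorics.BinomialRandomGraph.Defs
import Mathlib.Probability.ConditionalProbability

namespace Pool.Agent.Work.MP_c383cf_pr

open Finset Module Filter Topology

lemma sum_inv_le (K : ℕ) :
    ∑ l ∈ (range (K + 1)).filter Nat.Prime, (1 / ((l : ℝ) ^ 2 - 1)) ≤ 3 / 4 := by
  have h : ∀ K : ℕ, ∑ l ∈ Ico 2 (K + 2), (1 / (((l : ℕ) : ℝ) ^ 2 - 1)) =
      3 / 4 - 1 / (2 * (K + 1 : ℝ)) - 1 / (2 * (K + 2 : ℝ)) := by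
    intro K
    induction K with
    | zero => norm_num
    | succ K ih =>
      rw [sum_Ico_succ_top (by omega), ih]
      have : ((K + 2 : ℕ) : ℝ) ^ 2 - 1 = (K + 1) * (K + 3) := by push_cast; ring
      rw [this]; push_cast; field_simp; ring
  refine (sum_le_sum_of_subset_of_nonneg (t := Ico 2 (K + 2)) (fun l hl => ?_)
    fun l hl _ => ?_).trans ?_
  · have := mem_filter.1 hl
    exact mem_Ico.2 ⟨this.2.two_le, by have := mem_range.1 this.1; omega⟩
  · have : (2 : ℝ) ≤ l := by exact_mod_cast (mem_Ico.1 hl).1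
    exact one_div_nonneg.2 (by nlinarith)
  · rw [h, sub_sub]
    exact sub_le_self _ (by positivity)

lemma ev_inv_sq {ε : ℝ} (h : 0 < ε) : ∀ᶠ n : ℕ in atTop, 1 / (n : ℝ) ^ 2 ≤ ε := by
  filter_upwards [tendsto_one_div_atTop_nhds_zero_nat.eventually (gt_mem_nhds h),
    eventually_ge_atTop 1] with n h2 h3
  have : (1 : ℝ) ≤ n := by exact_mod_cast h3
  exact le_trans (by gcongr; nlinarith) h2.le

lemma det_gen {n u h K t : ℕ} {A : ℝ} {ω : Sym2 (Fin n) → Bool} {y : Fin n} (g : Good u h K ω)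
    (h1 : ∀ l : ℕ, l.Prime → dimK l ω {y} ≤ 1)
    (c2 : ¬ ∃ P ∈ ((range (K + 1)).filter Nat.Prime).powerset, ∑ l ∈ P, (1 / l : ℝ) ≤ A ∧
      ∃ v : Fin n → ZMod (∏ l ∈ P, l), (v y = 0 ∧ Rb P (201 * u) v ∧ lap ω v = 0) ∧
        ∑ x ∈ univ.erase y, ind (IsUnit (v x)) ≤ t)
    (c3 : ∑ l ∈ (range (K + 1)).filter Nat.Prime, ind (Rob u ω ∧ 1 ≤ dimK l ω {y}) * (1 / l) < A)
    (c4 : ∑ x ∈ univ.erase y, ind (Good u h K ω ∧ ∃ l : ℕ, l.Prime ∧ K < l ∧ Kill l ω x y) <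
      (t + 1 : ℕ)) : ∃ x, x ≠ y ∧ ∀ l : ℕ, l.Prime → ¬ Kill l ω x y := by
  let P := ((range (K + 1)).filter Nat.Prime).filter fun l => 1 ≤ dimK l ω {y}
  have hP : ∀ l ∈ P, l.Prime := fun l hl => (mem_filter.1 (mem_filter.1 hl).1).2
  have : NeZero (∏ l ∈ P, l) := ⟨prod_ne_zero_iff.2 fun l hl => (hP l hl).ne_zero⟩
  have d1 : ∀ l ∈ P, ∃ v ∈ KK (ZMod l) ω {y}, v ≠ 0 := fun l hl =>
    (one_le_dimK (hP l hl)).1 (mem_filter.1 hl).2
  choose! w w1 w2 using d1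
  obtain ⟨v, v1, v2⟩ := assemble hP rfl g.rob w fun l hl => ⟨w1 l hl, w2 l hl⟩
  have d0 : ∑ l ∈ P, (1 / l : ℝ) ≤ A := by
    refine le_trans (le_of_eq ?_) c3.le
    rw [sum_filter]
    refine sum_congr rfl fun l _ => ?_
    split_ifs with h
    · rw [ind_pos ⟨g.rob, h⟩, one_mul]
    · rw [ind_neg fun h' => h h'.2, zero_mul]
  have d2 := not_le.1 fun h => c2 ⟨P, mem_powerset.2 (filter_subset _ _), d0, v, v1, h⟩
  classical
  rw [sum_ind, Nat.cast_lt] at c4 d2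
  obtain ⟨x, x1, x2⟩ := exists_mem_notMem_of_card_lt_card ((Nat.le_of_lt_succ c4).trans_lt d2)
  obtain ⟨x3, x4⟩ := mem_filter.1 x1
  refine ⟨x, ne_of_mem_erase x3, fun l l1 l2 => ?_⟩
  by_cases hK : K < l
  · exact x2 (mem_filter.2 ⟨x3, g, l, l1, hK, l2⟩)
  obtain ⟨u, u1, u2, u3⟩ := l2
  have d3 := (one_le_dimK l1).2 ⟨u, u1, u2⟩
  have hl : l ∈ P := mem_filter.2 ⟨mem_filter.2 ⟨mem_range.2 (by omega), l1⟩, d3⟩
  have := Fact.mk l1
  obtain ⟨a, ha⟩ := exists_smul_eq_of_finrank_eq_one (le_antisymm (h1 l l1) d3)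
    (x := ⟨u, u1⟩) (fun h => u2 (congrArg Subtype.val h)) ⟨w l, w1 l hl⟩
  refine v2 x x4 l hl ?_
  simpa [u3] using (congrFun (congrArg Subtype.val ha) x).symm

variable {p : ℝ} (p0 : 0 < p) (p1 : p < 1)
include p0 p1

lemma rank_ev {h : ℕ} (h0 : 1 ≤ h) (K : ℕ) {κ : ℝ} (hκ : 1 < κ) : ∀ᶠ n : ℕ in atTop,
    ∀ l ∈ (range (K + 1)).filter Nat.Prime, ∀ (y : Fin n) (r : ℕ), 1 ≤ r →
      Pr (gw p) (fun ω => Rob (n / h) ω ∧ r ≤ dimK l ω {y}) ≤ κ / (l ^ r - 1) := by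
  refine (eventually_all_finset _).2 fun l hl => ?_
  have := Fact.mk (mem_filter.1 hl).2
  filter_upwards [first_moment p0 p1 (P := {l}) (by simpa using this.1) (m := l) (by simp) h0 hκ]
    with n h1 y r hr
  exact rank_tail (bw_isW p0.le p1.le) (Fintype.card_pos_iff.2 ⟨y⟩) (by linarith) h1 y hr

lemma rank_le_one : ∀ᶠ n : ℕ in atTop, ∀ y : Fin n,
    Pr (gw p) (fun ω => ¬ ∀ l : ℕ, l.Prime → dimK l ω {y} ≤ 1) ≤ 7 / 8 := by
  have hw := bw_isW p0.le p1.le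
  obtain ⟨h, h6, h1⟩ := good_whp p0 p1
  obtain ⟨K, K1, K2⟩ := (h1.and (large_primes p0 p1 h6 (δ := 1 / 32) (by norm_num))).exists
  filter_upwards [K1, K2, rank_ev p0 p1 (h := h) (by omega) K (κ := 13 / 12) (by norm_num),
    ev_inv_sq (ε := 1 / 32) (by norm_num), eventually_ge_atTop 2] with n a1 a2 a3 a4 a5 y
  have : Nontrivial (Fin n) := Fin.nontrivial_iff_two_le.2 a5
  obtain ⟨x, hx⟩ := exists_ne y
  have a6 := (Pr_union hw.pw _ _ fun _ h => h).trans (sum_le_sum fun l hl => a3 l hl y 2 one_le_two)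
  simp only [div_eq_mul_one_div (13 / 12 : ℝ) (_ - 1), ← mul_sum] at a6
  refine (Pr_or hw.pw fun ω hω => ?_).trans ((add_le_add a1 ((Pr_or hw.pw fun _ h => h).trans
    (add_le_add (a2 a1 x y hx) a6))).trans (by linarith [sum_inv_le K]))
  by_cases g : Good (n / h) h K ω
  swap
  · exact Or.inl g
  push Not at hω
  obtain ⟨l, l1, l2⟩ := hω
  by_cases hK : K < l
  · refine Or.inr (Or.inl ⟨g, l, l1, hK, ?_⟩)
    have := Fact.mk l1
    have h2 := finrank_le_inf_ker (KK (ZMod l) ω {y}) (LinearMap.proj x)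
    by_contra hc
    rw [(Submodule.eq_bot_iff (_ ⊓ _)).2 fun v hv => by_contra fun h => hc ⟨v, hv.1, h, hv.2⟩,
      finrank_bot] at h2
    exact absurd l2 (not_lt.2 h2)
  · exact Or.inr (Or.inr ⟨l, mem_filter.2 ⟨mem_range.2 (by omega), l1⟩, g.rob, l2⟩)

lemma no_gen {ε : ℝ} (ε0 : 0 < ε) : ∀ᶠ n : ℕ in atTop, ∀ y : Fin n,
    Pr (gw p) (fun ω => (∀ l : ℕ, l.Prime → dimK l ω {y} ≤ 1) ∧
      ¬ ∃ x, x ≠ y ∧ ∀ l : ℕ, l.Prime → ¬ Kill l ω x y) ≤ 4 * ε := by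
  have hw := bw_isW p0.le p1.le
  obtain ⟨h, h6, h1⟩ := good_whp p0 p1
  set c := 1 - Real.exp (-(2 * (3 / ε))) / 2
  have c0 : 0 ≤ c := by
    have := Real.exp_le_one_iff.2 (show -(2 * (3 / ε)) ≤ 0 from neg_nonpos.2 (by positivity))
    simp only [c]; linarith
  have c1 : c < 1 := sub_lt_self _ (by positivity)
  obtain ⟨H, H1, H2⟩ := (((tendsto_sub_atTop_nat 1).eventually (ev_pow 2 c0 c1)).and
    (eventually_ge_atTop 1)).exists
  have H0 : (0 : ℝ) < H := by exact_mod_cast H2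
  obtain ⟨K, K1, K2⟩ := (h1.and (large_primes p0 p1 h6 (δ := ε / H) (by positivity))).exists
  let S := (range (K + 1)).filter Nat.Prime
  have hS : ∀ P ∈ S.powerset, ∀ l ∈ P, l.Prime := fun P hP l hl =>
    (mem_filter.1 (mem_powerset.1 hP hl)).2
  have h2 : ∀ᶠ n : ℕ in atTop, ∀ P ∈ S.powerset, ∀ y : Fin n, Pr (gw p) (fun ω =>
      ∑ l ∈ P, (1 / l : ℝ) ≤ 3 / ε ∧ ∃ v : Fin n → ZMod (∏ l ∈ P, l),
        (v y = 0 ∧ Rb P (201 * (n / h)) v ∧ lap ω v = 0) ∧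
        ∑ x ∈ univ.erase y, ind (IsUnit (v x)) ≤ (n / H : ℕ)) ≤ 2 * (1 / 2) ^ (n / H) := by
    refine (eventually_all_finset _).2 fun P hP => ?_
    have : NeZero (∏ l ∈ P, l) := ⟨prod_ne_zero_iff.2 fun l hl => (hS P hP l hl).ne_zero⟩
    filter_upwards [first_moment p0 p1 (hS P hP) rfl (h := h) (by omega) one_lt_two,
      ev_div H 1 H2] with n a1 a2 y
    by_cases hA : ∑ l ∈ P, (1 / l : ℝ) ≤ 3 / ε
    swap
    · exact (Pr_zero fun ω h => hA h.1).trans_le (by positivity)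
    refine (Pr_mono hw.pw fun ω h => h.2).trans ((unit_tail (hS P hP) rfl hw
      (Fintype.card_pos_iff.2 ⟨y⟩) zero_le_two a1 y (n / H) hA).trans ?_)
    rw [Fintype.card_fin, mul_left_comm]
    gcongr
    calc _ ≤ 2 ^ (n / H) * (c ^ (H - 1)) ^ (n / H) := by
          rw [← pow_mul]
          refine mul_le_mul_of_nonneg_left (pow_le_pow_of_le_one c0 c1.le ?_) (by positivity)
          have := Nat.mul_div_le n H
          rw [Nat.sub_one_mul]; omega
      _ ≤ _ := by rw [← mul_pow]; gcongr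
  filter_upwards [K1, K2, rank_ev p0 p1 (h := h) (by omega) K one_lt_two, h2, ev_inv_sq ε0,
    ev_small 0 (S.powerset.card * 2) H2 (c := 1 / 2) (by norm_num) (by norm_num)]
    with n a1 a2 a3 a4 a5 a6 y
  have b1 := (Pr_union_le hw.pw _ _ (fun _ h => h) fun P hP => a4 P hP y).trans
    (show _ ≤ ε by simp only [pow_zero] at a6; linarith)
  have b2 : Pr (gw p) (fun ω : Sym2 (Fin n) → Bool => 3 / ε ≤
      ∑ l ∈ S, ind (Rob (n / h) ω ∧ 1 ≤ dimK l ω {y}) * (1 / l)) ≤ ε := by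
    refine (Pr_markov hw.pw (by positivity) (fun ω => sum_nonneg fun _ _ =>
      mul_nonneg (ind_nonneg _) (by positivity)) fun _ h => h).trans ?_
    rw [div_le_iff₀ (by positivity), mul_div_cancel₀ _ ε0.ne', Ex_sum]
    refine (sum_le_sum (g := fun l : ℕ => 4 * (1 / ((l : ℝ) ^ 2 - 1))) fun l hl => ?_).trans
      (by rw [← mul_sum]; linarith [sum_inv_le K])
    have l2 : (2 : ℝ) ≤ l := by exact_mod_cast (mem_filter.1 hl).2.two_le
    rw [Ex_mul_const]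
    refine (mul_le_mul_of_nonneg_right (a3 l hl y 1 le_rfl) (by positivity)).trans ?_
    rw [pow_one, div_mul_div_comm, mul_one_div, div_le_div_iff₀ (by nlinarith) (by nlinarith)]
    nlinarith
  have b3 : Pr (gw p) (fun ω : Sym2 (Fin n) → Bool => ((n / H + 1 : ℕ) : ℝ) ≤
      ∑ x ∈ univ.erase y, ind (Good (n / h) h K ω ∧ ∃ l : ℕ, l.Prime ∧ K < l ∧ Kill l ω x y)) ≤
      ε := by
    refine (Pr_markov hw.pw (by positivity) (fun ω => sum_nonneg fun _ _ => ind_nonneg _)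
      fun _ h => h).trans ?_
    rw [div_le_iff₀ (by positivity), Ex_sum]
    refine (sum_le_card_nsmul _ _ _ fun x hx => a2 a1 x y (ne_of_mem_erase hx)).trans ?_
    have : ((univ.erase y).card : ℝ) ≤ H * (n / H + 1 : ℕ) := by
      have := (card_le_univ (univ.erase y)).trans_eq (Fintype.card_fin n)
      exact_mod_cast this.trans (Nat.lt_mul_div_succ n H2).le
    rw [nsmul_eq_mul]
    calc _ ≤ H * (n / H + 1 : ℕ) * (ε / H) := by gcongr
      _ = _ := by field_simp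
  refine (Pr_or hw.pw fun ω hω => ?_).trans ((add_le_add (a1.trans a5) ((Pr_or hw.pw
    fun _ h => h).trans (add_le_add b1 ((Pr_or hw.pw fun _ h => h).trans
      (add_le_add b2 b3))))).trans_eq (by ring))
  by_contra hc
  simp only [not_or, not_not, not_le] at hc
  exact hω.2 (det_gen hc.1 hω.1 hc.2.1 hc.2.2.1 hc.2.2.2)

theorem ratio : Tendsto (fun n => Pr (gw p) (fun ω : Sym2 (Fin n) → Bool =>
    IsAddCyclic (Jac (gr ω)) ∧ ∃ x y, x ≠ y ∧
      AddSubgroup.zmultiples (QuotientAddGroup.mk (delta x y) : Jac (gr ω)) = ⊤) /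
    Pr (gw p) (fun ω : Sym2 (Fin n) → Bool => IsAddCyclic (Jac (gr ω)))) atTop (𝓝 1) := by
  have hw := bw_isW p0.le p1.le
  refine Metric.tendsto_atTop.2 fun ε ε0 => eventually_atTop.1 ?_
  filter_upwards [rank_le_one p0 p1, no_gen p0 p1 (ε := 1 / 64) (by norm_num),
    no_gen p0 p1 (ε := ε / 128) (by positivity), eventually_gt_atTop 0] with n a1 a2 a3 n0
  let y : Fin n := ⟨0, n0⟩
  set a := Pr (gw p) fun ω : Sym2 (Fin n) → Bool => IsAddCyclic (Jac (gr ω)) ∧ ∃ x y, x ≠ y ∧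
    AddSubgroup.zmultiples (QuotientAddGroup.mk (delta x y) : Jac (gr ω)) = ⊤
  set b := Pr (gw p) fun ω : Sym2 (Fin n) → Bool => IsAddCyclic (Jac (gr ω))
  have b1 : a ≤ b := Pr_mono hw.pw fun _ h => h.1
  have key : ∀ {A : (Sym2 (Fin n) → Bool) → Prop} {e : ℝ}, (∀ ω, A ω → ∀ l : ℕ, l.Prime →
      dimK l ω {y} ≤ 1) → Pr (gw p) (fun ω => (∀ l : ℕ, l.Prime → dimK l ω {y} ≤ 1) ∧
      ¬ ∃ x, x ≠ y ∧ ∀ l : ℕ, l.Prime → ¬ Kill l ω x y) ≤ e → Pr (gw p) A ≤ a + e := by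
    intro A e h1 h2
    refine (Pr_or hw.pw fun ω hω => ?_).trans (add_le_add le_rfl h2)
    by_cases h : ∃ x, x ≠ y ∧ ∀ l : ℕ, l.Prime → ¬ Kill l ω x y
    · obtain ⟨x, h3, h4⟩ := h
      have := gen_of_not_kill h4
      exact Or.inl ⟨isAddCyclic_iff_exists_zmultiples_eq_top.2 ⟨_, this⟩, x, y, h3, this⟩
    · exact Or.inr ⟨h1 ω hω, h⟩
  have b2 := key (fun _ h => h) (a2 y)
  have b3 : b ≤ _ := key (fun ω h l hl => dimK_le_one h hl y) (a3 y)
  have b4 := a1 y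
  rw [Pr_not hw.pw] at b4
  have b5 : 1 / 16 ≤ b := by linarith
  rw [Real.dist_eq, abs_sub_comm, abs_of_nonneg (sub_nonneg.2 (div_le_one_of_le₀ b1 (by linarith))),
    one_sub_div (by linarith), div_lt_iff₀ (by linarith)]
  nlinarith

omit p0 p1

lemma Pr_gr_eq {n : ℕ} (p : ℝ) (G : SimpleGraph (Fin n)) : Pr (gw p) (fun ω => gr ω = G) =
    p ^ G.edgeSet.ncard * (1 - p) ^ (n.choose 2 - G.edgeSet.ncard) := by
  classical
  have e1 : ∀ ω : Sym2 (Fin n) → Bool, ind (gr ω = G) =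
      ∏ e, ind (e.IsDiag ∨ (ω e = true ↔ e ∈ G.edgeSet)) := by
    intro ω
    by_cases h : gr ω = G
    · rw [ind_pos h, prod_eq_one fun e _ => ind_pos ?_]
      rw [← h]
      by_cases he : e.IsDiag <;> simp [gr, he]
    · obtain ⟨e, he⟩ : ∃ e : Sym2 (Fin n), ¬ (e.IsDiag ∨ (ω e = true ↔ e ∈ G.edgeSet)) := by
        by_contra hc
        push Not at hc
        refine h (SimpleGraph.ext (funext₂ fun a b => propext ?_))
        have := hc s(a, b)
        by_cases hab : a = b <;> simp_all [gr]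
      rw [ind_neg h, prod_eq_zero (mem_univ e) (ind_neg he)]
  rw [Pr, Ex_congr e1, Ex_prod fun (e : Sym2 (Fin n)) x => ind (e.IsDiag ∨ (x = true ↔ e ∈ G.edgeSet))]
  have e2 : ∀ e : Sym2 (Fin n), Ex (bw p) (fun x => ind (e.IsDiag ∨ (x = true ↔ e ∈ G.edgeSet))) =
      (if e ∈ G.edgeFinset then p else 1) *
        if e ∈ (⊤ : SimpleGraph (Fin n)).edgeFinset \ G.edgeFinset then 1 - p else 1 := by
    intro e
    by_cases h1 : e ∈ G.edgeSet
    · simp [Ex, bw, h1, G.not_isDiag_of_mem_edgeSet h1, ind_pos, ind_neg]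
    · by_cases h2 : e.IsDiag <;> simp [Ex, bw, h1, h2, ind_pos, ind_neg]
  simp only [e2, prod_mul_distrib, prod_ite_mem, univ_inter, prod_const]
  rw [card_sdiff_of_subset (SimpleGraph.edgeFinset_mono le_top),
    SimpleGraph.card_edgeFinset_top_eq_card_choose_two, Fintype.card_fin,
    show G.edgeSet.ncard = G.edgeFinset.card from Set.ncard_eq_toFinset_card' _]

lemma meas_single (n : ℕ) : MeasurableSingletonClass (SimpleGraph (Fin n)) := ⟨fun G => by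
  rw [← SimpleGraph.measurableEmbedding_edgeSet.measurableSet_image, Set.image_singleton]
  exact measurableSet_singleton _⟩

lemma bridge {n : ℕ} (p : unitInterval) (A : SimpleGraph (Fin n) → Prop) :
    (SimpleGraph.binomialRandom (Fin n) p).real {G | A G} = Pr (gw p) (fun ω => A (gr ω)) := by
  classical
  have := meas_single n
  have e1 : {G | A G} = ((univ.filter A : Finset (SimpleGraph (Fin n))) : Set _) := by
    ext G; simp
  have e2 : ∀ ω, ind (A (gr ω)) = ∑ G ∈ univ.filter A, ind (gr ω = G) := by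
    intro ω
    by_cases h : A (gr ω)
    · rw [ind_pos h, Finset.sum_eq_single_of_mem (gr ω) (by simpa using h), ind_pos rfl]
      exact fun G _ hG => ind_neg hG.symm
    · rw [ind_neg h, eq_comm]
      exact Finset.sum_eq_zero fun G hG => ind_neg fun e => h (e ▸ (Finset.mem_filter.1 hG).2)
  rw [e1, ← MeasureTheory.sum_measureReal_singleton, Pr, Ex_congr e2, Ex_sum]
  refine Finset.sum_congr rfl fun G _ => ?_
  rw [← Pr, Pr_gr_eq, MeasureTheory.measureReal_def, SimpleGraph.binomialRandom_singleton]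
  simp

lemma cond_eq {n : ℕ} (p : unitInterval) (A B : SimpleGraph (Fin n) → Prop) :
    (ProbabilityTheory.cond (SimpleGraph.binomialRandom (Fin n) p) {G | A G}).real {G | B G} =
      Pr (gw p) (fun ω => A (gr ω) ∧ B (gr ω)) / Pr (gw p) (fun ω => A (gr ω)) := by
  have := meas_single n
  rw [← bridge p A, ← bridge p fun G => A G ∧ B G, MeasureTheory.measureReal_def,
    ProbabilityTheory.cond_apply (Set.toFinite _).measurableSet, ENNReal.toReal_mul,
    ENNReal.toReal_inv, div_eq_inv_mul]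
  rfl

end Pool.Agent.Work.MP_c383cf_pr
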