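import Mathlib.Analysis.SpecialFunctions.Pow.Real
import Mathlib.Algebra.Order.Chebyshev
import Mathlib.Data.Fintype.BigOperators

namespace Pool.Agent.Work.MP_c383cf_pr

open Finset

open Classical in
/-- Indicator of a proposition. -/
noncomputable def ind (q : Prop) : ℝ := if q then 1 else 0

lemma ind_pos {q : Prop} (h : q) : ind q = 1 := by unfold ind; rw [if_pos h]
lemma ind_neg {q : Prop} (h : ¬ q) : ind q = 0 := by unfold ind; rw [if_neg h]
lemma ind_nonneg (q : Prop) : 0 ≤ ind q := by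
  by_cases h : q
  · rw [ind_pos h]; norm_num
  · rw [ind_neg h]
lemma ind_le_one (q : Prop) : ind q ≤ 1 := by
  by_cases h : q
  · rw [ind_pos h]
  · rw [ind_neg h]; norm_num
lemma ind_congr {q r : Prop} (h : q ↔ r) : ind q = ind r := by rw [propext h]
lemma ind_mono {q r : Prop} (h : q → r) : ind q ≤ ind r := by
  by_cases hq : q
  · rw [ind_pos hq, ind_pos (h hq)]
  · rw [ind_neg hq]; exact ind_nonneg _
lemma ind_and (q r : Prop) : ind (q ∧ r) = ind q * ind r := by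
  by_cases hq : q <;> by_cases hr : r <;> simp [ind_pos, ind_neg, hq, hr]
lemma ind_not (q : Prop) : ind (¬ q) = 1 - ind q := by
  by_cases hq : q <;> simp [ind_pos, ind_neg, hq]
lemma ind_or_le (q r : Prop) : ind (q ∨ r) ≤ ind q + ind r := by
  by_cases hq : q
  · rw [ind_pos hq]; linarith [ind_le_one (q ∨ r), ind_nonneg r]
  · rw [ind_neg hq, zero_add]; exact ind_mono fun h => h.resolve_left hq
lemma ind_exists_le {κ : Type} (s : Finset κ) (q : κ → Prop) :
    ind (∃ k ∈ s, q k) ≤ ∑ k ∈ s, ind (q k) := by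
  by_cases h : ∃ k ∈ s, q k
  · obtain ⟨k, hk, hq⟩ := h
    calc ind (∃ k ∈ s, q k) ≤ 1 := ind_le_one _
      _ = ind (q k) := (ind_pos hq).symm
      _ ≤ _ := Finset.single_le_sum (f := fun k => ind (q k)) (fun _ _ => ind_nonneg _) hk
  · rw [ind_neg h]; exact Finset.sum_nonneg fun _ _ => ind_nonneg _
lemma sum_ind {κ : Type} (s : Finset κ) (q : κ → Prop) [DecidablePred q] :
    ∑ k ∈ s, ind (q k) = ((s.filter q).card : ℝ) := by
  rw [Finset.card_filter, Nat.cast_sum]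
  refine Finset.sum_congr rfl fun k _ => ?_
  by_cases h : q k
  · rw [ind_pos h, if_pos h]; simp
  · rw [ind_neg h, if_neg h]; simp

section General
variable {Ω : Type} [Fintype Ω]

/-- Probability weights. -/
structure IsW (μ : Ω → ℝ) : Prop where
  nn : ∀ a, 0 ≤ μ a
  one : ∑ a, μ a = 1

/-- Expectation. -/
noncomputable def Ex (μ : Ω → ℝ) (F : Ω → ℝ) : ℝ := ∑ ω, μ ω * F ω

/-- Probability. -/
noncomputable def Pr (μ : Ω → ℝ) (A : Ω → Prop) : ℝ := Ex μ fun ω => ind (A ω)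

variable {μ : Ω → ℝ}

lemma Ex_add (f g : Ω → ℝ) : Ex μ (fun ω => f ω + g ω) = Ex μ f + Ex μ g := by
  simp only [Ex, mul_add, sum_add_distrib]
lemma Ex_sub (f g : Ω → ℝ) : Ex μ (fun ω => f ω - g ω) = Ex μ f - Ex μ g := by
  simp only [Ex, mul_sub, sum_sub_distrib]
lemma Ex_const (h : IsW μ) (c : ℝ) : Ex μ (fun _ => c) = c := by
  simp only [Ex, ← sum_mul, h.one, one_mul]
lemma Ex_const_mul (c : ℝ) (f : Ω → ℝ) : Ex μ (fun ω => c * f ω) = c * Ex μ f := by
  simp only [Ex, mul_sum]; exact sum_congr rfl fun _ _ => by ring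
lemma Ex_mul_const (c : ℝ) (f : Ω → ℝ) : Ex μ (fun ω => f ω * c) = Ex μ f * c := by
  simp only [Ex, sum_mul]; exact sum_congr rfl fun _ _ => by ring
lemma Ex_sum {κ : Type} (s : Finset κ) (f : κ → Ω → ℝ) :
    Ex μ (fun ω => ∑ k ∈ s, f k ω) = ∑ k ∈ s, Ex μ (f k) := by
  simp only [Ex, mul_sum]; exact sum_comm
lemma Ex_mono (h : IsW μ) {f g : Ω → ℝ} (hf : ∀ ω, f ω ≤ g ω) : Ex μ f ≤ Ex μ g :=
  sum_le_sum fun ω _ => mul_le_mul_of_nonneg_left (hf ω) (h.nn ω)
lemma Ex_congr {f g : Ω → ℝ} (hf : ∀ ω, f ω = g ω) : Ex μ f = Ex μ g := by rw [funext hf]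
lemma Ex_nonneg (h : IsW μ) {f : Ω → ℝ} (hf : ∀ ω, 0 ≤ f ω) : 0 ≤ Ex μ f :=
  sum_nonneg fun ω _ => mul_nonneg (h.nn ω) (hf ω)
lemma Ex_le (h : IsW μ) {f : Ω → ℝ} {c : ℝ} (hf : ∀ ω, f ω ≤ c) : Ex μ f ≤ c :=
  (Ex_mono h hf).trans_eq (Ex_const h c)
lemma Ex_comm {Ω' : Type} [Fintype Ω'] (ν : Ω' → ℝ) (F : Ω → Ω' → ℝ) :
    Ex μ (fun a => Ex ν fun b => F a b) = Ex ν fun b => Ex μ fun a => F a b := by
  simp only [Ex, mul_sum]
  rw [sum_comm]
  exact sum_congr rfl fun _ _ => sum_congr rfl fun _ _ => by ring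
lemma Ex_sq (h : IsW μ) (f : Ω → ℝ) : Ex μ f ^ 2 ≤ Ex μ fun ω => f ω ^ 2 := by
  have := Ex_nonneg h (f := fun ω => f ω ^ 2 - (2 * Ex μ f) * f ω + Ex μ f ^ 2)
    fun ω => by nlinarith [sq_nonneg (f ω - Ex μ f)]
  rw [Ex_add, Ex_sub, Ex_const_mul, Ex_const h] at this
  nlinarith

lemma Pr_nonneg (h : IsW μ) (A : Ω → Prop) : 0 ≤ Pr μ A := Ex_nonneg h fun _ => ind_nonneg _
lemma Pr_le_one (h : IsW μ) (A : Ω → Prop) : Pr μ A ≤ 1 := Ex_le h fun _ => ind_le_one _
lemma Pr_mono (h : IsW μ) {A B : Ω → Prop} (hA : ∀ ω, A ω → B ω) : Pr μ A ≤ Pr μ B :=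
  Ex_mono h fun ω => ind_mono (hA ω)
lemma Pr_congr {A B : Ω → Prop} (hA : ∀ ω, A ω ↔ B ω) : Pr μ A = Pr μ B :=
  Ex_congr fun ω => ind_congr (hA ω)
lemma Pr_zero {A : Ω → Prop} (hA : ∀ ω, ¬ A ω) : Pr μ A = 0 := by
  simp [Pr, Ex, ind_neg (hA _)]
lemma Pr_not (h : IsW μ) (A : Ω → Prop) : Pr μ (fun ω => ¬ A ω) = 1 - Pr μ A := by
  simp only [Pr, ind_not, Ex_sub, Ex_const h]
lemma Pr_or (h : IsW μ) {A B C : Ω → Prop} (hA : ∀ ω, A ω → B ω ∨ C ω) :
    Pr μ A ≤ Pr μ B + Pr μ C := by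
  unfold Pr; rw [← Ex_add]
  exact Ex_mono h fun ω => (ind_mono (hA ω)).trans (ind_or_le _ _)
lemma Pr_union (h : IsW μ) {κ : Type} (s : Finset κ) {A : Ω → Prop} (B : κ → Ω → Prop)
    (hA : ∀ ω, A ω → ∃ k ∈ s, B k ω) : Pr μ A ≤ ∑ k ∈ s, Pr μ (B k) := by
  unfold Pr; rw [← Ex_sum]
  exact Ex_mono h fun ω => (ind_mono (hA ω)).trans (ind_exists_le _ _)
lemma Pr_union_le (h : IsW μ) {κ : Type} (s : Finset κ) {A : Ω → Prop} (B : κ → Ω → Prop)
    (hA : ∀ ω, A ω → ∃ k ∈ s, B k ω) {c : ℝ} (hB : ∀ k ∈ s, Pr μ (B k) ≤ c) :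
    Pr μ A ≤ s.card * c :=
  (Pr_union h s B hA).trans ((sum_le_card_nsmul _ _ _ hB).trans_eq (nsmul_eq_mul _ _))
lemma Pr_le_Ex (h : IsW μ) {A : Ω → Prop} {f : Ω → ℝ} (h0 : ∀ ω, 0 ≤ f ω)
    (h1 : ∀ ω, A ω → 1 ≤ f ω) : Pr μ A ≤ Ex μ f :=
  Ex_mono h fun ω => by
    by_cases hA : A ω
    · rw [ind_pos hA]; exact h1 ω hA
    · rw [ind_neg hA]; exact h0 ω
lemma Pr_markov (h : IsW μ) {A : Ω → Prop} {f : Ω → ℝ} {t : ℝ} (ht : 0 < t) (h0 : ∀ ω, 0 ≤ f ω)
    (h1 : ∀ ω, A ω → t ≤ f ω) : Pr μ A ≤ Ex μ f / t := by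
  rw [div_eq_mul_inv, ← Ex_mul_const]
  exact Pr_le_Ex h (fun ω => mul_nonneg (h0 ω) (by positivity))
    fun ω hA => by rw [← div_eq_mul_inv, one_le_div ht]; exact h1 ω hA
lemma Pr_unique (h : IsW μ) {A : Ω → Prop} {c : ℝ} (hc : ∀ a, μ a ≤ c)
    (hA : ∀ a b, A a → A b → a = b) : Pr μ A ≤ c := by
  by_cases h0 : ∃ a, A a
  · obtain ⟨a, ha⟩ := h0
    simp only [Pr, Ex]
    rw [sum_eq_single a (fun b _ hb => by rw [ind_neg fun h => hb (hA _ _ h ha), mul_zero])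
      (by simp), ind_pos ha, mul_one]
    exact hc a
  · rw [Pr_zero fun a ha => h0 ⟨a, ha⟩]
    have : (univ : Finset Ω).Nonempty := by
      by_contra h1
      have := h.one
      rw [not_nonempty_iff_eq_empty.1 h1] at this
      simp at this
    obtain ⟨a, -⟩ := this
    exact (h.nn a).trans (hc a)

end General

section Product
variable {ι α : Type} [Fintype ι] [DecidableEq ι] [Fintype α]

/-- Product weight. -/
noncomputable def pw (w : α → ℝ) (ω : ι → α) : ℝ := ∏ i, w (ω i)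

variable {w : α → ℝ}

lemma Ex_prod (g : ι → α → ℝ) :
    Ex (pw w) (fun ω : ι → α => ∏ i, g i (ω i)) = ∏ i, Ex w (g i) := by
  simp only [Ex, pw, ← prod_mul_distrib]
  rw [prod_univ_sum, Fintype.piFinset_univ]

lemma IsW.pw (h : IsW w) : IsW (pw w : (ι → α) → ℝ) where
  nn _ := prod_nonneg fun _ _ => h.nn _
  one := by
    have := Ex_prod (ι := ι) (w := w) fun _ _ => 1
    simpa [Ex, h.one] using this

omit [DecidableEq ι] [Fintype α] in
lemma pw_extend {κ : Type} [Fintype κ] {e : κ → ι} (he : Function.Injective e) (ω : ι → α)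
    (b : κ → α) : pw w (Function.extend e b ω) * pw w (ω ∘ e) = pw w ω * pw w b := by
  classical
  have key : ∀ f : ι → α, pw w f = pw w (f ∘ e) * ∏ i ∈ (univ.image e)ᶜ, w (f i) := by
    intro f
    unfold pw
    rw [← prod_mul_prod_compl (univ.image e), prod_image fun _ _ _ _ h => he h]
    rfl
  have h1 : Function.extend e b ω ∘ e = b := funext fun k => he.extend_apply _ _ _
  have h2 : ∏ i ∈ (univ.image e)ᶜ, w (Function.extend e b ω i) =
      ∏ i ∈ (univ.image e)ᶜ, w (ω i) :=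
    prod_congr rfl fun i hi => by rw [Function.extend_apply' _ _ _ (by simpa using hi)]
  rw [key (Function.extend e b ω), key ω, h1, h2]; ring

lemma Ex_extend (h : IsW w) {κ : Type} [Fintype κ] [DecidableEq κ] {e : κ → ι}
    (he : Function.Injective e) (F : (ι → α) → ℝ) :
    Ex (pw w) F = Ex (pw w) fun ω => Ex (pw w) fun b : κ → α => F (Function.extend e b ω) := by
  have inv : Function.Involutive fun x : (ι → α) × (κ → α) =>
      (Function.extend e x.2 x.1, x.1 ∘ e) := by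
    rintro ⟨ω, b⟩
    refine Prod.ext (funext fun i => ?_) (funext fun k => he.extend_apply _ _ _)
    by_cases hi : ∃ k, e k = i
    · obtain ⟨k, rfl⟩ := hi
      exact he.extend_apply _ _ _
    · simp only
      rw [Function.extend_apply' _ _ _ hi, Function.extend_apply' _ _ _ hi]
  calc Ex (pw w) F = Ex (pw w) fun ω => Ex (pw w) fun _ : κ → α => F ω :=
        Ex_congr fun ω => (Ex_const h.pw _).symm
    _ = ∑ x : (ι → α) × (κ → α), pw w x.1 * pw w x.2 * F x.1 := by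
        simp only [Ex, mul_sum, Fintype.sum_prod_type, mul_assoc]
    _ = ∑ x : (ι → α) × (κ → α), pw w x.1 * pw w x.2 * F (Function.extend e x.2 x.1) := by
        rw [← Equiv.sum_comp inv.toPerm]
        exact sum_congr rfl fun x _ => by
          simp only [Function.Involutive.coe_toPerm]; rw [pw_extend he]
    _ = _ := by simp only [Ex, mul_sum, Fintype.sum_prod_type, mul_assoc]

lemma Ex_update (h : IsW w) (i : ι) (F : (ι → α) → ℝ) :
    Ex (pw w) F = Ex (pw w) fun ω => Ex w fun x => F (Function.update ω i x) := by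
  rw [Ex_extend h (e := fun _ : Unit => i) (fun _ _ _ => rfl)]
  refine Ex_congr fun ω => ?_
  unfold Ex
  rw [← (Equiv.funUnique Unit α).symm.sum_comp]
  refine sum_congr rfl fun x _ => ?_
  beta_reduce
  congr 2
  · simp [pw]
  · funext j
    by_cases hj : j = i
    · subst hj
      rw [Function.update_self]
      exact (Function.injective_of_subsingleton (fun _ : Unit => j)).extend_apply _ _ ()
    · rw [Function.update_of_ne hj, Function.extend_apply' _ _ _ fun ⟨_, h⟩ => hj h.symm]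

lemma Ex_perm (τ : ι ≃ ι) (F : (ι → α) → ℝ) :
    Ex (pw w) F = Ex (pw w) fun ω => F (ω ∘ τ) := by
  unfold Ex
  rw [← (τ.symm.arrowCongr (Equiv.refl α)).sum_comp]
  refine sum_congr rfl fun ω _ => ?_
  congr 1
  exact τ.prod_comp fun i => w (ω i)

lemma Ex_curry {κ : Type} [Fintype κ] [DecidableEq κ] (F : (ι × κ → α) → ℝ) :
    Ex (pw w) F = Ex (pw (pw w)) fun b : ι → κ → α => F (Function.uncurry b) := by
  unfold Ex
  rw [← (Equiv.curry ι κ α).symm.sum_comp]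
  refine sum_congr rfl fun b _ => ?_
  congr 1
  exact Fintype.prod_prod_type _

omit [DecidableEq ι] [Fintype α] in
lemma pw_le (h0 : ∀ a, 0 ≤ w a) {θ : ℝ} (hθ : ∀ a, w a ≤ θ) (ω : ι → α) :
    pw w ω ≤ θ ^ Fintype.card ι := by
  unfold pw
  rw [← card_univ, ← prod_const]
  exact prod_le_prod (fun _ _ => h0 _) fun _ _ => hθ _

/-- An event whose points are determined by the coordinates outside the range of `e`. -/
lemma Pr_determined (h : IsW w) {θ : ℝ} (hθ : ∀ a, w a ≤ θ) {κ : Type} [Fintype κ]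
    [DecidableEq κ] {e : κ → ι} (he : Function.Injective e) {A : (ι → α) → Prop}
    (hA : ∀ ω ω', A ω → A ω' → (∀ i, (¬ ∃ k, e k = i) → ω i = ω' i) → ∀ k, ω (e k) = ω' (e k)) :
    Pr (pw w) A ≤ θ ^ Fintype.card κ := by
  unfold Pr
  rw [Ex_extend h he]
  refine Ex_le h.pw fun ω => Pr_unique h.pw (pw_le h.nn hθ) fun b b' hb hb' => funext fun k => ?_
  have := hA _ _ hb hb' (fun i hi => by
    rw [Function.extend_apply' _ _ _ hi, Function.extend_apply' _ _ _ hi]) k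
  rwa [he.extend_apply, he.extend_apply] at this

end Product

/-- Bernoulli weight. -/
noncomputable def bw (p : ℝ) (b : Bool) : ℝ := if b then p else 1 - p

lemma bw_isW {p : ℝ} (h0 : 0 ≤ p) (h1 : p ≤ 1) : IsW (bw p) where
  nn b := by cases b <;> simp [bw, h0, h1]
  one := by simp [bw]

lemma bw_le (p : ℝ) (b : Bool) : bw p b ≤ max p (1 - p) := by
  cases b <;> simp [bw]

end Pool.Agent.Work.MP_c383cf_pr
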