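import Pool.Agent.Work.MP_c383cf_pr.Typ

namespace Pool.Agent.Work.MP_c383cf_pr

open Finset Module

variable {V : Type} [Fintype V] [DecidableEq V] {p : ℝ}

/-- The permutation used at vertex `i`. -/
def sg (z y : V) (b : V → Bool) (i : V) : V ≃ V :=
  if b i = true ∧ i ≠ z ∧ i ≠ y then Equiv.swap z y else Equiv.refl V

/-- Exchange the edges `i z` and `i y` for all `i` with `b i`. -/
def swp (z y : V) (b : V → Bool) : Sym2 V → Sym2 V :=
  Sym2.lift ⟨fun u v => s(sg z y b v u, sg z y b u v), fun _ _ => Sym2.eq_swap⟩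

variable {z y : V} {b : V → Bool}

omit [Fintype V] in
lemma sg_fix {i : V} (h1 : i ≠ z) (h2 : i ≠ y) (j : V) : sg z y b j i = i := by
  unfold sg; split_ifs <;> simp [Equiv.swap_apply_of_ne_of_ne h1 h2]

omit [Fintype V] in
lemma swp_out {i : V} (h1 : i ≠ z) (h2 : i ≠ y) (j : V) :
    swp z y b s(i, j) = s(i, sg z y b i j) := by
  simp only [swp, Sym2.lift_mk, sg_fix h1 h2]

omit [Fintype V] in
lemma swp_inv : Function.Involutive (swp z y b) := by
  have h : ∀ i j, i ≠ z ∧ i ≠ y → swp z y b (swp z y b s(i, j)) = s(i, j) := by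
    intro i j h
    rw [swp_out h.1 h.2, swp_out h.1 h.2]
    unfold sg; split_ifs <;> simp
  intro e
  induction e using Sym2.ind with
  | _ i j =>
    by_cases hi : i ≠ z ∧ i ≠ y
    · exact h i j hi
    by_cases hj : j ≠ z ∧ j ≠ y
    · rw [Sym2.eq_swap]; exact h j i hj
    have : swp z y b s(i, j) = s(i, j) := by simp [swp, sg, hi, hj]
    rw [this, this]

lemma swap_bound (hw : IsW (bw p)) (z y : V) {A : (Sym2 V → Bool) → Prop}
    {f : (Sym2 V → Bool) → ℝ} (h0 : ∀ ω, 0 ≤ f ω) (h : ∀ ω b, A (ω ∘ swp z y b) →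
      Pr (pw (bw (1 / 2))) (fun b : V → Bool => A (ω ∘ swp z y b)) ≤ f ω) :
    Pr (gw p) A ≤ Ex (gw p) f := by
  have h2 : IsW (bw (1 / 2)) := bw_isW (by norm_num) (by norm_num)
  calc Pr (gw p) A = Ex (pw (bw (1 / 2))) fun _ : V → Bool => Pr (gw p) A := (Ex_const h2.pw _).symm
    _ = Ex (pw (bw (1 / 2))) fun b : V → Bool => Pr (gw p) fun ω => A (ω ∘ swp z y b) :=
        Ex_congr fun b => Ex_perm (swp_inv (b := b)).toPerm _
    _ ≤ _ := by
        simp only [Pr]
        rw [Ex_comm]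
        refine Ex_mono hw.pw fun ω => ?_
        by_cases hb : ∃ b, A (ω ∘ swp z y b)
        · obtain ⟨b, hb⟩ := hb
          exact h ω b hb
        · exact (Pr_zero fun b h => hb ⟨b, h⟩).trans_le (h0 ω)

section
variable {R : Type} [CommRing R] (ω : Sym2 V → Bool)

lemma lap_swp_out {v : V → R} (hv : v z = v y) {i : V} (h1 : i ≠ z) (h2 : i ≠ y) :
    lap (ω ∘ swp z y b) v i = lap ω v i := by
  rw [lap_apply, lap_apply, ← (sg z y b i).sum_comp fun j => adj R ω i j * (v i - v j)]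
  refine sum_congr rfl fun j _ => ?_
  have : v (sg z y b i j) = v j := by
    unfold sg; split_ifs
    · exact Equiv.apply_swap_eq_self hv j
    · rfl
  rw [this, adj, Function.comp, swp_out h1 h2, adj]

/-- The coefficients of the linear form seen after swapping. -/
def cf (ω : Sym2 V → Bool) (z y : V) (v : V → R) (j : V) : R :=
  (adj R ω j y - adj R ω j z) * (v z - v j)

lemma lap_swp_left {v : V → R} (hv : v z = v y) :
    lap (ω ∘ swp z y b) v z = lap ω v z + ∑ j, if b j then cf ω z y v j else 0 := by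
  rw [lap_apply, lap_apply, ← sum_add_distrib]
  refine sum_congr rfl fun j _ => ?_
  by_cases h1 : j = z
  · simp [h1, cf]
  by_cases h2 : j = y
  · simp [h2, cf, hv]
  rw [adj_comm, adj, Function.comp, swp_out h1 h2, adj_comm R ω z j, cf]
  cases hb : b j <;> simp [sg, hb, h1, h2, adj, sub_mul]

lemma lap_swp_right {v : V → R} (hv : v z = v y) :
    lap (ω ∘ swp z y b) v y = lap ω v y - ∑ j, if b j then cf ω z y v j else 0 := by
  rw [lap_apply, lap_apply, ← sum_sub_distrib]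
  refine sum_congr rfl fun j _ => ?_
  by_cases h1 : j = z
  · simp [h1, cf, hv]
  by_cases h2 : j = y
  · simp [h2, cf, hv]
  rw [adj_comm, adj, Function.comp, swp_out h1 h2, adj_comm R ω y j, cf]
  cases hb : b j <;> simp [sg, hb, h1, h2, adj, sub_mul, hv]

lemma KK_swp {Y : Finset V} (hz : z ∈ Y) (hy : y ∈ Y) : KK R (ω ∘ swp z y b) Y = KK R ω Y := by
  ext v
  refine and_congr_right fun h => forall₂_congr fun i hi => ?_
  rw [lap_swp_out ω ((h z hz).trans (h y hy).symm) (ne_of_mem_of_not_mem hz hi).symm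
    (ne_of_mem_of_not_mem hy hi).symm]

lemma dimK_swp (l : ℕ) {Y : Finset V} (hz : z ∈ Y) (hy : y ∈ Y) :
    dimK l (ω ∘ swp z y b) Y = dimK l ω Y := by unfold dimK; rw [KK_swp ω hz hy]

lemma MY_swp {Y : Finset V} (hz : z ∈ Y) (hy : y ∈ Y) : MY (ω ∘ swp z y b) Y = MY ω Y := by
  funext i j
  unfold MY
  split_ifs with h1 h2 h3
  · rfl
  · rfl
  · rfl
  have e : ∀ ω, lrow ω i j = lap ω (Pi.single j (1 : ℤ)) i := fun ω => by
    rw [← lrow_dot]; simp [Pi.single_apply]
  rw [e, e, lap_swp_out ω _ (ne_of_mem_of_not_mem hz h1).symm (ne_of_mem_of_not_mem hy h1).symm]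
  rw [Pi.single_eq_of_ne (ne_of_mem_of_not_mem hz h3),
    Pi.single_eq_of_ne (ne_of_mem_of_not_mem hy h3)]

end

/-- The vertices adjacent to exactly one of `z`, `y`. -/
def act (ω : Sym2 V → Bool) (z y : V) : Finset V :=
  ({z, y}ᶜ : Finset V).filter fun k => ω s(k, z) ≠ ω s(k, y)

lemma act_swp (ω : Sym2 V → Bool) : act (ω ∘ swp z y b) z y = act ω z y := by
  refine filter_congr fun k hk => ?_
  simp only [mem_compl, mem_insert, mem_singleton, not_or] at hk
  simp only [Function.comp, swp_out hk.1 hk.2]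
  cases hb : b k <;> simp [sg, hb, hk.1, hk.2, eq_comm]

lemma cf_act {R : Type} [CommRing R] {ω : Sym2 V → Bool} {j : V} (hj : j ∈ act ω z y) (v : V → R) :
    cf ω z y v j = v z - v j ∨ cf ω z y v j = v j - v z := by
  have := (mem_filter.1 hj).2
  unfold cf adj
  revert this
  cases ω s(j, z) <;> cases ω s(j, y) <;> simp

lemma lo_step {C : ℝ} (hC : Hal (1 / 2) C) (hC0 : 0 ≤ C) {l u h M : ℕ} [Fact l.Prime] (hu : 1 ≤ u)
    (m1 : h ≤ M) (m2 : u ≤ M ∨ Fintype.card V ^ 3 ≤ (l * M) ^ 2) (m3 : M ≤ u)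
    {ω : Sym2 V → Bool} (ha : 104 * u ≤ (act ω z y).card) {v : V → ZMod l} (hv : TypV u h l v)
    {s : ZMod l} (hs : s ≠ 0) (t : ZMod l) :
    Pr (pw (bw (1 / 2))) (fun b : V → Bool => ∑ j, (if b j then s * cf ω z y v j else 0) = t) ≤
      1 / l + C * M / (u * √u) := by
  let J := act ω z y \ univ.filter fun i => M ≤ lv v (v i)
  have h1 : 4 * u ≤ J.card := by
    have := le_card_sdiff (univ.filter fun i => M ≤ lv v (v i)) (act ω z y)
    have := hv M m1 m2
    simp only [J]; omega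
  have h2 : ∀ c, (J.filter fun j => v j = c).card ≤ M := fun c => by
    rcases (J.filter fun j => v j = c).eq_empty_or_nonempty with h | ⟨k, hk⟩
    · rw [h]; exact Nat.zero_le _
    · obtain ⟨k1, rfl⟩ := mem_filter.1 hk
      have : lv v (v k) < M := by simpa using (mem_sdiff.1 k1).2
      exact (card_le_card (filter_subset_filter _ (subset_univ _))).trans this.le
  refine (hC l V _ J (2 * M) (card_pos.1 (by omega)) (fun a => ?_) ?_ t).trans ?_
  · refine le_trans (card_le_card fun j hj => ?_) ((card_union_le _ _).trans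
      ((add_le_add (h2 (v z - a / s)) (h2 (v z + a / s))).trans_eq (two_mul M).symm))
    obtain ⟨j1, rfl⟩ := mem_filter.1 hj
    rw [mem_union, mem_filter, mem_filter, mul_div_cancel_left₀ _ hs]
    rcases cf_act (mem_sdiff.1 j1).1 v with h | h <;> simp [h, j1]
  · have : (J.filter fun j => s * cf ω z y v j = 0) ⊆ J.filter fun j => v j = v z := by
      intro j hj
      obtain ⟨j1, j2⟩ := mem_filter.1 hj
      have := (mul_eq_zero.1 j2).resolve_left hs
      refine mem_filter.2 ⟨j1, ?_⟩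
      rcases cf_act (mem_sdiff.1 j1).1 v with h | h <;> rw [h, sub_eq_zero] at this
      · exact this.symm
      · exact this
    have := (card_le_card this).trans (h2 _)
    omega
  · have h3 : (0 : ℝ) < u := by exact_mod_cast hu
    have h4 : (4 * u : ℝ) ≤ J.card := by exact_mod_cast h1
    refine add_le_add le_rfl ?_
    calc C * ((2 * M : ℕ) : ℝ) / (J.card * √J.card) ≤ C * ((2 * M : ℕ) : ℝ) / (2 * u * √u) := by
          gcongr <;> linarith
      _ = _ := by push_cast; field_simp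

/-- The good event. -/
structure Good (u h K : ℕ) (ω : Sym2 V → Bool) : Prop where
  conn : Conn ω
  act : ∀ z y, z ≠ y → 104 * u ≤ (act ω z y).card
  cor : Cor u ω
  rob : Rob u ω
  typ : Typ u h K ω

lemma Good.typV {u h K l : ℕ} {ω : Sym2 V → Bool} (g : Good u h K ω) (hl : l.Prime) (hK : K < l)
    {Y : Finset V} (hY : Y.card ≤ 5 * u) {v : V → ZMod l} (h1 : ∃ i j, v i ≠ v j)
    (h2 : ∀ i ∉ Y, lap ω v i = 0) : TypV u h l v :=
  g.typ l hl hK v h1 ((card_le_card fun i hi => by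
    by_contra hc; exact (mem_filter.1 hi).2 (h2 i hc)).trans hY)

/-- What the Halasz bound gives for the prime `l`. -/
def Rho (V : Type) [Fintype V] (C : ℝ) (u h l : ℕ) (ρ : ℝ) : Prop :=
  ∃ M, h ≤ M ∧ (u ≤ M ∨ Fintype.card V ^ 3 ≤ (l * M) ^ 2) ∧ M ≤ u ∧ 1 / l + C * M / (u * √u) ≤ ρ

lemma step_lin (hw : IsW (bw p)) {C ρ : ℝ} (hC : Hal (1 / 2) C) (hC0 : 0 ≤ C) {l u h K r : ℕ}
    (hl : l.Prime) (hK : K < l) (hu : 1 ≤ u) (hρ : Rho V C u h l ρ) {Y : Finset V}
    (hY : Y.card ≤ 5 * u) (hz : z ∈ Y) (hy : y ∈ Y) (hzy : z ≠ y) (hr : 1 ≤ r) :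
    Pr (gw p) (fun ω => Good u h K ω ∧ r ≤ dimK l ω Y ∧ ∀ v ∈ KK (ZMod l) ω Y, lap ω v z = 0) ≤
      min ρ ((1 / 2) ^ r) * Pr (gw p) fun ω => 1 ≤ dimK l ω Y ∧ (MY ω Y).det ≠ 0 := by
  have := Fact.mk hl
  have h2 : IsW (bw (1 / 2)) := bw_isW (by norm_num) (by norm_num)
  obtain ⟨M, m1, m2, m3, m4⟩ := hρ
  have hρ0 : 0 ≤ ρ := le_trans (by positivity) m4
  rw [Pr, Pr, ← Ex_const_mul]
  refine le_trans (Pr_mono hw.pw (B := fun ω => ((∀ v ∈ KK (ZMod l) ω Y, v ≠ 0 → TypV u h l v) ∧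
    104 * u ≤ (act ω z y).card ∧ r ≤ dimK l ω Y ∧ (MY ω Y).det ≠ 0) ∧
      ∀ v ∈ KK (ZMod l) ω Y, lap ω v z = 0) ?_) (swap_bound hw z y (fun ω =>
        mul_nonneg (by positivity) (ind_nonneg _)) ?_)
  · rintro ω ⟨g, h1, h3⟩
    refine ⟨⟨fun v hv h0 => g.typV hl hK hY ?_ hv.2, g.act z y hzy, h1,
      MY_det_ne g.conn ⟨z, hz⟩⟩, h3⟩
    obtain ⟨i, hi⟩ := Function.ne_iff.1 h0
    exact ⟨i, z, by rw [hv.1 z hz]; exact hi⟩
  rintro ω b ⟨h1, -⟩
  simp only [dimK_swp ω l hz hy, KK_swp ω hz hy, act_swp, MY_swp ω hz hy] at h1 ⊢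
  obtain ⟨t1, t2, t3, t4⟩ := h1
  rw [ind_pos ⟨hr.trans t3, t4⟩, mul_one]
  have e : ∀ v ∈ KK (ZMod l) ω Y, v z = v y := fun v hv => (hv.1 z hz).trans (hv.1 y hy).symm
  refine le_min ?_ ?_
  · obtain ⟨v, hv, h0⟩ : ∃ v ∈ KK (ZMod l) ω Y, v ≠ 0 := by
      by_contra hc
      push Not at hc
      rw [dimK, (Submodule.eq_bot_iff _).2 hc, finrank_bot] at t3
      omega
    refine le_trans (Pr_mono h2.pw fun b hb => ?_)
      ((lo_step hC hC0 hu m1 m2 m3 t2 (t1 v hv h0) one_ne_zero (-lap ω v z)).trans m4)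
    have := hb.2 v hv
    rw [lap_swp_left ω (e v hv), add_comm, ← eq_neg_iff_add_eq_zero] at this
    simpa using this
  · obtain ⟨Q, q1, q2, q3⟩ := pivot (act ω z y) r (KK (ZMod l) ω Y) (fun v hv h0 => by
      by_contra hc
      have h3 : act ω z y ⊆ univ.filter fun j => v j = 0 := fun j hj => by simpa using h0 j hj
      have h4 := card_le_card h3
      have h5 : act ω z y ⊆ univ.filter fun i => u ≤ lv v (v i) := fun j hj => by
        rw [mem_filter, h0 j hj]
        exact ⟨mem_univ _, by unfold lv; omega⟩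
      have := card_le_card h5
      have := t1 v hv hc u (m1.trans m3) (Or.inl le_rfl)
      omega) t3
    refine (Pr_determined h2 (θ := 1 / 2) (fun a => by cases a <;> norm_num [bw])
      (e := fun q : Q => q.1) Subtype.val_injective ?_).trans_eq (by simp [q2])
    rintro b b' hb hb' hout ⟨q, hq⟩
    obtain ⟨v, hv, h0⟩ := q3 q hq
    have h3 := (hb.2 v hv).trans (hb'.2 v hv).symm
    rw [lap_swp_left ω (e v hv), lap_swp_left ω (e v hv), add_right_inj, ← sub_eq_zero,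
      ← sum_sub_distrib, sum_eq_single q (fun j _ hj => ?_) (by simp)] at h3
    · have h4 : cf ω z y v q ≠ 0 := by
        rcases cf_act (q1 hq) v with h | h <;> simp [h, hv.1 z hz, h0 q hq]
      change b q = b' q
      revert h3
      cases b q <;> cases b' q <;> simp [h4]
    · by_cases hjQ : j ∈ Q
      · simp [cf, hv.1 z hz, h0 j hjQ, hj]
      · rw [hout j (by simpa using hjQ), sub_self]

lemma step_quad (hw : IsW (bw p)) {C ρ : ℝ} (hC : Hal (1 / 2) C) (hC0 : 0 ≤ C) {l u h K : ℕ}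
    (hl : l.Prime) (hK : K < l) (hK2 : 2 ≤ K) (hu : 1 ≤ u) (hρ : Rho V C u h l ρ) {Y : Finset V}
    (hY : Y.card + 2 ≤ 5 * u) (hne : Y.Nonempty) (hz : z ∉ Y) (hy : y ∉ Y) (hzy : z ≠ y) :
    Pr (gw p) (fun ω => Good u h K ω ∧ dimK l ω (insert z (insert y Y)) = 0 ∧
      1 ≤ dimK l ω (insert z Y) ∧ 1 ≤ dimK l ω (insert y Y)) ≤ ρ := by
  have := Fact.mk hl
  have h2 : IsW (bw (1 / 2)) := bw_isW (by norm_num) (by norm_num)
  obtain ⟨M, m1, m2, m3, m4⟩ := hρ
  have hρ0 : 0 ≤ ρ := le_trans (by positivity) m4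
  let W := fun (ω : Sym2 V → Bool) (w : V → ZMod l) => (∀ i ∈ Y, w i = 0) ∧ w z = 1 ∧ w y = 1 ∧
    ∀ i ∉ insert z (insert y Y), lap ω w i = 0
  refine le_trans (Pr_mono hw.pw (B := fun ω => KK (ZMod l) ω (insert z (insert y Y)) = ⊥ ∧
    104 * u ≤ (act ω z y).card ∧ ∃ w, W ω w ∧ TypV u h l w ∧ lap ω w z = lap ω w y) ?_)
    ((swap_bound hw z y (fun _ => hρ0) ?_).trans_eq (Ex_const hw.pw ρ))
  · rintro ω ⟨g, h0, h1, h3⟩
    have k0 := Submodule.finrank_eq_zero.1 h0
    have key : ∀ a b, a ≠ b → b ∉ Y → KK (ZMod l) ω (insert b (insert a Y)) = ⊥ →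
        1 ≤ dimK l ω (insert a Y) → ∃ v ∈ KK (ZMod l) ω (insert a Y), v b = 1 := by
      intro a b _ _ k1 k2
      obtain ⟨v, hv, h0⟩ : ∃ v ∈ KK (ZMod l) ω (insert a Y), v ≠ 0 := by
        by_contra hc
        push Not at hc
        rw [dimK, (Submodule.eq_bot_iff _).2 hc, finrank_bot] at k2
        omega
      have : v b ≠ 0 := fun e => h0 ((Submodule.eq_bot_iff _).1 k1 v ⟨fun i hi => by
        rcases mem_insert.1 hi with rfl | hi
        · exact e
        · exact hv.1 i hi, fun i hi => hv.2 i fun h => hi (mem_insert_of_mem h)⟩)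
      exact ⟨(v b)⁻¹ • v, Submodule.smul_mem _ _ hv, by simp [this]⟩
    obtain ⟨v, v1, v2⟩ := key z y hzy hy (by rw [insert_comm]; exact k0) h1
    obtain ⟨v', v1', v2'⟩ := key y z hzy.symm hz k0 h3
    have vz := v1.1 z (mem_insert_self _ _)
    have vy := v1'.1 y (mem_insert_self _ _)
    have w0 : ∀ i ∈ Y, v i = 0 ∧ v' i = 0 := fun i hi =>
      ⟨v1.1 i (mem_insert_of_mem hi), v1'.1 i (mem_insert_of_mem hi)⟩
    have w1 : ∀ i ∉ insert z (insert y Y), lap ω (v + v') i = 0 := fun i hi => by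
      simp only [mem_insert, not_or] at hi
      rw [map_add, Pi.add_apply, v1.2 i (by simp [hi]), v1'.2 i (by simp [hi]), add_zero]
    obtain ⟨i, hi⟩ := hne
    refine ⟨k0, g.act z y hzy, v + v', ⟨fun i hi => by simp [w0 i hi], by simp [vz, v2'],
      by simp [vy, v2], w1⟩, g.typV hl hK (Y := insert z (insert y Y)) ?_
        ⟨z, i, by simp [vz, v2', w0 i hi]⟩ w1, ?_⟩
    · have := card_insert_le z (insert y Y)
      have := card_insert_le y Y
      omega
    · have e1 : ∑ i, (v i - v' i) * lap ω (v + v') i = 0 := by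
        simp only [map_add, Pi.add_apply, sub_mul, mul_add, sum_sub_distrib, sum_add_distrib,
          KK_pair v1.1 v1.2, KK_pair v1'.1 v1'.2, lap_symm v v']
        ring
      rw [← sum_subset (subset_univ {z, y}) (fun j _ hj => ?_), sum_pair hzy, vz, vy, v2, v2'] at e1
      · linear_combination -e1
      · by_cases hj2 : j ∈ Y
        · simp [w0 j hj2]
        · rw [w1 j (by simp only [mem_insert, mem_singleton] at hj ⊢; tauto), mul_zero]
  rintro ω b ⟨k0, k1, w, w1, w2, -⟩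
  have hz' : z ∈ insert z (insert y Y) := by simp
  have hy' : y ∈ insert z (insert y Y) := by simp
  have e : ∀ b w, W (ω ∘ swp z y b) w → W ω w := fun b w hw => ⟨hw.1, hw.2.1, hw.2.2.1,
    fun i hi => by
      rw [← lap_swp_out ω (hw.2.1.trans hw.2.2.1.symm) (ne_of_mem_of_not_mem hz' hi).symm
        (ne_of_mem_of_not_mem hy' hi).symm]
      exact hw.2.2.2 i hi⟩
  rw [KK_swp ω hz' hy'] at k0
  rw [act_swp] at k1
  have w3 := e b w w1
  have h3 : (2 : ZMod l) ≠ 0 := fun h => by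
    have := Nat.le_of_dvd two_pos ((ZMod.natCast_eq_zero_iff 2 l).1 (by exact_mod_cast h))
    omega
  refine le_trans (Pr_mono h2.pw ?_)
    ((lo_step hC hC0 hu m1 m2 m3 k1 w2 h3 (lap ω w y - lap ω w z)).trans m4)
  rintro b ⟨-, -, w', k2, -, k3⟩
  have k4 := e b w' k2
  obtain rfl : w' = w := sub_eq_zero.1 ((Submodule.eq_bot_iff _).1 k0 _ ⟨fun i hi => by
    simp only [mem_insert] at hi
    rcases hi with rfl | rfl | hi
    · simp [k4.2.1, w3.2.1]
    · simp [k4.2.2.1, w3.2.2.1]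
    · simp [k4.1 i hi, w3.1 i hi], fun i hi => by simp [k4.2.2.2 i hi, w3.2.2.2 i hi]⟩)
  have k5 := w3.2.1.trans w3.2.2.1.symm
  rw [lap_swp_left ω k5, lap_swp_right ω k5] at k3
  have : ∀ j, (if b j then 2 * cf ω z y w' j else 0) = 2 * if b j then cf ω z y w' j else 0 :=
    fun j => by split_ifs <;> simp
  simp only [this, ← mul_sum]
  linear_combination k3

end Pool.Agent.Work.MP_c383cf_pr
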