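import Pool.Agent.Work.MP_c383cf_pr.Block
import Pool.Agent.Work.MP_c383cf_pr.Halasz

namespace Pool.Agent.Work.MP_c383cf_pr

open Finset Module

variable {V : Type} [Fintype V] [DecidableEq V] {p : ℝ}

/-- Size of a level set. -/
def lv {α : Type} [DecidableEq α] (v : V → α) (c : α) : ℕ := (univ.filter fun j => v j = c).card

/-- The set where a function is not harmonic. -/
def dfc {l : ℕ} (ω : Sym2 V → Bool) (v : V → ZMod l) : Finset V :=
  univ.filter fun i => lap ω v i ≠ 0

/-- Almost harmonic functions are far from constant. -/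
def Rob (u : ℕ) (ω : Sym2 V → Bool) : Prop :=
  ∀ l : ℕ, l.Prime → ∀ v : V → ZMod l, (∃ i j, v i ≠ v j) → (dfc ω v).card ≤ 5 * u →
    ∀ c, lv v c + 201 * u ≤ Fintype.card V

/-- Most level sets are small. -/
def TypV (u h l : ℕ) (v : V → ZMod l) : Prop :=
  ∀ M, h ≤ M → (u ≤ M ∨ Fintype.card V ^ 3 ≤ (l * M) ^ 2) →
    (univ.filter fun i => M ≤ lv v (v i)).card < 100 * u

/-- Almost harmonic functions have small level sets. -/
def Typ (u h K : ℕ) (ω : Sym2 V → Bool) : Prop :=
  ∀ l : ℕ, l.Prime → K < l → ∀ v : V → ZMod l, (∃ i j, v i ≠ v j) → (dfc ω v).card ≤ 5 * u →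
    TypV u h l v

omit [DecidableEq V] in
lemma KK_univ (F : Type) [CommRing F] (ω : Sym2 V → Bool) : KK F ω univ = ⊥ :=
  (Submodule.eq_bot_iff _).2 fun _ hv => funext fun i => hv.1 i (mem_univ i)

lemma rob_bound (hw : IsW (bw p)) {u : ℕ} (hV : 1 ≤ Fintype.card V)
    (hu : 206 * u ≤ Fintype.card V) {y : ℝ} (hy : 1 ≤ y) :
    Pr (gw p) (fun ω : Sym2 V → Bool => ¬ Rob u ω) ≤
      ((Fintype.card V).choose (206 * u) * Fintype.card V ^ 2) * (4 * Fintype.card V ^ 2 *
      (max p (1 - p) + 1 / y) ^ (Fintype.card V - 206 * u) * y ^ (2 * (1 + 206 * u))) := by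
  have hθ := (hw.nn true).trans (bw_le p true)
  refine (Pr_union_le hw.pw ((powersetCard (Fintype.card V - 206 * u) univ ×ˢ
    (univ : Finset (V × V))).filter fun x => x.2.2 ∉ x.1) (fun x ω =>
      (∀ l : ℕ, l.Prime → dimK l ω ∅ᶜ ≤ 0) ∧ KK ℚ ω ∅ᶜ = ⊥ ∧
      ∃ l : ℕ, l.Prime ∧ True ∧ ∃ v : V → ZMod l, (∀ i ∈ x.1, v i = v x.2.1) ∧
        (∀ i ∈ x.1 ∪ ∅, lap ω v i = 0) ∧ ∀ i ∈ x.1, ¬ v i = v x.2.2) (fun ω hω => ?_)
    (c := 4 * Fintype.card V ^ 2 * (max p (1 - p) + 1 / y) ^ (Fintype.card V - 206 * u) *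
      y ^ (2 * (1 + 206 * u))) fun x hx => ?_).trans ?_
  · simp only [Rob, not_forall, not_le] at hω
    obtain ⟨l, hl, v, ⟨a, b, hab⟩, h1, c, h2⟩ := hω
    obtain ⟨I, hI, hI2⟩ := exists_subset_card_eq (s := (univ.filter fun j => v j = c) \ dfc ω v)
      (n := Fintype.card V - 206 * u) (by
        have := le_card_sdiff (dfc ω v) (univ.filter fun j => v j = c)
        unfold lv at h2; omega)
    obtain ⟨i, hi⟩ : (univ.filter fun j => v j = c).Nonempty := by
      rw [← card_pos]; unfold lv at h2; omega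
    obtain ⟨j, hj⟩ : ∃ j, v j ≠ c := by
      by_contra h
      push Not at h
      exact hab ((h a).trans (h b).symm)
    have h3 : ∀ k ∈ I, v k = c ∧ lap ω v k = 0 := fun k hk => by simpa [dfc] using hI hk
    refine ⟨(I, i, j), by simpa [hI2] using fun h => hj (h3 j h).1, fun l hl => ?_, ?_,
      l, hl, trivial, v, fun k hk => ?_, fun k hk => (h3 k (by simpa using hk)).2, fun k hk => ?_⟩
    · have := Fact.mk hl
      rw [compl_empty, dimK, KK_univ, finrank_bot]
    · rw [compl_empty, KK_univ]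
    · rw [(h3 k hk).1, (mem_filter.1 hi).2]
    · rw [(h3 k hk).1]; exact hj.symm
  · obtain ⟨I, i, j⟩ := x
    simp only [mem_filter, mem_product, mem_powersetCard] at hx
    rw [← hx.1.1.2]
    refine pattern hw hV (J := {j}) (Rp := {i}) (by simpa using hx.2) (by simp)
      (π := fun _ => i) (by simp) (fun R => ∀ k ∈ I, ¬ R k j)
      (fun R R' h1 h2 k hk h3 => h2 k hk (h1 _ _ h3)) (fun _ => True)
      (fun N => (Nat.exists_infinite_primes (N + 1)).imp fun l hl => ⟨hl.2, hl.1, trivial⟩)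
      hθ hy (fun l hl _ v hv k hk t => ?_) ?_
    · refine (Pr_unique hw.pw (pw_le hw.nn (bw_le p)) fun b b' h1 h2 => ?_).trans_eq (by simp)
      have h3 := h1.trans h2.symm
      simp only [univ_unique, sum_singleton] at h3
      have h4 : v k - v j ≠ 0 := sub_ne_zero.2 (hv k hk)
      funext a
      rw [Subsingleton.elim a default]
      revert h3
      cases b default <;> cases b' default <;> simp [h4, h4.symm]
    · rw [union_empty, card_compl, hx.1.1.2, card_singleton]; omega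
  · gcongr
    have := card_filter_le (powersetCard (Fintype.card V - 206 * u) univ ×ˢ
      (univ : Finset (V × V))) fun x => x.2.2 ∉ x.1
    rw [card_product, card_powersetCard, card_univ, card_univ, Fintype.card_prod,
      Nat.choose_symm hu, ← sq] at this
    exact_mod_cast this

lemma typ_struct {α : Type} [DecidableEq α] (v : V → α) (Y : Finset V) {u M₀ : ℕ} (hu : 1 ≤ u)
    (hY : Y.card ≤ 5 * u) (hr : ∀ c, lv v c + 201 * u ≤ Fintype.card V) (hM₀ : 1 ≤ M₀)
    (h : 100 * u ≤ (univ.filter fun i => M₀ ≤ lv v (v i)).card) :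
    ∃ M, M₀ ≤ M ∧ M ≤ Fintype.card V ∧ ∃ I J Rp : Finset V, I.card = 95 * u ∧ Disjoint I Y ∧
      Disjoint I J ∧ J.card = 2 * u ∧ Rp.card ≤ Fintype.card V / M ∧
      (∀ i, (J.filter fun j => v i = v j).card ≤ min M u) ∧
      ∃ π ∈ Fintype.piFinset fun i => if i ∈ I then Rp else {i}, ∀ i ∈ I, v i = v (π i) := by
  have hle : ∀ M, 100 * u ≤ (univ.filter fun i => M ≤ lv v (v i)).card → M ≤ Fintype.card V := by
    intro M hM
    obtain ⟨i, hi⟩ := card_pos.1 (lt_of_lt_of_le (by omega) hM)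
    exact (mem_filter.1 hi).2.trans (card_le_univ _)
  obtain ⟨M, M1, M2, M3⟩ : ∃ M, M₀ ≤ M ∧ 100 * u ≤ (univ.filter fun i => M ≤ lv v (v i)).card ∧
      (univ.filter fun i => M + 1 ≤ lv v (v i)).card < 100 * u := by
    by_contra hc
    push Not at hc
    have := hle _ (Nat.le_induction (P := fun M _ =>
      100 * u ≤ (univ.filter fun i => M ≤ lv v (v i)).card) h (fun M h1 h2 => hc M h1 h2)
      (M₀ + Fintype.card V) (by omega))
    omega
  refine ⟨M, M1, hle M M2, ?_⟩
  obtain ⟨I, hI, hI2⟩ := exists_subset_card_eq (s := (univ.filter fun i => M ≤ lv v (v i)) \ Y)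
    (n := 95 * u) (by have := le_card_sdiff Y (univ.filter fun i => M ≤ lv v (v i)); omega)
  let R := ((univ.filter fun i => M + 1 ≤ lv v (v i)) ∪ I)ᶜ
  have hR : Fintype.card V ≤ R.card + 195 * u := by
    have := card_union_le (univ.filter fun i => M + 1 ≤ lv v (v i)) I
    simp only [R, card_compl]; omega
  have hne : Nonempty V := by
    obtain ⟨i, -⟩ := card_pos.1 (lt_of_lt_of_le (by omega) M2)
    exact ⟨i⟩
  obtain ⟨J, J1, J2, J3⟩ : ∃ J ⊆ R, J.card = 2 * u ∧ ∀ c, (J.filter fun j => c = v j).card ≤ u := by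
    by_cases hc : ∃ c, u ≤ (R.filter fun j => v j = c).card
    · obtain ⟨c, hc⟩ := hc
      obtain ⟨A, A1, A2⟩ := exists_subset_card_eq hc
      obtain ⟨B, B1, B2⟩ := exists_subset_card_eq (s := R \ univ.filter fun j => v j = c) (n := u)
        (by have := le_card_sdiff (univ.filter fun j => v j = c) R
            have := hr c
            unfold lv at this; omega)
      have A3 : ∀ j ∈ A, v j = c := fun j hj => (mem_filter.1 (A1 hj)).2
      have B3 : ∀ j ∈ B, v j ≠ c := fun j hj => by simpa using (mem_sdiff.1 (B1 hj)).2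
      refine ⟨A ∪ B, union_subset (A1.trans (filter_subset _ _)) (B1.trans sdiff_subset), ?_,
        fun d => ?_⟩
      · rw [card_union_of_disjoint (disjoint_left.2 fun j h1 h2 => B3 j h2 (A3 j h1))]; omega
      · by_cases hd : d = c
        · refine (card_le_card fun j hj => ?_).trans A2.le
          obtain ⟨h1, h2⟩ := mem_filter.1 hj
          exact (mem_union.1 h1).resolve_right fun h3 => B3 j h3 (h2.symm.trans hd)
        · refine (card_le_card fun j hj => ?_).trans B2.le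
          obtain ⟨h1, h2⟩ := mem_filter.1 hj
          exact (mem_union.1 h1).resolve_left fun h3 => hd (h2.trans (A3 j h3))
    · push Not at hc
      obtain ⟨J, J1, J2⟩ := exists_subset_card_eq (s := R) (n := 2 * u)
        (by have := hr (v hne.some); omega)
      refine ⟨J, J1, J2, fun c => le_trans (card_le_card fun j hj => ?_) (hc c).le⟩
      exact mem_filter.2 ⟨J1 (mem_filter.1 hj).1, (mem_filter.1 hj).2.symm⟩
  have J4 : ∀ j ∈ J, lv v (v j) ≤ M ∧ j ∉ I := fun j hj => by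
    have := J1 hj
    simp only [R, mem_compl, mem_union, mem_filter, mem_univ, true_and, not_or] at this
    exact ⟨by omega, this.2⟩
  let C := (univ.filter fun i => M ≤ lv v (v i)).image v
  have hC : C.card * M ≤ Fintype.card V := by
    have h1 := card_nsmul_le_sum C (lv v) M fun c hc => by
      obtain ⟨i, hi, rfl⟩ := mem_image.1 hc
      exact (mem_filter.1 hi).2
    simp only [lv] at h1
    rw [sum_card_fiberwise_eq_card_filter] at h1
    exact h1.trans (card_le_univ _)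
  refine ⟨I, J, C.image (Function.invFun v), hI2, disjoint_left.2 fun i hi => (mem_sdiff.1 (hI hi)).2,
    disjoint_right.2 fun j hj => (J4 j hj).2, J2,
    card_image_le.trans ((Nat.le_div_iff_mul_le (by omega)).2 hC), fun i => le_min ?_ (J3 _),
    fun i => if i ∈ I then Function.invFun v (v i) else i, Fintype.mem_piFinset.2 fun i => ?_,
    fun i hi => ?_⟩
  · rcases (J.filter fun j => v i = v j).eq_empty_or_nonempty with h1 | ⟨j, hj⟩
    · simp [h1]
    · obtain ⟨h1, h2⟩ := mem_filter.1 hj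
      refine le_trans (card_le_card fun k hk => ?_) (J4 j h1).1
      exact mem_filter.2 ⟨mem_univ _, (mem_filter.1 hk).2.symm.trans h2⟩
  · split_ifs with hi
    · exact mem_image_of_mem _ (mem_image_of_mem _ (mem_sdiff.1 (hI hi)).1)
    · exact mem_singleton_self _
  · simp only [if_pos hi]
    exact (Function.invFun_eq ⟨i, rfl⟩).symm

/-- The conclusion of the Halasz bound. -/
def Hal (p C : ℝ) : Prop := ∀ (l : ℕ) [Fact l.Prime]
    (κ : Type) [Fintype κ] [DecidableEq κ] (c : κ → ZMod l) (J : Finset κ) (M : ℕ), J.Nonempty →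
    (∀ a, (J.filter fun j => c j = a).card ≤ M) →
    2 * (J.filter fun j => c j = 0).card ≤ J.card → ∀ t : ZMod l,
    Pr (pw (bw p)) (fun b : κ → Bool => ∑ j, (if b j then c j else 0) = t) ≤
      1 / l + C * M / (J.card * √J.card)

lemma typ_bound (hw : IsW (bw p)) {C : ℝ} (hC : Hal p C) {u h K : ℕ} (hu : 1 ≤ u) (hh : 1 ≤ h)
    (hV : h ≤ Fintype.card V) (hn : Fintype.card V / h ≤ u) (β : ℕ → ℝ) {B : ℝ}
    (hβ : ∀ M ∈ Icc h (Fintype.card V), 0 < β M ∧ β M ≤ 1 ∧
      (∀ l : ℕ, K < l → (u ≤ M ∨ Fintype.card V ^ 3 ≤ (l * M) ^ 2) →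
        1 / l + C * (min M u : ℕ) / ((2 * u : ℕ) * √(2 * u : ℕ)) ≤ β M) ∧
      ((Fintype.card V / M : ℕ) * (2 * β M)) ^ (95 * u) * (1 / β M) ^ (20 * u) ≤ B) :
    Pr (gw p) (fun ω : Sym2 V → Bool => Conn ω ∧ Cor u ω ∧ Rob u ω ∧ ¬ Typ u h K ω) ≤
      4 * Fintype.card V ^ 3 * 16 ^ Fintype.card V * B := by
  classical
  set n := Fintype.card V with hn0
  let X := fun M : ℕ => (univ : Finset (Finset V × Finset V × Finset V × Finset V)).filter
    fun x => x.1.card = 95 * u ∧ Disjoint x.1 x.2.1 ∧ x.2.1.card = 2 * u ∧ x.2.2.1.card ≤ n / M ∧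
      x.2.2.2.card ≤ 5 * u
  let E := fun (M : ℕ) (I J Y : Finset V) (π : V → V) (ω : Sym2 V → Bool) =>
    (∀ l : ℕ, l.Prime → dimK l ω (I ∪ J ∪ Y)ᶜᶜ ≤ 2 * u) ∧ KK ℚ ω (I ∪ J ∪ Y)ᶜᶜ = ⊥ ∧
      ∃ l : ℕ, l.Prime ∧ (K < l ∧ (u ≤ M ∨ n ^ 3 ≤ (l * M) ^ 2)) ∧
        ∃ v : V → ZMod l, (∀ i ∈ I, v i = v (π i)) ∧ (∀ i ∈ I ∪ (I ∪ J ∪ Y)ᶜ, lap ω v i = 0) ∧
          ∀ i, (J.filter fun j => v i = v j).card ≤ min M u
  have hB : ∀ M ∈ Icc h n, ∀ x ∈ X M, Pr (gw p) (fun ω => ∃ π ∈ Fintype.piFinset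
      fun i => if i ∈ x.1 then x.2.2.1 else {i}, E M x.1 x.2.1 x.2.2.2 π ω) ≤ 4 * n ^ 2 * B := by
    rintro M hM ⟨I, J, Rp, Y⟩ hx
    obtain ⟨x1, x2, x3, x4, x5⟩ := (mem_filter.1 hx).2
    obtain ⟨b1, b2, b3, b4⟩ := hβ M hM
    dsimp only at x1 x2 x3 x4 x5 ⊢
    have hMh := (mem_Icc.1 hM).1
    refine (Pr_union_le hw.pw _ (E M I J Y) (fun _ h => h)
      (c := 4 * n ^ 2 * (β M + 1 / (1 / β M)) ^ I.card * (1 / β M) ^ (2 * (10 * u)))
      fun π hπ => ?_).trans ?_
    · refine le_trans (Pr_mono hw.pw ?_) (pattern hw (hh.trans hV) x2 (S := (I ∪ J ∪ Y)ᶜ) (Rp := Rp)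
        (disjoint_compl_left.mono_right subset_union_left) (π := π)
        (fun i hi => by simpa [hi] using Fintype.mem_piFinset.1 hπ i)
        (fun R => ∀ i, (J.filter fun j => R i j).card ≤ min M u)
        (fun R R' h1 h2 i => le_trans (card_le_card fun j hj =>
          mem_filter.2 ⟨(mem_filter.1 hj).1, h1 _ _ (mem_filter.1 hj).2⟩) (h2 i))
        (fun l => K < l ∧ (u ≤ M ∨ n ^ 3 ≤ (l * M) ^ 2)) (fun N => ?_) b1.le
        (one_le_one_div b1 b2) (fun l hl h1 v hv i hi t => ?_) (r₀ := 2 * u) ?_)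
      · rintro ω ⟨e1, e2, l, e3, e4, v, e5, e6, e7⟩
        exact ⟨e1, e2, l, e3, e4, v, e5, e6, fun i => by convert e7 i⟩
      · obtain ⟨l, l1, l2⟩ := Nat.exists_infinite_primes (N + K + n ^ 3 + 1)
        refine ⟨l, l2, by omega, by omega, Or.inr ?_⟩
        calc n ^ 3 ≤ l * M := (by omega : n ^ 3 ≤ l).trans (Nat.le_mul_of_pos_right _ (by omega))
          _ ≤ _ := Nat.le_self_pow two_ne_zero _
      · have := Fact.mk hl
        have h2 : ∀ a, ((univ : Finset J).filter fun j : J => v i - v j = a).card ≤ min M u := by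
          intro a
          rcases ((univ : Finset J).filter fun j : J => v i - v j = a).eq_empty_or_nonempty with
            h | ⟨k, hk⟩
          · rw [h]; exact Nat.zero_le _
          · refine le_trans (card_le_card_of_injOn Subtype.val (fun j hj => ?_)
              Subtype.val_injective.injOn) (hv k)
            have h3 := (mem_filter.1 hk).2.trans (mem_filter.1 hj).2.symm
            simpa using sub_right_injective h3
        have hJ : (univ : Finset J).card = 2 * u := by simpa using x3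
        refine (hC l J (fun j => v i - v j) univ (min M u) (card_pos.1 (by omega)) h2
          (by have := h2 0; omega) t).trans ?_
        rw [hJ]
        exact b3 l h1.1 h1.2
      · have h1 : (I ∪ (I ∪ J ∪ Y)ᶜ)ᶜ ⊆ J ∪ Y := fun i hi => by
          simp only [mem_compl, mem_union] at hi ⊢; tauto
        have := (card_le_card h1).trans (card_union_le _ _)
        have := Nat.div_le_div_left (a := n) hMh hh
        omega
    · have h1 : (Fintype.piFinset fun i => if i ∈ I then Rp else {i}).card ≤ (n / M) ^ (95 * u) := by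
        rw [Fintype.card_piFinset, ← x1]
        simp only [apply_ite card, card_singleton, prod_ite_mem, univ_inter, prod_const]
        exact Nat.pow_le_pow_left x4 _
      have h2 : ((Fintype.piFinset fun i => if i ∈ I then Rp else {i}).card : ℝ) ≤
        (n / M : ℕ) ^ (95 * u) := by exact_mod_cast h1
      rw [one_div_one_div, ← two_mul, x1, ← mul_assoc 2 10 u]
      calc _ ≤ (n / M : ℕ) ^ (95 * u) * (4 * n ^ 2 * (2 * β M) ^ (95 * u) *
            (1 / β M) ^ (2 * 10 * u)) := by gcongr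
        _ = 4 * n ^ 2 * (((n / M : ℕ) * (2 * β M)) ^ (95 * u) * (1 / β M) ^ (20 * u)) := by
            rw [mul_pow (_ : ℝ) (2 * β M)]; ring
        _ ≤ _ := by gcongr
  have hM := mem_Icc.2 ⟨le_refl h, hV⟩
  have hB0 : 0 ≤ B := le_trans (by have := (hβ h hM).1; positivity) (hβ h hM).2.2.2
  refine (Pr_union_le hw.pw (Icc h n) (fun M ω => ∃ x ∈ X M, ∃ π ∈ Fintype.piFinset
      fun i => if i ∈ x.1 then x.2.2.1 else {i}, E M x.1 x.2.1 x.2.2.2 π ω) ?_
      (c := 16 ^ n * (4 * n ^ 2 * B)) fun M hM => ?_).trans ?_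
  · rintro ω ⟨h1, h2, h3, h4⟩
    simp only [Typ, TypV, not_forall, not_lt] at h4
    obtain ⟨l, hl, hK, v, hv, hd, M₀, m1, m2, m3⟩ := h4
    obtain ⟨M, M1, M2, I, J, Rp, I1, I2, I3, J1, R1, J2, π, π1, π2⟩ :=
      typ_struct v (dfc ω v) hu hd (h3 l hl v hv hd) (hh.trans m1) m3
    have hne : (I ∪ J ∪ dfc ω v)ᶜᶜ.Nonempty := by
      rw [compl_compl]
      exact (card_pos.1 (by omega : 0 < I.card)).mono (by rw [union_assoc]; exact subset_union_left)
    refine ⟨M, mem_Icc.2 ⟨m1.trans M1, M2⟩, (I, J, Rp, dfc ω v),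
      mem_filter.2 ⟨mem_univ _, I1, I3, J1, R1, hd⟩, π, π1, fun l hl => (h2 l hl _ hne).le,
      (Submodule.eq_bot_iff _).2 fun v hv => KK_eq_zero h1 hne hv, l, hl,
      ⟨hK, m2.imp (·.trans M1) (·.trans (by gcongr))⟩, v, π2, fun i hi => ?_, J2⟩
    have : i ∉ dfc ω v := by
      rcases mem_union.1 hi with hi | hi
      · exact disjoint_left.1 I2 hi
      · exact fun h => mem_compl.1 hi (mem_union_right _ h)
    simpa [dfc] using this
  · refine (Pr_union_le hw.pw (X M) _ (fun _ h => h) (hB M hM)).trans ?_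
    gcongr
    have := card_le_univ (X M)
    simp only [Fintype.card_prod, Fintype.card_finset, ← mul_pow] at this
    exact_mod_cast this
  · have : ((Icc h n).card : ℝ) ≤ n := by
      rw [Nat.card_Icc]; exact_mod_cast (by omega)
    calc _ ≤ n * (16 ^ n * (4 * n ^ 2 * B)) := by gcongr
      _ = _ := by ring

end Pool.Agent.Work.MP_c383cf_pr
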